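import Pool.Agent.Lib.MP_305fdd_al.Fr.N.E.Stm3

/-!
# MP_305fdd_al (`F_r`), nilpotence block, section E: comparison of the alternating products of
localisations of the stable hulls over `A` and over `B` (E4 and E5 of the paper proof).
-/

set_option autoImplicit false

namespace Pool.Agent.FrNE

open Pool.Agent.FrN Pool.Agent.F2Ch

/-- the restriction of `j` to `A → B` -/
def resj {KA K ΓA Γ : Type} [Field KA] [Field K] [Algebra (ZMod 2) KA] [Algebra (ZMod 2) K]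
    (j : KA →+* K) (TA : ΓA → KA) (T : Γ → K) (h : ∀ x ∈ BB 2 TA, j x ∈ BB 2 T) :
    BB 2 TA →+* BB 2 T where
  toFun x := ⟨j x, h x x.2⟩
  map_one' := Subtype.ext (map_one j)
  map_mul' x y := Subtype.ext (map_mul j x.1 y.1)
  map_zero' := Subtype.ext (map_zero j)
  map_add' x y := Subtype.ext (map_add j x.1 y.1)

theorem map_mem_BB {KA K ΓA Γ : Type} [Field KA] [Field K] [Algebra (ZMod 2) KA]
    [Algebra (ZMod 2) K] (j : KA →+* K) (TA : ΓA → KA) (T : Γ → K) (f : ΓA → Γ)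
    (hj : ∀ w, j (TA w) = T (f w)) : ∀ x ∈ BB 2 TA, j x ∈ BB 2 T := by
  intro x hx
  unfold BB at hx
  induction hx using Algebra.adjoin_induction with
  | mem x hx =>
    obtain ⟨w, rfl⟩ := hx
    rw [hj]
    exact (bT 2 T (f w)).2
  | algebraMap r =>
    have h1 : j (algebraMap (ZMod 2) KA r) = algebraMap (ZMod 2) K r :=
      congrFun (congrArg DFunLike.coe
        (Subsingleton.elim (j.comp (algebraMap (ZMod 2) KA)) (algebraMap (ZMod 2) K))) r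
    rw [h1]
    exact Subalgebra.algebraMap_mem _ r
  | add x y hx1 hy1 hx hy =>
    rw [map_add]
    exact Subalgebra.add_mem _ hx hy
  | mul x y hx1 hy1 hx hy =>
    rw [map_mul]
    exact Subalgebra.mul_mem _ hx hy

/-- E4 and E5 -/
theorem e45 (h1 : S_pro) (h2 : S_proM) (h3 : S_den) (h4 : I_kf)
    (KA K : Type) [Field KA] [Field K] [Algebra (ZMod 2) KA] [Algebra (ZMod 2) K] (j : KA →+* K)
    (ΓA Γ : Type) (TA : ΓA → KA) (T : Γ → K) (f : ΓA → Γ) (hj : ∀ w, j (TA w) = T (f w))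
    (hAfg : (BB 2 TA).FG) (hBfg : (BB 2 T).FG) (hA : Frc (BB 2 TA)) (hB : Frc (BB 2 T))
    (halg : ∀ x : K, ∃ P : Polynomial KA, P ≠ 0 ∧ Polynomial.eval₂ j x P = 0)
    (hE1 : ∀ (n : ℕ) (x : BB 2 T), ∃ (a : BB 2 TA) (y : BB 2 T), (y : K) = j a ∧
      x - y ∈ (Ideal.span (Set.range (bT 2 T))) ^ n)
    (hE2 : ∀ n : ℕ, ∃ N : ℕ, ∀ (a : BB 2 TA) (y : BB 2 T), (y : K) = j a →
      y ∈ (Ideal.span (Set.range (bT 2 T))) ^ N → a ∈ (Ideal.span (Set.range (bT 2 TA))) ^ n)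
    (ΦA : KA → KA) (Φ : K → K) (hΦA : IsPinv 2 ΦA) (hΦ : IsPinv 2 Φ)
    (hc : ∀ x, Φ (j x) = j (ΦA x)) (c : KA) (MA : Submodule (BB 2 TA) KA)
    (M : Submodule (BB 2 T) K) (hMA : IsHull ΦA c MA) (hM : IsHull Φ (j c) M)
    (ws : List ΓA) (gs : List Γ) (hws : ∀ w ∈ ws, TA w ≠ 0) (hgs : ∀ g ∈ gs, T g ≠ 0)
    (hsA : Ideal.span {y | y ∈ ws.map (bT 2 TA)} = Ideal.span (Set.range (bT 2 TA)))
    (hsB : Ideal.span {y | y ∈ (ws.map f ++ gs).map (bT 2 T)} =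
      Ideal.span (Set.range (bT 2 T))) :
    KF hΦ ((ws.map f ++ gs).map (bT 2 T)) M = KF hΦA (ws.map (bT 2 TA)) MA := by
  have hmem := map_mem_BB j TA T f hj
  let φ : BB 2 TA →+* BB 2 T := resj j TA T hmem
  have hφ : ∀ a : BB 2 TA, (φ a : K) = j a := fun a => rfl
  have hφT : ∀ w, φ (bT 2 TA w) = bT 2 T (f w) := fun w => Subtype.ext (hj w)
  have hftA : Algebra.FiniteType (ZMod 2) (BB 2 TA) := ⟨(Subalgebra.fg_top _).2 hAfg⟩
  have hftB : Algebra.FiniteType (ZMod 2) (BB 2 T) := ⟨(Subalgebra.fg_top _).2 hBfg⟩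
  have hmap : (Ideal.span (Set.range (bT 2 TA))).map φ ≤ Ideal.span (Set.range (bT 2 T)) := by
    rw [Ideal.map_span, Ideal.span_le]
    rintro _ ⟨_, ⟨w, rfl⟩, rfl⟩
    rw [hφT]
    exact Ideal.subset_span ⟨f w, rfl⟩
  obtain ⟨e, he, heA, heB⟩ := h3 2 KA K j (BB 2 TA) (BB 2 T) hA hB hmem halg MA M hMA.fg hM.fg
  obtain ⟨ι, hι, hpro⟩ := h2 2 KA K j (BB 2 TA) (BB 2 T) φ hAfg hBfg hφ
    (Ideal.span (Set.range (bT 2 TA))) (Ideal.span (Set.range (bT 2 T))) hmap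
    (fun n x => by
      obtain ⟨a, y, hy, hxy⟩ := hE1 n x
      refine ⟨a, ?_⟩
      have : φ a = y := Subtype.ext ((hφ a).trans hy.symm)
      rw [this]
      exact hxy)
    (fun n => by
      obtain ⟨N, hN⟩ := hE2 n
      exact ⟨N, fun a ha => hN a (φ a) (hφ a) ha⟩)
    ΦA Φ hΦA hΦ hc c MA M hMA.fg hMA.stb hMA.mem hMA.min hM.fg hM.stb hM.mem hM.min e he heA heB
  have hFA : Module.Finite (BB 2 TA) (toC hΦA MA hMA.stb).M := Module.Finite.iff_fg.2 hMA.fg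
  have hFB : Module.Finite (BB 2 T) (toC hΦ M hM.stb).M := Module.Finite.iff_fg.2 hM.fg
  have hne : ∀ w ∈ ws, T (f w) ≠ 0 := by
    intro w hw h0
    rw [← hj, map_eq_zero] at h0
    exact hws w hw h0
  have hl : (ws.map f ++ gs).map (bT 2 T) = (ws.map (bT 2 TA)).map φ ++ gs.map (bT 2 T) := by
    rw [List.map_append, List.map_map, List.map_map]
    congr 1
    exact List.map_congr_left fun w _ => (hφT w).symm
  rw [h4 2 KA (BB 2 TA) hAfg ΦA hΦA MA hMA.stb hMA.fg (ws.map (bT 2 TA)) (by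
    intro y hy h0
    obtain ⟨w, hw, rfl⟩ := List.mem_map.1 hy
    exact hws w hw (congrArg Subtype.val h0))]
  rw [h4 2 K (BB 2 T) hBfg Φ hΦ M hM.stb hM.fg ((ws.map f ++ gs).map (bT 2 T)) (by
    intro y hy h0
    obtain ⟨g, hg, rfl⟩ := List.mem_map.1 hy
    rcases List.mem_append.1 hg with hg | hg
    · obtain ⟨w, hw, rfl⟩ := List.mem_map.1 hg
      exact hne w hw (congrArg Subtype.val h0)
    · exact hgs g hg (congrArg Subtype.val h0))]
  rw [hl] at hsB ⊢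
  refine h1 2 (BB 2 TA) (BB 2 T) φ (Ideal.span (Set.range (bT 2 TA)))
    (Ideal.span (Set.range (bT 2 T))) hmap (toC hΦA MA hMA.stb) (toC hΦ M hM.stb) ι hpro ?_
    (ws.map (bT 2 TA)) (gs.map (bT 2 T)) 1 ?_ ?_ ?_
  · intro x
    apply Subtype.ext
    refine (hι _).trans ?_
    change j (ΦA x.1) = Φ (ι x : K)
    exact (hc x.1).symm.trans (congrArg Φ (hι x).symm)
  · intro z hz
    obtain ⟨g, -, rfl⟩ := List.mem_map.1 hz
    exact Ideal.subset_span ⟨g, rfl⟩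
  · rw [pow_one, hsA]
    exact le_sup_right
  · rw [pow_one, hsB]
    exact le_sup_right

end Pool.Agent.FrNE
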