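import Pool.Agent.Lib.MP_305fdd_al.Fr.N.E.Stm4
import Pool.Agent.Lib.MP_305fdd_al.F2.GB.br
import Pool.Agent.Lib.MP_305fdd_al.CC.PCharFin
import Pool.Agent.Lib.MP_305fdd_al.CC.PChar

/-!
# MP_305fdd_al (`F_r`), nilpotence block, section E: [FrN E bas]
-/

set_option autoImplicit false

namespace Pool.Agent.FrNE

open Pool.Agent.FrN Pool.Agent.F2Ch Pool.Agent.F2RF
open Pool.Agent.F2 (PC)

namespace bas

/-- the values of `T` form a pseudo-character of `K` -/
lemma pcK {Γ K F : Type} [Group Γ] [Field K] [Field F] [Algebra K F] {T : Γ → K}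
    {ρ : Γ →* Matrix.SpecialLinearGroup (Fin 2) F}
    (htr : ∀ g, (ρ g).1.trace = algebraMap K F (T g)) : PC T := by
  have hinj : Function.Injective (algebraMap K F) := (algebraMap K F).injective
  refine ⟨?_, fun g h => ?_, fun g h => ?_⟩
  · apply hinj
    rw [← htr, map_one, map_ofNat]
    show Matrix.trace (1 : Matrix (Fin 2) (Fin 2) F) = 2
    rw [Matrix.trace_one, Fintype.card_fin]
    norm_num
  · apply hinj
    rw [← htr, ← htr, map_mul, map_mul]
    exact Matrix.trace_mul_comm _ _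
  · apply hinj
    rw [map_add, map_mul, ← htr, ← htr, ← htr, ← htr, map_mul, map_mul, map_inv]
    have h2 : ((ρ h)⁻¹).1 = (ρ h).1.adjugate := Matrix.SpecialLinearGroup.coe_inv _
    have h3 := Pool.Agent.PSL2Z.trace_adjugate (ρ g).1 (ρ h).1
    rw [← h2] at h3
    exact h3

/-- `OO` is generated by the entries of the images of the generators of the group -/
lemma fgO (p : ℕ) {Γ F : Type} [Group Γ] [Field F] [Algebra (ZMod p) F]
    (ρ : Γ →* Matrix.SpecialLinearGroup (Fin 2) F) (hΓ : Group.FG Γ) : (OO p ρ).FG := by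
  classical
  obtain ⟨S, hS1, hS2⟩ := Group.fg_iff.mp hΓ
  have hE : Set.Finite {x : F | ∃ g ∈ S, ∃ i j, x = (ρ g).1 i j} := by
    have h : {x : F | ∃ g ∈ S, ∃ i j, x = (ρ g).1 i j} ⊆
        (fun q : Γ × (Fin 2 × Fin 2) => (ρ q.1).1 q.2.1 q.2.2) '' (S ×ˢ Set.univ) := by
      rintro x ⟨g, hg, i, j, rfl⟩
      exact ⟨(g, (i, j)), ⟨hg, Set.mem_univ _⟩, rfl⟩
    exact ((hS2.prod Set.finite_univ).image _).subset h
  refine ⟨hE.toFinset, ?_⟩
  rw [Set.Finite.coe_toFinset]
  set A : Subalgebra (ZMod p) F :=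
    Algebra.adjoin (ZMod p) {x : F | ∃ g ∈ S, ∃ i j, x = (ρ g).1 i j} with hA
  apply le_antisymm
  · rw [hA, Algebra.adjoin_le_iff]
    rintro x ⟨g, -, i, j, rfl⟩
    exact mem_OO ρ g i j
  · unfold OO
    rw [Algebra.adjoin_le_iff]
    have key : ∀ g : Γ, ∀ i j, (ρ g).1 i j ∈ A := by
      intro g
      have hg : g ∈ Subgroup.closure S := by rw [hS1]; exact Subgroup.mem_top g
      induction hg using Subgroup.closure_induction with
      | mem x hx => exact fun i j => Algebra.subset_adjoin ⟨x, hx, i, j, rfl⟩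
      | one =>
        intro i j
        rw [map_one]
        show (1 : Matrix (Fin 2) (Fin 2) F) i j ∈ A
        rw [Matrix.one_apply]
        split_ifs
        · exact A.one_mem
        · exact A.zero_mem
      | mul x y _ _ hx hy =>
        intro i j
        rw [map_mul]
        show ((ρ x).1 * (ρ y).1) i j ∈ A
        rw [Matrix.mul_apply]
        exact A.sum_mem fun k _ => A.mul_mem (hx i k) (hy k j)
      | inv x _ hx =>
        intro i j
        rw [map_inv]
        have h2 : ((ρ x)⁻¹).1 = (ρ x).1.adjugate := Matrix.SpecialLinearGroup.coe_inv _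
        rw [h2, Matrix.adjugate_fin_two]
        fin_cases i <;> fin_cases j
        · exact hx 1 1
        · exact A.neg_mem (hx 0 1)
        · exact A.neg_mem (hx 1 0)
        · exact hx 0 0
    rintro x ⟨g, i, j, rfl⟩
    exact key g i j

end bas

open bas in
theorem p_bas : S_bas := by
  intro p _ b Γ K F _ _ _ _ _ _ T ρ hH
  have hT : PC T := pcK hH.tr
  refine ⟨⟨?_, fun g h => ?_, fun g h => ?_⟩, ?_, ?_, fgO p ρ hH.fg⟩
  · exact Subtype.ext hT.one
  · exact Subtype.ext (hT.comm g h)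
  · exact Subtype.ext (hT.rel g h)
  · have h1 : Set.range (bT p T) =
        ((↑) : Algebra.adjoin (ZMod p) (Set.range T) → K) ⁻¹' (Set.range T) := by
      ext x
      constructor
      · rintro ⟨g, rfl⟩
        exact ⟨g, rfl⟩
      · rintro ⟨g, hg⟩
        exact ⟨g, Subtype.ext hg⟩
    rw [h1]
    exact Algebra.adjoin_adjoin_coe_preimage
  · haveI := hH.fg
    have hP : CC.PChar (F := ZMod p) (1 : Γ →* (ZMod p)ˣ) T :=
      ((F2.p_br (ZMod p) Γ K T).1.mp hT)
    exact hP.fg

end Pool.Agent.FrNE
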