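import Pool.Agent.Lib.MP_305fdd_al.Fr.N.E.Stm1

/-!
# MP_305fdd_al (`F_r`), nilpotence block, section E: Burnside basis theorem for a finite 2-group
-/

set_option autoImplicit false

namespace Pool.Agent.FrNE

theorem p_bur : S_bur := by
  intro Q _ _ hQ I x hx
  by_contra hne
  haveI : Fact (Nat.Prime 2) := ⟨Nat.prime_two⟩
  haveI : Group.IsNilpotent Q := hQ.isNilpotent
  obtain ⟨M, hM, hle⟩ := (IsCoatomic.eq_top_or_exists_le_coatom (Subgroup.closure (Set.range x))).resolve_left hne
  haveI hMn : M.Normal := Subgroup.NormalizerCondition.normal_of_coatom M Group.normalizerCondition_of_isNilpotent hM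
  -- the quotient has order 2
  have hP : IsPGroup 2 (Q ⧸ M) := hQ.to_quotient M
  haveI : Nontrivial (Q ⧸ M) := by
    by_contra hnt
    rw [not_nontrivial_iff_subsingleton] at hnt
    exact hM.1 ((QuotientGroup.subsingleton_iff).1 hnt)
  obtain ⟨k, hk⟩ := hP.exists_card_eq
  have hdvd : 2 ∣ Nat.card (Q ⧸ M) := by
    rcases Nat.eq_zero_or_pos k with h | h
    · rw [h, pow_zero] at hk
      have := Finite.one_lt_card (α := Q ⧸ M)
      omega
    · rw [hk]; exact dvd_pow_self 2 h.ne'
  obtain ⟨g, hg⟩ := exists_prime_orderOf_dvd_card' 2 hdvd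
  have hz : Subgroup.comap (QuotientGroup.mk' M) (Subgroup.zpowers g) = ⊤ := by
    refine hM.2 _ (lt_of_le_of_ne ?_ ?_)
    · intro m hm
      rw [Subgroup.mem_comap]
      have : QuotientGroup.mk' M m = 1 := (QuotientGroup.eq_one_iff m).2 hm
      rw [this]; exact one_mem _
    · intro he
      obtain ⟨q, rfl⟩ := QuotientGroup.mk'_surjective M g
      have hq : q ∈ Subgroup.comap (QuotientGroup.mk' M) (Subgroup.zpowers (QuotientGroup.mk' M q)) := by
        rw [Subgroup.mem_comap]; exact Subgroup.mem_zpowers _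
      rw [← he] at hq
      have : QuotientGroup.mk' M q = 1 := (QuotientGroup.eq_one_iff q).2 hq
      rw [this, orderOf_one] at hg
      omega
  have hz2 : Subgroup.zpowers g = ⊤ := by
    rw [eq_top_iff]
    intro y _
    obtain ⟨q, rfl⟩ := QuotientGroup.mk'_surjective M y
    have : q ∈ Subgroup.comap (QuotientGroup.mk' M) (Subgroup.zpowers g) := by rw [hz]; trivial
    exact this
  have hcard : Nat.card (Q ⧸ M) = 2 := by
    rw [← hg, ← Nat.card_zpowers, hz2]
    exact (Nat.card_congr Subgroup.topEquiv.toEquiv).symm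
  have hc2 : Nat.card (Multiplicative (ZMod 2)) = 2 := by
    rw [Nat.card_eq_fintype_card]
    simp [Fintype.card_multiplicative]
  let e : (Q ⧸ M) ≃* Multiplicative (ZMod 2) := mulEquivOfPrimeCardEq hcard hc2
  have h1 := hx (e.toMonoidHom.comp (QuotientGroup.mk' M)) (fun i => by
    have hm : x i ∈ M := hle (Subgroup.subset_closure ⟨i, rfl⟩)
    have : QuotientGroup.mk' M (x i) = 1 := (QuotientGroup.eq_one_iff (x i)).2 hm
    rw [MonoidHom.comp_apply, this, map_one])
  obtain ⟨y, hy⟩ := exists_ne (1 : Q ⧸ M)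
  obtain ⟨q, rfl⟩ := QuotientGroup.mk'_surjective M y
  apply hy
  have h2 : e (QuotientGroup.mk' M q) = 1 := by
    have := DFunLike.congr_fun h1 q
    simpa using this
  exact e.injective (by rw [h2, map_one])

end Pool.Agent.FrNE
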