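import Pool.Agent.Lib.MP_305fdd_al.Fr.N.E.Stm2

/-!
# MP_305fdd_al (`F_r`), nilpotence block, section E: the statement `S_cc`.

Trace functions of `2 × 2` matrices in characteristic two are generated in bounded degree.
-/

set_option autoImplicit false

namespace Pool.Agent.FrNE

open MvPolynomial Matrix

noncomputable section

namespace CC

/-- weights -/
def wt (b : ℕ) : Gn b → ℕ := Sum.elim (fun _ => 2) List.length

/-- the variables which are kept -/
def good (b : ℕ) : Set (Gn b) :=
  {v | match v with
    | Sum.inl _ => True
    | Sum.inr l => 1 ≤ l.length ∧ l.length ≤ b}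

theorem two_eq_zero {C : Type} [CommRing C] [Algebra (ZMod 2) C] : (2 : C) = 0 := by
  have h : (algebraMap (ZMod 2) C) 2 = 2 := map_ofNat _ 2
  rw [← h, show (2 : ZMod 2) = 0 from rfl, map_zero]

/-- the identity for `tr (V U V W)` -/
theorem id4 {C : Type} [CommRing C] (V U W : Matrix (Fin 2) (Fin 2) C) :
    (V * (U * (V * W))).trace =
      (V * U).trace * (V * W).trace + V.det * ((U * W).trace - U.trace * W.trace) := by
  simp only [Matrix.trace_fin_two, Matrix.mul_apply, Fin.sum_univ_two, Matrix.det_fin_two]
  ring

theorem evm_inl {b : ℕ} {C : Type} [CommRing C] [Algebra (ZMod 2) C]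
    (v : Fin b → Matrix (Fin 2) (Fin 2) C) (i : Fin b) : evm v (X (Sum.inl i)) = (v i).det := by
  simp [evm]

theorem evm_inr {b : ℕ} {C : Type} [CommRing C] [Algebra (ZMod 2) C]
    (v : Fin b → Matrix (Fin 2) (Fin 2) C) (l : List (Fin b)) :
    evm v (X (Sum.inr l)) = ((l.map v).prod).trace := by
  simp [evm]

/-- every symbol `tr (l)` is a polynomial of the right weight in the good symbols -/
theorem exG (b : ℕ) : ∀ (n : ℕ) (l : List (Fin b)), l.length = n →
    ∃ G : MvPolynomial (Gn b) (ZMod 2), IsWeightedHomogeneous (wt b) G l.length ∧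
      G ∈ supported (ZMod 2) (good b) ∧ evm (gv b) G = evm (gv b) (X (Sum.inr l)) := by
  intro n
  induction n using Nat.strong_induction_on with
  | _ n ih =>
    intro l hl
    by_cases h0 : l = []
    · subst h0
      refine ⟨0, isWeightedHomogeneous_zero _ _ _, Subalgebra.zero_mem _, ?_⟩
      rw [evm_inr]
      simp only [map_zero, List.map_nil, List.prod_nil, Matrix.trace_one, Fintype.card_fin]
      exact (two_eq_zero (C := Vb b)).symm
    by_cases hb : l.length ≤ b
    · refine ⟨X (Sum.inr l), ?_, ?_, rfl⟩
      · exact isWeightedHomogeneous_X _ (wt b) (Sum.inr l)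
      · rw [X_mem_supported]
        exact ⟨List.length_pos_iff.2 h0, hb⟩
    have hdup : ¬ l.Nodup := by
      intro h
      have := h.length_le_card
      rw [Fintype.card_fin] at this
      exact hb this
    rw [← List.exists_duplicate_iff_not_nodup] at hdup
    obtain ⟨x, hx⟩ := hdup
    rw [List.duplicate_iff_sublist, List.cons_sublist_iff] at hx
    obtain ⟨r1, r2, hl12, hx1, hx2⟩ := hx
    rw [List.singleton_sublist] at hx2
    obtain ⟨s, t, rfl⟩ := List.append_of_mem hx1
    obtain ⟨p, q, rfl⟩ := List.append_of_mem hx2
    subst hl12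
    set u := t ++ p with hu
    set w := q ++ s with hw
    have hlen : (s ++ x :: t ++ (p ++ x :: q)).length = 2 + u.length + w.length := by
      simp [hu, hw]; omega
    rw [hlen] at hl
    obtain ⟨G1, a1, b1, c1⟩ := ih (1 + u.length) (by omega) (x :: u) (by simp; omega)
    obtain ⟨G2, a2, b2, c2⟩ := ih (1 + w.length) (by omega) (x :: w) (by simp; omega)
    obtain ⟨G3, a3, b3, c3⟩ := ih (u.length + w.length) (by omega) (u ++ w) (by simp)
    obtain ⟨G4, a4, b4, c4⟩ := ih u.length (by omega) u rfl
    obtain ⟨G5, a5, b5, c5⟩ := ih w.length (by omega) w rfl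
    refine ⟨G1 * G2 + X (Sum.inl x) * (G3 + G4 * G5), ?_, ?_, ?_⟩
    · rw [hlen]
      refine IsWeightedHomogeneous.add ?_ ?_
      · have h2 := a1.mul a2
        have e : (x :: u).length + (x :: w).length = 2 + u.length + w.length := by
          simp only [List.length_cons]; omega
        rwa [e] at h2
      · have h1 : IsWeightedHomogeneous (wt b) (G3 + G4 * G5) (u.length + w.length) := by
          refine IsWeightedHomogeneous.add ?_ (a4.mul a5)
          simpa using a3
        have h2 := (isWeightedHomogeneous_X (ZMod 2) (wt b) (Sum.inl x)).mul h1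
        have e : wt b (Sum.inl x) + (u.length + w.length) = 2 + u.length + w.length := by
          show 2 + (u.length + w.length) = _
          omega
        rwa [e] at h2
    · refine Subalgebra.add_mem _ (Subalgebra.mul_mem _ b1 b2) (Subalgebra.mul_mem _ ?_
        (Subalgebra.add_mem _ b3 (Subalgebra.mul_mem _ b4 b5)))
      rw [X_mem_supported]
      trivial
    · rw [map_add, map_mul, map_mul, map_add, map_mul, c1, c2, c3, c4, c5, evm_inl]
      simp only [evm_inr]
      have hrot : (((s ++ x :: t ++ (p ++ x :: q)).map (gv b)).prod).trace =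
          (gv b x * ((u.map (gv b)).prod * (gv b x * (w.map (gv b)).prod))).trace := by
        have : (((s ++ x :: t ++ (p ++ x :: q)).map (gv b)).prod) =
            (s.map (gv b)).prod * (gv b x * ((u.map (gv b)).prod *
              (gv b x * (q.map (gv b)).prod))) := by
          simp [hu, mul_assoc]
        rw [this, Matrix.trace_mul_comm]
        simp [hw, mul_assoc]
      rw [hrot, id4]
      simp only [List.map_cons, List.prod_cons, List.map_append, List.prod_append]
      linear_combination ((gv b x).det * ((u.map (gv b)).prod.trace *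
        (w.map (gv b)).prod.trace)) * (two_eq_zero (C := Vb b))

/-- `evm (gv b)` respects the degrees -/
theorem evm_hom (b : ℕ) {F : MvPolynomial (Gn b) (ZMod 2)} {n : ℕ}
    (hF : IsWeightedHomogeneous (wt b) F n) : (evm (gv b) F).IsHomogeneous n := by
  have hX : ∀ v : Gn b, (evm (gv b) (X v)).IsHomogeneous (wt b v) := by
    have hgv : ∀ (i : Fin b) (j k : Fin 2), (gv b i j k).IsHomogeneous 1 := by
      intro i j k
      exact isHomogeneous_X _ _
    rintro (i | l)
    · rw [evm_inl, Matrix.det_fin_two]
      exact ((hgv i 0 0).mul (hgv i 1 1)).sub ((hgv i 0 1).mul (hgv i 1 0))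
    · rw [evm_inr]
      show IsHomogeneous _ l.length
      have hp : ∀ (l : List (Fin b)) (j k : Fin 2),
          (((l.map (gv b)).prod) j k).IsHomogeneous l.length := by
        intro l
        induction l with
        | nil =>
          intro j k
          simp only [List.map_nil, List.prod_nil, List.length_nil, Matrix.one_apply]
          split
          · exact isHomogeneous_one _ _
          · exact isHomogeneous_zero _ _ _
        | cons x l ih =>
          intro j k
          simp only [List.map_cons, List.prod_cons, List.length_cons, Matrix.mul_apply]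
          refine IsHomogeneous.sum _ _ _ fun m _ => ?_
          have h2 := (hgv x j m).mul (ih m k)
          rwa [add_comm] at h2
      rw [Matrix.trace_fin_two]
      exact (hp l 0 0).add (hp l 1 1)
  rw [F.as_sum, map_sum]
  refine IsHomogeneous.sum _ _ _ fun m hm => ?_
  rw [mem_support_iff] at hm
  have hw : Finsupp.weight (wt b) m = n := hF hm
  rw [monomial_eq, map_mul, Finsupp.prod, map_prod]
  have hC : (evm (gv b) (C (coeff m F))).IsHomogeneous 0 := by
    have : evm (gv b) (C (coeff m F)) = C (coeff m F) := by
      rw [← algebraMap_eq, AlgHom.commutes]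
      rfl
    rw [this]
    exact isHomogeneous_C _ _
  have hP : (∏ i ∈ m.support, evm (gv b) (X i ^ m i)).IsHomogeneous
      (∑ i ∈ m.support, wt b i * m i) := by
    refine IsHomogeneous.prod _ _ _ fun i _ => ?_
    rw [map_pow]
    exact (hX i).pow (m i)
  have h2 := hC.mul hP
  have e : 0 + ∑ i ∈ m.support, wt b i * m i = n := by
    rw [zero_add, ← hw, Finsupp.weight_apply, Finsupp.sum]
    exact Finset.sum_congr rfl fun i _ => by rw [smul_eq_mul, mul_comm]
  rwa [e] at h2

/-- components commute with `evm` -/
theorem comp_evm (b : ℕ) (F : MvPolynomial (Gn b) (ZMod 2)) (n : ℕ) :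
    homogeneousComponent n (evm (gv b) F) =
      evm (gv b) (weightedHomogeneousComponent (wt b) n F) := by
  classical
  obtain ⟨K, hK⟩ : ∃ K : ℕ, ∀ m ∈ F.support, Finsupp.weight (wt b) m < K :=
    ⟨F.support.sup (fun m => Finsupp.weight (wt b) m) + 1, fun m hm =>
      Nat.lt_succ_of_le (Finset.le_sup (f := fun m => Finsupp.weight (wt b) m) hm)⟩
  have hsum : F = ∑ k ∈ Finset.range (max K (n + 1)), weightedHomogeneousComponent (wt b) k F := by
    ext m
    rw [coeff_sum]
    simp only [coeff_weightedHomogeneousComponent]
    rw [Finset.sum_ite_eq]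
    by_cases hm : m ∈ F.support
    · rw [if_pos]
      exact Finset.mem_range.2 (lt_of_lt_of_le (hK m hm) (le_max_left _ _))
    · rw [notMem_support_iff] at hm
      rw [hm, ite_self]
  conv_lhs => rw [hsum]
  rw [map_sum, map_sum, Finset.sum_eq_single n]
  · exact homogeneousComponent_eq_self
      (evm_hom b (weightedHomogeneousComponent_isWeightedHomogeneous n F))
  · intro k _ hk
    rw [homogeneousComponent_of_mem
      (evm_hom b (weightedHomogeneousComponent_isWeightedHomogeneous k F)), if_neg (Ne.symm hk)]
  · intro h
    exact absurd (Finset.mem_range.2 (lt_of_lt_of_le (Nat.lt_succ_self n) (le_max_right _ _))) h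

end CC

/-- The statement `S_cc`. -/
theorem p_cc : S_cc := by
  intro b
  refine ⟨b + 2, by omega, fun N F hF => ?_⟩
  classical
  choose G hGw hGs hGe using fun l : List (Fin b) => CC.exG b l.length l rfl
  -- step (2)
  set φ : MvPolynomial (Gn b) (ZMod 2) →ₐ[ZMod 2] MvPolynomial (Gn b) (ZMod 2) :=
    aeval (Sum.elim (fun i => X (Sum.inl i)) G) with hφ
  have hev : ∀ P, evm (gv b) (φ P) = evm (gv b) P := by
    intro P
    have : (evm (gv b)).comp φ = evm (gv b) := by
      apply MvPolynomial.algHom_ext
      rintro (i | l)
      · simp [hφ]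
      · simp only [AlgHom.comp_apply, hφ, aeval_X, Sum.elim_inr]
        exact hGe l
    rw [← AlgHom.comp_apply, this]
  have hsup : ∀ P, φ P ∈ supported (ZMod 2) (CC.good b) := by
    intro P
    induction P using MvPolynomial.induction_on with
    | C a =>
      rw [← algebraMap_eq, AlgHom.commutes]
      exact Subalgebra.algebraMap_mem _ _
    | add p q hp hq =>
      rw [map_add]
      exact Subalgebra.add_mem _ hp hq
    | mul_X p i hp =>
      rw [map_mul]
      refine Subalgebra.mul_mem _ hp ?_
      rcases i with i | l
      · have : φ (X (Sum.inl i)) = X (Sum.inl i) := by simp [hφ]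
        rw [this, X_mem_supported]
        trivial
      · have : φ (X (Sum.inr l)) = G l := by simp [hφ]
        rw [this]
        exact hGs l
  set F₁ := φ F with hF₁
  set F' : MvPolynomial (Gn b) (ZMod 2) :=
    F₁ - ∑ n ∈ Finset.range N, weightedHomogeneousComponent (CC.wt b) n F₁ with hF'
  have hcoeff : ∀ m, coeff m F' = if Finsupp.weight (CC.wt b) m < N then 0 else coeff m F₁ := by
    intro m
    rw [hF', coeff_sub, coeff_sum]
    simp only [coeff_weightedHomogeneousComponent]
    rw [Finset.sum_ite_eq]
    by_cases h : Finsupp.weight (CC.wt b) m < N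
    · rw [if_pos (Finset.mem_range.2 h), if_pos h, sub_self]
    · rw [if_neg (fun h' => h (Finset.mem_range.1 h')), if_neg h, sub_zero]
  refine ⟨F', ?_, ?_⟩
  · rw [F'.as_sum]
    refine Ideal.sum_mem _ fun m hm => ?_
    rw [mem_support_iff, hcoeff] at hm
    have hmN : ¬ Finsupp.weight (CC.wt b) m < N := fun h => hm (if_pos h)
    rw [if_neg hmN] at hm
    have hms : m ∈ F₁.support := mem_support_iff.2 hm
    have hgood : ∀ i ∈ m.support, i ∈ CC.good b := by
      intro i hi
      have h1 := mem_supported.1 (hsup F)
      exact h1 (mem_vars i |>.2 ⟨m, hms, hi⟩)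
    have hle : Finsupp.weight (CC.wt b) m ≤ (b + 2) * m.degree := by
      rw [Finsupp.weight_apply, Finsupp.sum, Finsupp.degree_apply, Finset.mul_sum]
      refine Finset.sum_le_sum fun i hi => ?_
      rw [smul_eq_mul, mul_comm]
      refine Nat.mul_le_mul_right _ ?_
      rcases i with i | l
      · show 2 ≤ b + 2
        omega
      · have := (hgood _ hi : 1 ≤ l.length ∧ l.length ≤ b).2
        show l.length ≤ b + 2
        omega
    have hdeg : N / (b + 2) ≤ m.degree := by
      apply Nat.div_le_of_le_mul
      omega
    refine Ideal.pow_le_pow_right hdeg ?_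
    rw [monomial_eq, Finsupp.prod, Finsupp.degree_apply]
    refine Ideal.mul_mem_left _ _ ?_
    rw [← Finset.prod_pow_eq_pow_sum]
    refine Ideal.prod_mem_prod fun i _ => Ideal.pow_mem_pow (Ideal.subset_span (Set.mem_range_self i)) _
  · rw [hF', map_sub, map_sum, hF₁, hev, sub_eq_self]
    refine Finset.sum_eq_zero fun n hn => ?_
    rw [← CC.comp_evm, hev]
    exact hF n (Finset.mem_range.1 hn)

end

end Pool.Agent.FrNE
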