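import Pool.Agent.Lib.MP_305fdd_al.F2.GDefs

/-!
# MP_305fdd_al (`F_r`), nilpotence block, section E (the trivial point, `p = 2`), part 2: trace
functions of high order at the identity. Statements and proofs.

`evf g f` is the value of a polynomial `f` in trace symbols `X w` (`w` a word in `b` letters) at
`g ∈ SL_2(C) ^ b`, `C` any commutative ring of characteristic `2`. The trivial point is
`tr g_w = 2 = 0` for all `w`. Result (`S_e2`): if `evf g f` has high order at `g = 1`, then `f` can be
replaced by an element of a high power of the ideal generated by all the symbols.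
-/

set_option autoImplicit false

namespace Pool.Agent.FrNE

open MvPolynomial Matrix

noncomputable section

/-- values of polynomials in trace symbols -/
def evf {b : ℕ} {C : Type} [CommRing C] [Algebra (ZMod 2) C]
    (g : Fin b → SpecialLinearGroup (Fin 2) C) :
    MvPolynomial (FreeGroup (Fin b)) (ZMod 2) →ₐ[ZMod 2] C :=
  aeval fun w => (FreeGroup.lift g w).1.trace

/-- generators of the trace ring of `b` matrices: `inl i` for `det v_i`, `inr l` for
`tr (v_(l_1) ⋯ v_(l_k))` -/
abbrev Gn (b : ℕ) : Type := Fin b ⊕ List (Fin b)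

/-- values of polynomials in these generators -/
def evm {b : ℕ} {C : Type} [CommRing C] [Algebra (ZMod 2) C]
    (v : Fin b → Matrix (Fin 2) (Fin 2) C) : MvPolynomial (Gn b) (ZMod 2) →ₐ[ZMod 2] C :=
  aeval (Sum.elim (fun i => (v i).det) fun l => ((l.map v).prod).trace)

/-- the polynomial ring in the entries of `b` matrices -/
abbrev Vb (b : ℕ) : Type := MvPolynomial (Fin b × Fin 2 × Fin 2) (ZMod 2)

/-- the generic matrices `v_i` -/
def gv (b : ℕ) (i : Fin b) : Matrix (Fin 2) (Fin 2) (Vb b) := Matrix.of fun j k => X (i, j, k)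

/-- the generic matrices `h_i = 1 + v_i` -/
def gh (b : ℕ) (i : Fin b) : Matrix (Fin 2) (Fin 2) (Vb b) := 1 + gv b i

/-- `a - 1, b, c` for the matrix `((a, b), (c, d))` -/
def ch3 {C : Type} [CommRing C] (g : SpecialLinearGroup (Fin 2) C) : Fin 3 → C :=
  ![g.1 0 0 - 1, g.1 0 1, g.1 1 0]

/-- [FrN E chart] trace functions in the chart `(a - 1, b, c)`.

Proof. For `g_i = ((a, b), (c, d))` with `a d = 1 + b c`, every `tr g_w` is a polynomial (coefficients in
`F_2`) in the `a_i, b_i, c_i, d_i` (for inverse letters `g⁻¹ = ((d, -b), (-c, a))`), the same for all `C`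
(`FreeGroup` words, induction; or apply it to the generic situation), so `evf g f = G(a, b, c, d)`. If `M` is
at least the degree of `G` in each `d_i`, then `(∏ a_i) ^ M G(a, b, c, d)` is a polynomial in `a, b, c`:
`a ^ M d ^ k = a ^ (M - k) (1 + b c) ^ k`. Finally `a = 1 + (a - 1)`. (It is enough to find `M, F` for the
variables `X w` and to see that the property is inherited by constants, sums (take the maximum of the `M`,
multiply by powers of `∏ a_i`) and products: `MvPolynomial.induction_on`.) -/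
def S_chart : Prop :=
  ∀ (b : ℕ) (f : MvPolynomial (FreeGroup (Fin b)) (ZMod 2)),
    ∃ (M : ℕ) (F : MvPolynomial (Fin b × Fin 3) (ZMod 2)),
      ∀ (C : Type) [CommRing C] [Algebra (ZMod 2) C] (g : Fin b → SpecialLinearGroup (Fin 2) C),
        (∏ i, (g i).1 0 0) ^ M * evf g f = aeval (fun s : Fin b × Fin 3 => ch3 (g s.1) s.2) F

/-- [FrN E cc] the graded ring of trace functions of matrices is generated in bounded degrees.

Proof. Weights: `inl i` has weight `2`, `inr l` has weight `l.length`; `evm (gv b)` maps a weighted homogeneous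
polynomial of weight `n` to a homogeneous polynomial of degree `n`. Let `c = b + 2`.
(1) For every `l ≠ []` there is a weighted homogeneous `G` of weight `l.length`, a polynomial in the `X (inl i)` and
the `X (inr l')` with `1 ≤ l'.length ≤ b`, such that `evm (gv b) G = evm (gv b) (X (inr l))`: strong induction on
the length. If `l.length ≤ b` nothing is to be done. Otherwise a letter `i` occurs twice; the trace is
invariant under rotations, so `l = i :: u ++ i :: w`. For 2 × 2 matrices (Cayley-Hamilton, polarised,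
`V u + u V = tr V u + tr u V + (tr (V u) - tr V tr u)`, and `V ^ 2 = tr V V - det V`), in characteristic 2
(so `tr 1 = 0` and the following is also right for `u = []` or `w = []` with `tr [] = 0`):
`tr (V u V w) = tr u (tr V tr (V w) + det V tr w) + (tr (V u) + tr V tr u) tr (V w) + det V tr (u w)`;
all words on the right are shorter, and all terms have the same weight. (2) Replace in `F` every `X (inr [])`
by `0` (`tr 1 = 2 = 0`) and every `X (inr l)` by its `G`: `evm (gv b) F = evm (gv b) F₁`. Let `F'` be the sum of the weighted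
homogeneous components of `F₁` of weight `≥ N`. By hypothesis `evm (gv b) F' = evm (gv b) F`, and every monomial
of `F'` is a product of at least `N / c` variables, as all variables which occur have weight `≤ c`. -/
def S_cc : Prop :=
  ∀ b : ℕ, ∃ c : ℕ, c ≠ 0 ∧ ∀ (N : ℕ) (F : MvPolynomial (Gn b) (ZMod 2)),
    (∀ n < N, homogeneousComponent n (evm (gv b) F) = 0) →
    ∃ F' ∈ (Ideal.span (Set.range X) : Ideal (MvPolynomial (Gn b) (ZMod 2))) ^ (N / c),
      evm (gv b) F' = evm (gv b) F

/-- [FrN E sq] trace functions at `h ^ [2] / det h`.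

Proof. Let `det (h_i) g_i = h_i ^ [2]` (entrywise squares). The map `x ↦ x ^ 2` is a ring endomorphism of `C`
(`Algebra (ZMod 2) C`), and the adjugate of a 2 × 2 matrix is linear, so
`det (h_i) g_i⁻¹ = adj (h_i ^ [2]) = (adj h_i) ^ [2]`. For a word `w` (a list of letters and inverse letters;
`FreeGroup.induction_on` or `toWord`) with `n_i(w)` letters `g_i ^ (±1)`:
`∏ det (h_i) ^ n_i(w) tr g_w = (tr w(h, adj h)) ^ 2`. With `v = h - 1`, `adj h = 1 + tr v + v`
(characteristic 2), so `tr w(h, adj h) = evm v P_w` for a polynomial `P_w` which does not depend on `C, h` (expand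
the product; `det h_i = 1 + tr v_i + det v_i = evm v D_i`). So for a monomial `μ = X w_1 ⋯ X w_k` of `f`, with
`n_i = ∑ n_i(w_j) ≤ 2 J`, `2 J - n_i = ε_i + 2 l_i`, `ε_i ∈ {0, 1}`:
`(∏ det h_i) ^ (2 J) evf g μ = ∏ det (h_i) ^ ε_i * (∏ (det h_i) ^ l_i * ∏ evm v P_(w_j)) ^ 2`. Collect the monomials
with `S = {i | ε_i = 1}` (coefficients in `F_2`, `c = c ^ 2`; squares are additive): this defines `α S` and gives
the first statement. Second statement: apply the definition of `α` to `h = g ∈ SL_2(C)` (`det h_i = 1`,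
`adj h = g⁻¹`): `evf g μ = ∏ tr g_(w_j) = ∏ evm v P_(w_j)`. -/
def S_sq : Prop :=
  ∀ (b : ℕ) (f : MvPolynomial (FreeGroup (Fin b)) (ZMod 2)),
    ∃ (J : ℕ) (α : Finset (Fin b) → MvPolynomial (Gn b) (ZMod 2)),
      (∀ (C : Type) [CommRing C] [Algebra (ZMod 2) C] (h : Fin b → Matrix (Fin 2) (Fin 2) C)
        (g : Fin b → SpecialLinearGroup (Fin 2) C),
        (∀ i, (h i).det • (g i).1 = (h i).map fun x => x ^ 2) →
        (∏ i, (h i).det) ^ (2 * J) * evf g f =
          ∑ S : Finset (Fin b), (∏ i ∈ S, (h i).det) * evm (fun i => h i - 1) (α S) ^ 2) ∧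
      ∀ (C : Type) [CommRing C] [Algebra (ZMod 2) C] (g : Fin b → SpecialLinearGroup (Fin 2) C),
        evf g f = ∑ S : Finset (Fin b), evm (fun i => (g i).1 - 1) (α S)

/-- [FrN E tri] a triangular system.

Proof. `det (h_i) = (1 + x)(1 + w) + y z` with `x = X (i,0,0)`, `y = X (i,0,1)`, `z = X (i,1,0)`,
`w = X (i,1,1)`. Every `P ∈ Vb b` is uniquely `∑ β, P_β ^ 2 X ^ β`, `β` with all exponents in `{0, 1}`
(coefficients in `F_2`); for a subset `S` let `P_S` be the component `P_β` for `β = ∑ i ∈ S, (y_i, z_i)`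
(`F2TF.comp` for the index type `Fin b × Fin 2 × Fin 2`, `p = 2`: `coeff w P_S = coeff (2 w + β) P`). If `P` has no
monomials of degree `< N` then `P_S` has no monomials of degree `n` with `2 n + 2 |S| < N`. The component map
is additive and satisfies `(Q ^ 2 P)_S = Q P_S`. For `P = ∏ i ∈ S', det h_i` one has `P_S = 1` if `S ⊆ S'` and `P_S = 0` otherwise
(the coefficient of `y_S z_S x ^ (2 ·) ...` in the product of the `1 + x_i + w_i + x_i w_i + y_i z_i`: only the monomial
`y_S z_S` itself has all exponents congruent to `β` mod 2). So for `P = ∑ S', (∏ i ∈ S', det h_i) α_S' ^ 2`: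
`P_S = ∑ S' ⊇ S, α_S'`, which has no monomials of degree `n` if `2 n + 2 b < N`. Now descending induction on
`S` (or inclusion-exclusion: `α_S` is a sum of some `P_S'`). -/
def S_tri : Prop :=
  ∀ (b N : ℕ) (α : Finset (Fin b) → Vb b),
    (∀ n < N, homogeneousComponent n
      (∑ S : Finset (Fin b), (∏ i ∈ S, (gh b i).det) * α S ^ 2) = 0) →
    ∀ (S : Finset (Fin b)) (n : ℕ), 2 * n + 2 * b < N → homogeneousComponent n (α S) = 0

/-- [FrN E e2] trace functions of high order at `1`. (Uses `S_cc`, `S_sq`, `S_tri`.)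

Proof. `c` from `S_cc`, `N = 2 b + 2 c a + 2`. Let `f, M, F` be given, `V = Vb b`, `D = ∏ det (gh b i) ∈ V`,
`𝔫 = (variables) ⊆ V`, `C = Localization.Away D` (`V → C` is injective, `D ≠ 0` as `D ≡ 1` mod `𝔫`), `h_i` the image of `gh b i`,
`g_i ∈ SL_2(C)` with entries `(h_i)_(jk) ^ 2 / det h_i` (determinant `det (h_i) ^ 2 / det (h_i) ^ 2`). With the
notation of `S_tri`: `(g_i)_00 - 1 = ((1 + x)(x + w) + y z) / det h_i`, `(g_i)_01 = y ^ 2 / det h_i`,
`(g_i)_10 = z ^ 2 / det h_i` lie in `𝔫 C`, so the chart relation gives `(∏ (g_i)_00) ^ M * evf g f ∈ 𝔫 ^ N C`,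
`(g_i)_00 = (1 + x) ^ 2 / det h_i`. By `S_sq`, `D ^ (2 J) evf g f` is the image of
`Θ = ∑ S, (∏ i ∈ S, det (gh b i)) * evm (gv b) (α S) ^ 2 ∈ V`. So for some `k`:
`D ^ k (∏ (1 + x_i)) ^ (2 M) Θ ∈ 𝔫 ^ N`; `D` and the `1 + x_i` are `≡ 1` mod `𝔫`, hence units modulo `𝔫 ^ N`, so
`Θ ∈ 𝔫 ^ N`, i.e. its components of degree `< N` vanish. By `S_tri` the components of `evm (gv b) (α S)` of degree
`n` vanish if `2 n + 2 b < N`, in particular for `n < c a`. By `S_cc` there are `F'_S ∈ (variables) ^ a` with
`evm (gv b) F'_S = evm (gv b) (α S)`, hence `evm v F'_S = evm v (α S)` for all matrices `v` over all `C`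
(specialise the generic matrices: `evm v = (aeval entries) ∘ evm (gv b)`). Let
`Ψ : MvPolynomial (Gn b) (ZMod 2) → MvPolynomial (FreeGroup (Fin b)) (ZMod 2)` be the algebra homomorphism
with `Ψ (X (inl i)) = X (of i)` (`det (g - 1) = 2 - tr g = tr g` for `det g = 1`) and
`Ψ (X (inr l)) = ∑ over the sublists l' of l of X (∏ of l')` (`tr ∏ (g_(l_k) - 1)`, signs do not matter); then
`evf g (Ψ G) = evm (g - 1) G` and `Ψ` maps the variables into `Ideal.span (Set.range X)`. Take
`f' = ∑ S, Ψ (F'_S)` and use the second statement of `S_sq`. -/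
def S_e2 : Prop :=
  ∀ b a : ℕ, ∃ N : ℕ, ∀ (f : MvPolynomial (FreeGroup (Fin b)) (ZMod 2)) (M : ℕ)
    (F : MvPolynomial (Fin b × Fin 3) (ZMod 2)),
    (∀ (C : Type) [CommRing C] [Algebra (ZMod 2) C] (g : Fin b → SpecialLinearGroup (Fin 2) C),
      (∏ i, (g i).1 0 0) ^ M * evf g f = aeval (fun s : Fin b × Fin 3 => ch3 (g s.1) s.2) F) →
    F ∈ (Ideal.span (Set.range X) : Ideal (MvPolynomial (Fin b × Fin 3) (ZMod 2))) ^ N →
    ∃ f' ∈ (Ideal.span (Set.range X) : Ideal (MvPolynomial (FreeGroup (Fin b)) (ZMod 2))) ^ a,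
      ∀ (C : Type) [CommRing C] [Algebra (ZMod 2) C] (g : Fin b → SpecialLinearGroup (Fin 2) C),
        evf g f = evf g f'

end

end Pool.Agent.FrNE
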