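import Mathlib
import Pool.Agent.Lib.MP_305fdd_al.Fr.N.E.Stm2

/-!
# MP_305fdd_al, `F_r`, nilpotence block, section E: the trace functions in the chart
-/

set_option autoImplicit false

namespace Pool.Agent.FrNE

open MvPolynomial Matrix

noncomputable section

/-- a family of elements, one for every ring and every tuple, is a polynomial in the chart up to a
power of the product of the upper left entries -/
private def ChP {b : ℕ} (φ : ∀ (C : Type) [CommRing C] [Algebra (ZMod 2) C]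
    (_ : Fin b → SpecialLinearGroup (Fin 2) C), C) : Prop :=
  ∃ (M : ℕ) (F : MvPolynomial (Fin b × Fin 3) (ZMod 2)),
    ∀ (C : Type) [CommRing C] [Algebra (ZMod 2) C] (g : Fin b → SpecialLinearGroup (Fin 2) C),
      (∏ i, (g i).1 0 0) ^ M * φ C g = aeval (fun s : Fin b × Fin 3 => ch3 (g s.1) s.2) F

private def chPA (b : ℕ) : MvPolynomial (Fin b × Fin 3) (ZMod 2) :=
  ∏ i : Fin b, (1 + X (i, 0))

private lemma ch_PA {b : ℕ} (C : Type) [CommRing C] [Algebra (ZMod 2) C]
    (g : Fin b → SpecialLinearGroup (Fin 2) C) :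
    aeval (fun s : Fin b × Fin 3 => ch3 (g s.1) s.2) (chPA b) = ∏ i, (g i).1 0 0 := by
  unfold chPA
  rw [map_prod]
  refine Finset.prod_congr rfl fun i _ => ?_
  rw [map_add, map_one, aeval_X]
  simp [ch3]

private lemma ch_const {b : ℕ} (c : ZMod 2) :
    ChP (b := b) (fun C _ _ _ => algebraMap (ZMod 2) C c) := by
  refine ⟨0, MvPolynomial.C c, ?_⟩
  intro C _ _ g
  rw [pow_zero, one_mul, aeval_C]

private lemma ch_add {b : ℕ} {φ ψ : ∀ (C : Type) [CommRing C] [Algebra (ZMod 2) C]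
    (_ : Fin b → SpecialLinearGroup (Fin 2) C), C} (h1 : ChP φ) (h2 : ChP ψ) :
    ChP (fun C _ _ g => φ C g + ψ C g) := by
  obtain ⟨M1, F1, h1⟩ := h1
  obtain ⟨M2, F2, h2⟩ := h2
  refine ⟨M1 + M2, chPA b ^ M2 * F1 + chPA b ^ M1 * F2, ?_⟩
  intro C _ _ g
  rw [map_add, map_mul, map_mul, map_pow, map_pow, ch_PA, ← h1, ← h2]
  ring

private lemma ch_mul {b : ℕ} {φ ψ : ∀ (C : Type) [CommRing C] [Algebra (ZMod 2) C]
    (_ : Fin b → SpecialLinearGroup (Fin 2) C), C} (h1 : ChP φ) (h2 : ChP ψ) :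
    ChP (fun C _ _ g => φ C g * ψ C g) := by
  obtain ⟨M1, F1, h1⟩ := h1
  obtain ⟨M2, F2, h2⟩ := h2
  refine ⟨M1 + M2, F1 * F2, ?_⟩
  intro C _ _ g
  rw [map_mul, ← h1, ← h2]
  ring

private lemma ch_neg {b : ℕ} {φ : ∀ (C : Type) [CommRing C] [Algebra (ZMod 2) C]
    (_ : Fin b → SpecialLinearGroup (Fin 2) C), C} (h1 : ChP φ) :
    ChP (fun C _ _ g => - φ C g) := by
  obtain ⟨M1, F1, h1⟩ := h1
  refine ⟨M1, -F1, ?_⟩
  intro C _ _ g
  rw [map_neg, ← h1]
  ring

private lemma ch_00 {b : ℕ} (i : Fin b) : ChP (b := b) (fun _ _ _ g => (g i).1 0 0) := by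
  refine ⟨0, 1 + X (i, 0), ?_⟩
  intro C _ _ g
  rw [pow_zero, one_mul, map_add, map_one, aeval_X]
  simp [ch3]

private lemma ch_01 {b : ℕ} (i : Fin b) : ChP (b := b) (fun _ _ _ g => (g i).1 0 1) := by
  refine ⟨0, X (i, 1), ?_⟩
  intro C _ _ g
  rw [pow_zero, one_mul, aeval_X]
  simp [ch3]

private lemma ch_10 {b : ℕ} (i : Fin b) : ChP (b := b) (fun _ _ _ g => (g i).1 1 0) := by
  refine ⟨0, X (i, 2), ?_⟩
  intro C _ _ g
  rw [pow_zero, one_mul, aeval_X]
  simp [ch3]

private lemma ch_11 {b : ℕ} (i : Fin b) : ChP (b := b) (fun _ _ _ g => (g i).1 1 1) := by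
  refine ⟨1, (∏ j ∈ Finset.univ.erase i, (1 + X (j, 0))) * (1 + X (i, 1) * X (i, 2)), ?_⟩
  intro C _ _ g
  have hdet : (g i).1 0 0 * (g i).1 1 1 = 1 + (g i).1 0 1 * (g i).1 1 0 := by
    have h := (g i).2
    rw [Matrix.det_fin_two] at h
    linear_combination h
  have hp : aeval (fun s : Fin b × Fin 3 => ch3 (g s.1) s.2)
      (∏ j ∈ Finset.univ.erase i, ((1 : MvPolynomial (Fin b × Fin 3) (ZMod 2)) + X (j, 0))) =
      ∏ j ∈ Finset.univ.erase i, (g j).1 0 0 := by
    rw [map_prod]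
    refine Finset.prod_congr rfl fun j _ => ?_
    rw [map_add, map_one, aeval_X]
    simp [ch3]
  rw [pow_one, map_mul, hp, map_add, map_one, map_mul, aeval_X, aeval_X,
    ← Finset.prod_erase_mul _ _ (Finset.mem_univ i), mul_assoc, hdet]
  simp [ch3]

private lemma ch_entry {b : ℕ} (i : Fin b) (j k : Fin 2) :
    ChP (b := b) (fun _ _ _ g => (g i).1 j k) := by
  fin_cases j <;> fin_cases k
  · exact ch_00 i
  · exact ch_01 i
  · exact ch_10 i
  · exact ch_11 i

private lemma ch_congr {b : ℕ} {φ ψ : ∀ (C : Type) [CommRing C] [Algebra (ZMod 2) C]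
    (_ : Fin b → SpecialLinearGroup (Fin 2) C), C} (h1 : ChP φ)
    (h : ∀ (C : Type) [CommRing C] [Algebra (ZMod 2) C]
    (g : Fin b → SpecialLinearGroup (Fin 2) C), ψ C g = φ C g) : ChP ψ := by
  obtain ⟨M1, F1, h1⟩ := h1
  refine ⟨M1, F1, ?_⟩
  intro C _ _ g
  rw [h, h1]

private lemma ch_inv {b : ℕ} (i : Fin b) (j k : Fin 2) :
    ChP (b := b) (fun _ _ _ g => ((g i)⁻¹).1 j k) := by
  fin_cases j <;> fin_cases k
  · refine ch_congr (ch_11 i) ?_
    intro C _ _ g
    simp [Matrix.SpecialLinearGroup.coe_inv, Matrix.adjugate_fin_two]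
  · refine ch_congr (ch_neg (ch_01 i)) ?_
    intro C _ _ g
    simp [Matrix.SpecialLinearGroup.coe_inv, Matrix.adjugate_fin_two]
  · refine ch_congr (ch_neg (ch_10 i)) ?_
    intro C _ _ g
    simp [Matrix.SpecialLinearGroup.coe_inv, Matrix.adjugate_fin_two]
  · refine ch_congr (ch_00 i) ?_
    intro C _ _ g
    simp [Matrix.SpecialLinearGroup.coe_inv, Matrix.adjugate_fin_two]

private lemma ch_word {b : ℕ} (w : FreeGroup (Fin b)) :
    ∀ j k : Fin 2, ChP (b := b) (fun _ _ _ g => (FreeGroup.lift g w).1 j k) := by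
  induction w using FreeGroup.induction_on with
  | C1 =>
    intro j k
    by_cases h : j = k
    · refine ch_congr (ch_const 1) ?_
      intro C _ _ g
      rw [map_one, map_one, h]
      simp
    · refine ch_congr (ch_const 0) ?_
      intro C _ _ g
      rw [map_one, map_zero]
      simp [Matrix.one_apply_ne h]
  | of i =>
    intro j k
    refine ch_congr (ch_entry i j k) ?_
    intro C _ _ g
    simp
  | inv_of i _ =>
    intro j k
    refine ch_congr (ch_inv i j k) ?_
    intro C _ _ g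
    rw [map_inv]
    simp
  | mul x y hx hy =>
    intro j k
    refine ch_congr (ch_add (ch_mul (hx j 0) (hy 0 k)) (ch_mul (hx j 1) (hy 1 k))) ?_
    intro C _ _ g
    rw [map_mul]
    simp [Matrix.mul_apply, Fin.sum_univ_two]

theorem p_chart : S_chart := by
  intro b f
  have key : ChP (b := b) (fun _ _ _ g => evf g f) := by
    induction f using MvPolynomial.induction_on with
    | C c =>
      refine ch_congr (ch_const c) ?_
      intro C _ _ g
      simp [evf]
    | add p q hp hq =>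
      refine ch_congr (ch_add hp hq) ?_
      intro C _ _ g
      rw [map_add]
    | mul_X p w hp =>
      refine ch_congr (ch_mul hp (ch_add (ch_word w 0 0) (ch_word w 1 1))) ?_
      intro C _ _ g
      rw [map_mul]
      congr 1
      simp [evf, Matrix.trace_fin_two]
  exact key

end

end Pool.Agent.FrNE
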