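import Pool.Agent.Lib.MP_305fdd_al.Fr.N.E.Stm4

/-!
# MP_305fdd_al (`F_r`), nilpotence block, section E: [FrN E cot]
-/

set_option autoImplicit false

namespace Pool.Agent.FrNE

open Pool.Agent.FrN Pool.Agent.F2Ch Pool.Agent.F2RF
open Pool.Agent.F2 (PC)

namespace cotp

variable {Γ F : Type} [Group Γ] [Field F] [Algebra (ZMod 2) F]

/-- the matrix of an element with entries in `O` -/
def RM (ρ : Γ →* Matrix.SpecialLinearGroup (Fin 2) F) (γ : Γ) : Matrix (Fin 2) (Fin 2) (OO 2 ρ) :=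
  Matrix.of fun i j => ent 2 ρ γ i j

lemma RM_one (ρ : Γ →* Matrix.SpecialLinearGroup (Fin 2) F) : RM ρ 1 = 1 := by
  ext i j
  change (ρ 1).1 i j = (((1 : Matrix (Fin 2) (Fin 2) (OO 2 ρ)) i j : OO 2 ρ) : F)
  rw [map_one]
  change (1 : Matrix (Fin 2) (Fin 2) F) i j = _
  by_cases h : i = j
  · subst h
    rw [Matrix.one_apply_eq, Matrix.one_apply_eq]
    rfl
  · rw [Matrix.one_apply_ne h, Matrix.one_apply_ne h]
    rfl

lemma RM_mul (ρ : Γ →* Matrix.SpecialLinearGroup (Fin 2) F) (γ δ : Γ) :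
    RM ρ (γ * δ) = RM ρ γ * RM ρ δ := by
  ext i j
  rw [Matrix.mul_apply, Fin.sum_univ_two]
  change (ρ (γ * δ)).1 i j = (ρ γ).1 i 0 * (ρ δ).1 0 j + (ρ γ).1 i 1 * (ρ δ).1 1 j
  rw [map_mul]
  change ((ρ γ).1 * (ρ δ).1) i j = _
  rw [Matrix.mul_apply, Fin.sum_univ_two]

lemma RM_det (ρ : Γ →* Matrix.SpecialLinearGroup (Fin 2) F) (γ : Γ) :
    ent 2 ρ γ 0 0 * ent 2 ρ γ 1 1 - ent 2 ρ γ 0 1 * ent 2 ρ γ 1 0 = 1 := by
  apply Subtype.ext
  change (ρ γ).1 0 0 * (ρ γ).1 1 1 - (ρ γ).1 0 1 * (ρ γ).1 1 0 = 1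
  rw [← Matrix.det_fin_two, (ρ γ).2]

end cotp

open cotp in
theorem p_cot (h1 : S_bas) (h2 : S_nn) : S_cot := by
  intro b Γ K F _ _ _ _ _ _ T ρ hB g hg
  obtain ⟨hmax, hd, -, -⟩ := h2 b Γ K F T ρ hB
  obtain ⟨-, -, -, hOfg⟩ := h1 2 b Γ K F T ρ hB
  have hft : Algebra.FiniteType (ZMod 2) (OO 2 ρ) := ⟨(Subalgebra.fg_top _).2 hOfg⟩
  have hNoe : IsNoetherianRing (OO 2 ρ) := Algebra.FiniteType.isNoetherianRing (ZMod 2) _
  have hgen : ∀ (γ : Γ) (i j : Fin 2), (RM ρ γ - 1) i j ∈ nn 2 ρ :=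
    fun γ i j => Ideal.subset_span ⟨γ, i, j, rfl⟩
  have huu : ∀ s, uu 2 ρ g s ∈ nn 2 ρ := by
    rintro ⟨i, l⟩
    fin_cases l
    · exact hgen (g i) 0 0
    · have h := hgen (g i) 0 1
      rw [Matrix.sub_apply, Matrix.one_apply_ne (by decide), sub_zero] at h
      exact h
    · have h := hgen (g i) 1 0
      rw [Matrix.sub_apply, Matrix.one_apply_ne (by decide), sub_zero] at h
      exact h
  refine ⟨huu, ?_⟩
  set U : Ideal (OO 2 ρ) := Ideal.span (Set.range (uu 2 ρ g)) with hU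
  set I : Ideal (OO 2 ρ) := U ⊔ nn 2 ρ ^ 2 with hI
  have hUm : ∀ s, uu 2 ρ g s ∈ U := fun s => Ideal.subset_span ⟨s, rfl⟩
  -- the entries of `ρ (g i) - 1` are in `U`
  have hgU : ∀ (i : Fin b) (k l : Fin 2), (RM ρ (g i) - 1) k l ∈ U := by
    intro i
    have ha : (RM ρ (g i) - 1) 0 0 ∈ U := hUm (i, 0)
    have hb : (RM ρ (g i) - 1) 0 1 ∈ U := by
      rw [Matrix.sub_apply, Matrix.one_apply_ne (by decide), sub_zero]
      exact hUm (i, 1)
    have hc : (RM ρ (g i) - 1) 1 0 ∈ U := by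
      rw [Matrix.sub_apply, Matrix.one_apply_ne (by decide), sub_zero]
      exact hUm (i, 2)
    have hdd : (RM ρ (g i) - 1) 1 1 ∈ U := by
      have hdet := RM_det ρ (g i)
      have e1 : (RM ρ (g i) - 1) 1 1 = ent 2 ρ (g i) 1 1 - 1 := rfl
      have e2 : (RM ρ (g i) - 1) 0 0 = ent 2 ρ (g i) 0 0 - 1 := rfl
      have e3 : ent 2 ρ (g i) 0 1 ∈ U := hUm (i, 1)
      rw [e2] at ha
      rw [e1]
      have e4 : ent 2 ρ (g i) 1 1 - 1 = ent 2 ρ (g i) 0 1 * ent 2 ρ (g i) 1 0 -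
          (ent 2 ρ (g i) 0 0 - 1) * ent 2 ρ (g i) 1 1 := by
        linear_combination hdet
      rw [e4]
      exact U.sub_mem (U.mul_mem_right _ e3) (U.mul_mem_right _ ha)
    intro k l
    fin_cases k <;> fin_cases l
    · exact ha
    · exact hb
    · exact hc
    · exact hdd
  -- the ideal `nn` is contained in `I`
  have hle : nn 2 ρ ≤ I := by
    unfold nn
    rw [Ideal.span_le]
    rintro _ ⟨γ, i, j, rfl⟩
    change (RM ρ γ - 1) i j ∈ I
    by_contra hne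
    let c : Γ → OO 2 ρ ⧸ I := fun δ => Ideal.Quotient.mk I ((RM ρ δ - 1) i j)
    have hc1 : c 1 = 0 := by
      change Ideal.Quotient.mk I ((RM ρ 1 - 1) i j) = 0
      rw [RM_one, sub_self]
      exact map_zero _
    have hcm : ∀ α β, c (α * β) = c α + c β := by
      intro α β
      change Ideal.Quotient.mk I ((RM ρ (α * β) - 1) i j) =
        Ideal.Quotient.mk I ((RM ρ α - 1) i j) + Ideal.Quotient.mk I ((RM ρ β - 1) i j)
      rw [← map_add, Ideal.Quotient.eq]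
      have e1 : RM ρ (α * β) - 1 = ((RM ρ α - 1) + (RM ρ β - 1)) + (RM ρ α - 1) * (RM ρ β - 1) := by
        rw [RM_mul]
        noncomm_ring
      have e2 : (RM ρ (α * β) - 1) i j - ((RM ρ α - 1) i j + (RM ρ β - 1) i j) =
          ((RM ρ α - 1) * (RM ρ β - 1)) i j := by
        rw [e1, Matrix.add_apply, Matrix.add_apply]
        ring
      rw [e2, Matrix.mul_apply]
      refine Ideal.sum_mem _ fun k _ => ?_
      apply Ideal.mem_sup_right
      rw [pow_two]
      exact Ideal.mul_mem_mul (hgen α i k) (hgen β k j)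
    have hcγ : c γ ≠ 0 := by
      intro h
      exact hne (Ideal.Quotient.eq_zero_iff_mem.1 h)
    have hex : ∃ ℓ : Module.Dual (ZMod 2) (OO 2 ρ ⧸ I), ℓ (c γ) ≠ 0 := by
      by_contra h
      push Not at h
      exact hcγ ((Module.forall_dual_apply_eq_zero_iff (ZMod 2) (c γ)).1 h)
    obtain ⟨ℓ, hℓ⟩ := hex
    let χ : Γ →* Multiplicative (ZMod 2) :=
      { toFun := fun δ => Multiplicative.ofAdd (ℓ (c δ))
        map_one' := by
          rw [hc1, map_zero]
          rfl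
        map_mul' := fun α β => by
          rw [hcm, map_add]
          rfl }
    have hχ : χ = 1 := by
      apply hg
      intro k
      have hk : c (g k) = 0 := Ideal.Quotient.eq_zero_iff_mem.2 (Ideal.mem_sup_left (hgU k i j))
      change Multiplicative.ofAdd (ℓ (c (g k))) = 1
      rw [hk, map_zero]
      rfl
    apply hℓ
    have h5 : Multiplicative.ofAdd (ℓ (c γ)) = 1 := DFunLike.congr_fun hχ γ
    exact Multiplicative.ofAdd.injective (h5.trans ofAdd_zero.symm)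
  -- Nakayama
  have hN := Submodule.exists_sub_one_mem_and_smul_eq_zero_of_fg_of_le_smul (nn 2 ρ)
    (Submodule.map (Submodule.mkQ U) (nn 2 ρ))
    (Submodule.FG.map _ (IsNoetherian.noetherian (nn 2 ρ))) (by
      rintro _ ⟨z, hz, rfl⟩
      have hz' := hle hz
      rw [hI, Submodule.mem_sup] at hz'
      obtain ⟨u, hu, v, hv, rfl⟩ := hz'
      have hu0 : Submodule.mkQ U u = 0 := by
        rw [Submodule.mkQ_apply, Submodule.Quotient.mk_eq_zero]
        exact hu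
      rw [map_add, hu0, zero_add]
      have hv' : v ∈ (nn 2 ρ) • (nn 2 ρ : Submodule (OO 2 ρ) (OO 2 ρ)) := by
        rw [pow_two] at hv
        exact hv
      have h6 := Submodule.mem_map_of_mem (f := Submodule.mkQ U) hv'
      rw [Submodule.map_smul''] at h6
      exact h6)
  obtain ⟨r, hr1, hr2⟩ := hN
  refine ⟨r, ?_, ?_⟩
  · intro hr
    apply hmax.ne_top
    rw [Ideal.eq_top_iff_one]
    have h3 := (nn 2 ρ).sub_mem hr hr1
    have h4 : r - (r - 1) = 1 := by ring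
    rw [h4] at h3
    exact h3
  · intro z hz
    have h3 := hr2 (Submodule.mkQ U z) ⟨z, hz, rfl⟩
    rw [← map_smul, Submodule.mkQ_apply, Submodule.Quotient.mk_eq_zero, smul_eq_mul] at h3
    exact h3

end Pool.Agent.FrNE
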