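import Pool.Agent.Lib.MP_305fdd_al.Fr.N.E.Stm3

set_option autoImplicit false

namespace Pool.Agent.FrNE

open Pool.Agent.FrN Pool.Agent.F2Ch

private theorem den_fin {p : ℕ} [Fact p.Prime] {K : Type} [Field K] [Algebra (ZMod p) K]
    (B : Subalgebra (ZMod p) K) (hB : Frc B) (s : Finset K) :
    ∃ b ∈ B, b ≠ 0 ∧ ∀ x ∈ s, b * x ∈ B := by
  classical
  induction s using Finset.induction_on with
  | empty => exact ⟨1, B.one_mem, one_ne_zero, by simp⟩
  | insert x s hx ih =>
    obtain ⟨b, hb, hb0, h⟩ := ih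
    obtain ⟨a, ha, d, hd, hd0, hxd⟩ := hB x
    refine ⟨b * d, B.mul_mem hb hd, mul_ne_zero hb0 hd0, ?_⟩
    intro y hy
    rcases Finset.mem_insert.1 hy with h1 | h1
    · rw [h1]
      have : b * d * x = b * a := by rw [← hxd]; ring
      rw [this]
      exact B.mul_mem hb ha
    · have : b * d * y = d * (b * y) := by ring
      rw [this]
      exact B.mul_mem hd (h y h1)

private theorem den_fg {p : ℕ} [Fact p.Prime] {K : Type} [Field K] [Algebra (ZMod p) K]
    (B : Subalgebra (ZMod p) K) (hB : Frc B) (M : Submodule B K) (hM : M.FG) :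
    ∃ b ∈ B, b ≠ 0 ∧ ∀ x ∈ M, b * x ∈ B := by
  obtain ⟨s, rfl⟩ := hM
  obtain ⟨b, hb, hb0, h⟩ := den_fin B hB s
  refine ⟨b, hb, hb0, ?_⟩
  intro x hx
  induction hx using Submodule.span_induction with
  | mem x hx => exact h x hx
  | zero => rw [mul_zero]; exact B.zero_mem
  | add x y _ _ hx hy => rw [mul_add]; exact B.add_mem hx hy
  | smul c x _ hx =>
    have : b * (c • x) = (c : K) * (b * x) := by
      rw [Subalgebra.smul_def, smul_eq_mul]; ring
    rw [this]
    exact B.mul_mem c.2 hx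

theorem p_den : S_den := by
  intro p _ K₀ K _ _ _ _ j A B hA hB hAB halg M₀ M hM₀ hM
  obtain ⟨e₀, he₀, he₀0, hM₀'⟩ := den_fg A hA M₀ hM₀
  obtain ⟨b, hb, hb0, hM'⟩ := den_fg B hB M hM
  obtain ⟨P, hP0, hP⟩ : ∃ P : Polynomial K₀, P.coeff 0 ≠ 0 ∧ Polynomial.eval₂ j b P = 0 := by
    obtain ⟨P, hP, hPb⟩ := halg b
    obtain ⟨Q, hQ, hQ'⟩ := Polynomial.exists_eq_pow_rootMultiplicity_mul_and_not_dvd P hP 0
    refine ⟨Q, ?_, ?_⟩
    · rw [Polynomial.C_0, sub_zero, Polynomial.X_dvd_iff] at hQ'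
      exact hQ'
    · rw [hQ, Polynomial.eval₂_mul, Polynomial.eval₂_pow, Polynomial.C_0, sub_zero,
        Polynomial.eval₂_X] at hPb
      rcases mul_eq_zero.1 hPb with h | h
      · exact absurd h (pow_ne_zero _ hb0)
      · exact h
  classical
  obtain ⟨d, hd, hd0, hdc⟩ := den_fin A hA ((Finset.range (P.natDegree + 1)).image P.coeff)
  have hdc' : ∀ i, d * P.coeff i ∈ A := by
    intro i
    by_cases hi : i < P.natDegree + 1
    · exact hdc _ (Finset.mem_image.2 ⟨i, Finset.mem_range.2 hi, rfl⟩)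
    · rw [Polynomial.coeff_eq_zero_of_natDegree_lt (by omega), mul_zero]
      exact A.zero_mem
  set b' : K := - ∑ i ∈ Finset.range P.natDegree, j (d * P.coeff (i + 1)) * b ^ i with hb'
  have hb'B : b' ∈ B := by
    refine B.neg_mem (B.sum_mem ?_)
    intro i _
    exact B.mul_mem (hAB _ (hdc' _)) (B.pow_mem hb i)
  have hkey : j (d * P.coeff 0) = b' * b := by
    rw [Polynomial.eval₂_eq_sum_range, Finset.sum_range_succ', pow_zero, mul_one] at hP
    have h1 : j (P.coeff 0) = - ∑ i ∈ Finset.range P.natDegree, j (P.coeff (i + 1)) * b ^ (i + 1) := by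
      linear_combination hP
    rw [map_mul, h1, hb', mul_neg, neg_mul, Finset.mul_sum, Finset.sum_mul]
    congr 1
    refine Finset.sum_congr rfl ?_
    intro i _
    rw [map_mul, pow_succ]
    ring
  refine ⟨⟨e₀ * (d * P.coeff 0), A.mul_mem he₀ (hdc' 0)⟩, ?_, ?_, ?_⟩
  · intro h
    have h1 : e₀ * (d * P.coeff 0) = 0 := congrArg Subtype.val h
    exact mul_ne_zero he₀0 (mul_ne_zero hd0 hP0) h1
  · intro x hx
    have : ((⟨e₀ * (d * P.coeff 0), A.mul_mem he₀ (hdc' 0)⟩ : A) : K₀) * x =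
        (d * P.coeff 0) * (e₀ * x) := by
      show e₀ * (d * P.coeff 0) * x = _
      ring
    rw [this]
    exact A.mul_mem (hdc' 0) (hM₀' x hx)
  · intro x hx
    have : j ((⟨e₀ * (d * P.coeff 0), A.mul_mem he₀ (hdc' 0)⟩ : A) : K₀) * x =
        j e₀ * (b' * (b * x)) := by
      show j (e₀ * (d * P.coeff 0)) * x = _
      rw [map_mul, hkey]
      ring
    rw [this]
    exact B.mul_mem (hAB _ he₀) (B.mul_mem hb'B (hM' x hx))

end Pool.Agent.FrNE
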