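import Pool.Agent.Lib.MP_305fdd_al.Fr.N.E.Stm1

/-! [FrN E e1] approximation of all elements by words in the `g i`. -/

set_option autoImplicit false

namespace Pool.Agent.FrNE

open Pool.Agent.F2 (PC)

theorem p_e1 (h1 : S_bur) (h2 : S_fq) : S_e1 := by
  intro Γ _ _ B _ _ T hT hgen b g hg a
  obtain ⟨_, Q, iQ, hQf, π, τ, hp, hsurj, hτ⟩ := h2 Γ B T hT hgen a
  have hclos : Subgroup.closure (Set.range fun i => π (g i)) = ⊤ := by
    refine h1 Q hp (Fin b) (fun i => π (g i)) ?_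
    intro χ hχ
    have h3 : χ.comp π = 1 := hg (χ.comp π) (fun i => hχ i)
    ext q
    obtain ⟨γ, rfl⟩ := hsurj q
    have := DFunLike.congr_fun h3 γ
    simpa using this
  have hword : ∀ γ, ∃ w : FreeGroup (Fin b), π γ = π (FreeGroup.lift g w) := by
    intro γ
    have hmem : π γ ∈ Subgroup.closure (Set.range fun i => π (g i)) := by
      rw [hclos]; exact Subgroup.mem_top _
    rw [← FreeGroup.range_lift_eq_closure] at hmem
    obtain ⟨w, hw⟩ := hmem
    refine ⟨w, ?_⟩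
    rw [← hw]
    have : (FreeGroup.lift fun i => π (g i)) = π.comp (FreeGroup.lift g) := by
      ext i
      simp
    rw [this]
    rfl
  have hfst : ∀ γ, ∃ w : FreeGroup (Fin b),
      T γ - T (FreeGroup.lift g w) ∈ (Ideal.span (Set.range T)) ^ a := by
    intro γ
    obtain ⟨w, hw⟩ := hword γ
    refine ⟨w, ?_⟩
    rw [← Ideal.Quotient.eq, hτ, hτ, hw]
  refine ⟨hfst, ?_⟩
  intro x
  have hx : x ∈ Algebra.adjoin (ZMod 2) (Set.range T) := by
    rw [hgen]; exact Algebra.mem_top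
  induction hx using Algebra.adjoin_induction with
  | mem x hx =>
    obtain ⟨γ, rfl⟩ := hx
    obtain ⟨w, hw⟩ := hfst γ
    exact ⟨_, Algebra.subset_adjoin ⟨w, rfl⟩, hw⟩
  | algebraMap r =>
    exact ⟨_, Subalgebra.algebraMap_mem _ r, by simp⟩
  | add x y _ _ hx hy =>
    obtain ⟨x', hx1, hx2⟩ := hx
    obtain ⟨y', hy1, hy2⟩ := hy
    refine ⟨x' + y', Subalgebra.add_mem _ hx1 hy1, ?_⟩
    have : x + y - (x' + y') = (x - x') + (y - y') := by ring
    rw [this]
    exact Ideal.add_mem _ hx2 hy2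
  | mul x y _ _ hx hy =>
    obtain ⟨x', hx1, hx2⟩ := hx
    obtain ⟨y', hy1, hy2⟩ := hy
    refine ⟨x' * y', Subalgebra.mul_mem _ hx1 hy1, ?_⟩
    have : x * y - x' * y' = x * (y - y') + y' * (x - x') := by ring
    rw [this]
    exact Ideal.add_mem _ (Ideal.mul_mem_left _ _ hy2) (Ideal.mul_mem_left _ _ hx2)

end Pool.Agent.FrNE
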