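import Pool.Agent.Lib.MP_305fdd_al.Fr.N.E.Stm4

/-! [FrN E e1f] approximation of elements of `B` by elements of `A`. -/

set_option autoImplicit false

namespace Pool.Agent.FrNE

open Pool.Agent.FrN Pool.Agent.F2Ch Pool.Agent.F2RF
open Pool.Agent.F2 (PC)

theorem p_e1f (h1 : S_e1) (h2 : S_bas) : S_e1f := by
  intro b Γ K F _ _ _ _ _ _ T ρ hHB g hg n y
  obtain ⟨hPC, hgen, -, -⟩ := h2 2 b Γ K F T ρ hHB
  haveI : Group.FG Γ := hHB.fg
  obtain ⟨-, h3⟩ := h1 Γ (BB 2 T) (bT 2 T) hPC hgen b g hg n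
  obtain ⟨y', hy', hyy⟩ := h3 y
  have hA : ∀ z : BB 2 T,
      z ∈ Algebra.adjoin (ZMod 2) (Set.range fun w => bT 2 T (FreeGroup.lift g w)) →
      (z : K) ∈ BB 2 fun w => T (FreeGroup.lift g w) := by
    intro z hz
    induction hz using Algebra.adjoin_induction with
    | mem x hx =>
      obtain ⟨w, rfl⟩ := hx
      exact Algebra.subset_adjoin ⟨w, rfl⟩
    | algebraMap r => exact Subalgebra.algebraMap_mem _ r
    | add x y _ _ hx hy => exact Subalgebra.add_mem _ hx hy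
    | mul x y _ _ hx hy => exact Subalgebra.mul_mem _ hx hy
  exact ⟨⟨(y' : K), hA y' hy'⟩, y', rfl, hyy⟩

end Pool.Agent.FrNE
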