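import Pool.Agent.Lib.MP_305fdd_al.Fr.N.E.Stm4

/-!
# MP_305fdd_al (`F_r`), nilpotence block, section E, `[FrN E e2f]`

Elements of `A` of high order at the trivial point of `B`.
-/

set_option autoImplicit false

namespace Pool.Agent.FrNE

open Pool.Agent.FrN Pool.Agent.F2Ch Pool.Agent.F2RF
open MvPolynomial Matrix

noncomputable section

/-- the algebra map as a homomorphism of algebras over `ZMod 2` -/
def aKF (K F : Type) [Field K] [Field F] [Algebra (ZMod 2) K] [Algebra (ZMod 2) F]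
    [Algebra K F] : K →ₐ[ZMod 2] F :=
  { algebraMap K F with
    commutes' := fun c => by
      change ((algebraMap K F).comp (algebraMap (ZMod 2) K)) c = algebraMap (ZMod 2) F c
      exact congrArg (fun f : ZMod 2 →+* F => f c) (Subsingleton.elim _ _) }

theorem aKF_apply (K F : Type) [Field K] [Field F] [Algebra (ZMod 2) K] [Algebra (ZMod 2) F]
    [Algebra K F] (x : K) : aKF K F x = algebraMap K F x := rfl

/-- naturality of `FreeGroup.lift` -/
theorem map_lift_hom {G H : Type} [Group G] [Group H] {b : ℕ} (φ : G →* H) (g : Fin b → G)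
    (w : FreeGroup (Fin b)) :
    φ (FreeGroup.lift g w) = FreeGroup.lift (fun i => φ (g i)) w := by
  have h : φ.comp (FreeGroup.lift g) = FreeGroup.lift (fun i => φ (g i)) := by
    apply FreeGroup.ext_hom
    intro i
    simp
  exact congrArg (fun f : FreeGroup (Fin b) →* H => f w) h

/-- naturality of `evf` -/
theorem evf_map {b : ℕ} {C D : Type} [CommRing C] [Algebra (ZMod 2) C] [CommRing D]
    [Algebra (ZMod 2) D] (φ : C →ₐ[ZMod 2] D) (g : Fin b → SpecialLinearGroup (Fin 2) C)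
    (f : MvPolynomial (FreeGroup (Fin b)) (ZMod 2)) :
    φ (evf g f) = evf (fun i => SpecialLinearGroup.map (φ : C →+* D) (g i)) f := by
  have h : φ.comp (evf g) = evf (fun i => SpecialLinearGroup.map (φ : C →+* D) (g i)) := by
    apply MvPolynomial.algHom_ext
    intro w
    unfold evf
    rw [AlgHom.comp_apply, aeval_X, aeval_X, ← map_lift_hom]
    rw [Matrix.trace_fin_two, Matrix.trace_fin_two, map_add]
    rfl
  exact congrArg (fun ψ : MvPolynomial (FreeGroup (Fin b)) (ZMod 2) →ₐ[ZMod 2] D => ψ f) h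

section

variable {Γ F : Type} [Group Γ] [Field F] [Algebra (ZMod 2) F]

/-- `ρ γ` with its entries in `O` -/
def rhO (ρ : Γ →* SpecialLinearGroup (Fin 2) F) (γ : Γ) : SpecialLinearGroup (Fin 2) (OO 2 ρ) :=
  ⟨Matrix.of fun i j => ent 2 ρ γ i j, by
    apply Subtype.ext
    have h := (ρ γ).2
    rw [Matrix.det_fin_two] at h ⊢
    exact h⟩

theorem map_rhO (ρ : Γ →* SpecialLinearGroup (Fin 2) F) (γ : Γ) :
    SpecialLinearGroup.map (((OO 2 ρ).val : OO 2 ρ →ₐ[ZMod 2] F) : OO 2 ρ →+* F) (rhO ρ γ)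
      = ρ γ := by
  apply Subtype.ext
  ext i j
  rfl

end

/-- values of polynomials in trace symbols at a representation -/
theorem evf_rep {Γ K F : Type} [Group Γ] [Field K] [Field F]
    [Algebra (ZMod 2) K] [Algebra (ZMod 2) F] [Algebra K F] (T : Γ → K)
    (ρ : Γ →* SpecialLinearGroup (Fin 2) F) (hT : ∀ g, (ρ g).1.trace = algebraMap K F (T g))
    {b : ℕ} (g : Fin b → Γ) (f : MvPolynomial (FreeGroup (Fin b)) (ZMod 2)) :
    evf (fun i => ρ (g i)) f =
      algebraMap K F (aeval (fun w => T (FreeGroup.lift g w)) f) := by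
  have h : (evf (fun i => ρ (g i)) : MvPolynomial (FreeGroup (Fin b)) (ZMod 2) →ₐ[ZMod 2] F) =
      (aKF K F).comp (aeval (fun w => T (FreeGroup.lift g w))) := by
    apply MvPolynomial.algHom_ext
    intro w
    unfold evf
    rw [AlgHom.comp_apply, aeval_X, aeval_X, aKF_apply, ← hT, map_lift_hom ρ g w]
  exact congrArg (fun ψ : MvPolynomial (FreeGroup (Fin b)) (ZMod 2) →ₐ[ZMod 2] F => ψ f) h

theorem p_e2f (h1 : S_chart) (h2 : S_e2) (h3 : S_nn) (h4 : S_par) : S_e2f := by
  intro b Γ K F _ _ _ _ _ _ T ρ hH g hg a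
  obtain ⟨N₁, hN₁⟩ := h2 b a
  obtain ⟨N, hN⟩ := h4 b Γ K F T ρ hH g hg N₁
  refine ⟨N, fun x y hxy hy => ?_⟩
  obtain ⟨f, hf⟩ : ∃ f : MvPolynomial (FreeGroup (Fin b)) (ZMod 2),
      aeval (fun w => T (FreeGroup.lift g w)) f = (x : K) := by
    have hx : (x : K) ∈ Algebra.adjoin (ZMod 2) (Set.range fun w => T (FreeGroup.lift g w)) := x.2
    rw [Algebra.adjoin_range_eq_range_aeval] at hx
    exact hx
  obtain ⟨M, P, hP⟩ := h1 b f
  obtain ⟨z, hz1, hz2⟩ := (h3 b Γ K F T ρ hH).2.2.2 N y hy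
  have h5 : evf (fun i => rhO ρ (g i)) f = z := by
    apply Subtype.ext
    rw [hz1, hxy, ← hf, ← evf_rep T ρ hH.tr g f]
    have h6 := evf_map ((OO 2 ρ).val) (fun i => rhO ρ (g i)) f
    have h7 : (fun i => SpecialLinearGroup.map
        (((OO 2 ρ).val : OO 2 ρ →ₐ[ZMod 2] F) : OO 2 ρ →+* F) (rhO ρ (g i))) =
        fun i => ρ (g i) := funext fun i => map_rhO ρ (g i)
    rw [h7] at h6
    exact h6
  have h6 : aeval (uu 2 ρ g) P ∈ nn 2 ρ ^ N := by
    have h7 := hP (OO 2 ρ) (fun i => rhO ρ (g i))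
    have h8 : (fun s : Fin b × Fin 3 => ch3 (rhO ρ (g s.1)) s.2) = uu 2 ρ g := rfl
    rw [h8, h5] at h7
    rw [← h7]
    exact Ideal.mul_mem_left _ _ hz2
  obtain ⟨f', hf'1, hf'2⟩ := hN₁ f M P hP (hN P h6)
  have h9 : x = aeval (bT 2 fun w => T (FreeGroup.lift g w)) f' := by
    apply Subtype.ext
    apply (algebraMap K F).injective
    have h10 : ((aeval (bT 2 fun w => T (FreeGroup.lift g w)) f' :
        BB 2 fun w => T (FreeGroup.lift g w)) : K) =
        aeval (fun w => T (FreeGroup.lift g w)) f' := by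
      have h11 : (BB 2 fun w => T (FreeGroup.lift g w)).val.comp
          (aeval (bT 2 fun w => T (FreeGroup.lift g w))) =
          aeval (fun w => T (FreeGroup.lift g w)) := by
        apply MvPolynomial.algHom_ext
        intro w
        rw [AlgHom.comp_apply, aeval_X, aeval_X]
        rfl
      exact congrArg (fun ψ : MvPolynomial (FreeGroup (Fin b)) (ZMod 2) →ₐ[ZMod 2] K => ψ f') h11
    rw [h10, ← hf, ← evf_rep T ρ hH.tr g f, ← evf_rep T ρ hH.tr g f']
    exact hf'2 F _
  rw [h9]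
  have h12 : Ideal.map (aeval (bT 2 fun w => T (FreeGroup.lift g w)))
      (Ideal.span (Set.range X) : Ideal (MvPolynomial (FreeGroup (Fin b)) (ZMod 2))) ≤
      Ideal.span (Set.range (bT 2 fun w => T (FreeGroup.lift g w))) := by
    rw [Ideal.map_span, Ideal.span_le]
    rintro _ ⟨_, ⟨w, rfl⟩, rfl⟩
    rw [aeval_X]
    exact Ideal.subset_span ⟨w, rfl⟩
  have h13 := Ideal.mem_map_of_mem (aeval (bT 2 fun w => T (FreeGroup.lift g w))) hf'1
  rw [Ideal.map_pow] at h13
  exact Ideal.pow_right_mono h12 a h13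

end

end Pool.Agent.FrNE
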