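import Pool.Agent.Lib.MP_305fdd_al.Fr.N.E.Stm4

/-!
# MP_305fdd_al (`F_r`), nilpotence block, section E: piece e3
-/

set_option autoImplicit false

namespace Pool.Agent.FrNE

open Pool.Agent.FrN Pool.Agent.F2Ch Pool.Agent.F2RF
open Pool.Agent.F2 (PC)

theorem p_e3 (h1 : S_bas) (h2 : S_nn) (h3 : S_e1f) (h4 : S_k2) (h5 : S_hch) : S_e3 := by
  intro b Γ K F _ _ _ _ _ _ T ρ hB g hg
  constructor
  · have hAB : (BB 2 fun w => T (FreeGroup.lift g w)) ≤ BB 2 T := by
      refine Algebra.adjoin_le ?_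
      rintro _ ⟨w, rfl⟩
      exact Algebra.subset_adjoin ⟨_, rfl⟩
    refine h4 2 K (BB 2 fun w => T (FreeGroup.lift g w)) (BB 2 T) (h1 2 b Γ K F T ρ hB).2.2.1
      hB.fracK hAB (Ideal.span (Set.range (bT 2 T))) (h2 b Γ K F T ρ hB).2.2.1.ne_top ?_
    intro l y
    obtain ⟨x, y', hx, hy⟩ := h3 b Γ K F T ρ hB g hg l y
    exact ⟨y', by rw [hx]; exact x.2, hy⟩
  · intro x
    obtain ⟨r, -, π, hc⟩ := h5 b Γ K F T ρ hB g hg
    let e := Fintype.equivFin (Fin (b * 3) → Fin 2)
    refine ⟨_, fun i => π (e.symm i) x,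
      fun i => monY (p := 2) (fun i => (uu 2 ρ g (finProdFinEquiv.symm i) : F)) (e.symm i), ?_, ?_⟩
    · intro i
      unfold monY
      refine Subalgebra.prod_mem _ fun j _ => Subalgebra.pow_mem _ ?_ _
      have hent : ∀ (s : Fin b) (k l : Fin 2),
          (ρ (g s)).1 k l ∈ OO 2 (ρ.comp (FreeGroup.lift g)) := by
        intro s k l
        have h6 := mem_OO (p := 2) (ρ.comp (FreeGroup.lift g)) (FreeGroup.of s) k l
        rw [MonoidHom.comp_apply, FreeGroup.lift_apply_of] at h6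
        exact h6
      show (uu 2 ρ g (finProdFinEquiv.symm j) : F) ∈ _
      generalize finProdFinEquiv.symm j = t
      obtain ⟨s, c⟩ := t
      fin_cases c
      · exact Subalgebra.sub_mem _ (hent s 0 0) (Subalgebra.one_mem _)
      · exact hent s 0 1
      · exact hent s 1 0
    · rw [← Equiv.sum_comp e]
      simp only [Equiv.symm_apply_apply]
      exact (hc.mb.pb.repr x).symm

end Pool.Agent.FrNE
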