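import Pool.Agent.Lib.MP_305fdd_al.Fr.N.E.Stm1
import Pool.Agent.Lib.MP_305fdd_al.F2.GB.br
import Pool.Agent.Lib.MP_305fdd_al.CC.PCharFin
import Pool.Agent.Lib.MP_305fdd_al.CC.PChar

/-!
# MP_305fdd_al (`F_r`), nilpotence block, section E: [FrN E fq]
-/

set_option autoImplicit false

namespace Pool.Agent.FrNE

open Pool.Agent.F2 (PC)

namespace fq

variable {Γ : Type} [Group Γ] {B : Type} [CommRing B] [Algebra (ZMod 2) B] {T : Γ → B}

lemma two_eq (B : Type) [CommRing B] [Algebra (ZMod 2) B] : (2 : B) = 0 := by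
  have h : (algebraMap (ZMod 2) B) 2 = 0 := by
    rw [show (2 : ZMod 2) = 0 from rfl, map_zero]
  rwa [map_ofNat] at h

lemma dbl (hT : PC T) (γ δ : Γ) :
    T (γ * γ * δ) = T γ * T (γ * δ) - T δ := by
  have h := hT.rel (γ * δ) γ
  have e1 : T (γ * δ * γ) = T (γ * γ * δ) := by
    rw [hT.comm (γ * δ) γ, mul_assoc]
  have e2 : T (γ * δ * γ⁻¹) = T δ := by
    rw [hT.comm (γ * δ) γ⁻¹, inv_mul_cancel_left]
  rw [e1, e2] at h
  linear_combination h

lemma sq (hT : PC T) (γ : Γ) : T (γ * γ) = T γ ^ 2 := by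
  have h := dbl hT γ 1
  rw [mul_one, mul_one, hT.one, two_eq B, sub_zero] at h
  rw [h, pow_two]

lemma pow2 (hT : PC T) (γ : Γ) : ∀ k : ℕ, T (γ ^ 2 ^ k) = T γ ^ 2 ^ k
  | 0 => by simp
  | k + 1 => by
    have e : γ ^ 2 ^ (k + 1) = γ ^ 2 ^ k * γ ^ 2 ^ k := by
      rw [← pow_add, pow_succ, mul_two]
    rw [e, sq hT, pow2 hT γ k, ← pow_mul, pow_succ]

lemma diff (hT : PC T) (γ δ : Γ) (k : ℕ) :
    T (γ ^ 2 ^ (k + 1) * δ) - T δ = T γ ^ 2 ^ k * T (γ ^ 2 ^ k * δ) := by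
  have e : γ ^ 2 ^ (k + 1) = γ ^ 2 ^ k * γ ^ 2 ^ k := by
    rw [← pow_add, pow_succ, mul_two]
  rw [e, dbl hT, pow2 hT]
  have h2 : (2 : B) * T δ = 0 := by rw [two_eq B, zero_mul]
  linear_combination -h2

/-- `B ⧸ 𝔪` is finite -/
lemma fin_one (hadj : Algebra.adjoin (ZMod 2) (Set.range T) = ⊤) :
    Finite (B ⧸ Ideal.span (Set.range T)) := by
  set m : Ideal B := Ideal.span (Set.range T) with hm
  have hsurj : Function.Surjective (algebraMap (ZMod 2) (B ⧸ m)) := by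
    have key : ∀ x ∈ Algebra.adjoin (ZMod 2) (Set.range T),
        Ideal.Quotient.mkₐ (ZMod 2) m x ∈ (⊥ : Subalgebra (ZMod 2) (B ⧸ m)) := by
      intro x hx
      have h1 : Algebra.adjoin (ZMod 2) (Set.range T) ≤
          (⊥ : Subalgebra (ZMod 2) (B ⧸ m)).comap (Ideal.Quotient.mkₐ (ZMod 2) m) := by
        rw [Algebra.adjoin_le_iff]
        rintro _ ⟨γ, rfl⟩
        show Ideal.Quotient.mkₐ (ZMod 2) m (T γ) ∈ (⊥ : Subalgebra (ZMod 2) (B ⧸ m))
        have : Ideal.Quotient.mkₐ (ZMod 2) m (T γ) = 0 := by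
          rw [Ideal.Quotient.mkₐ_eq_mk]
          exact Ideal.Quotient.eq_zero_iff_mem.mpr (Ideal.subset_span ⟨γ, rfl⟩)
        rw [this]
        exact Subalgebra.zero_mem _
      exact h1 hx
    intro y
    obtain ⟨x, rfl⟩ := Ideal.Quotient.mk_surjective y
    have hx : x ∈ Algebra.adjoin (ZMod 2) (Set.range T) := by rw [hadj]; exact Algebra.mem_top
    have := key x hx
    rw [Algebra.mem_bot] at this
    obtain ⟨c, hc⟩ := this
    exact ⟨c, by rw [hc, Ideal.Quotient.mkₐ_eq_mk]⟩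
  exact Finite.of_surjective _ hsurj

end fq

open fq in
theorem p_fq : S_fq := by
  intro Γ _ _ B _ _ T hT hadj a
  classical
  have hP : CC.PChar (F := ZMod 2) (1 : Γ →* (ZMod 2)ˣ) T :=
    ((F2.p_br (ZMod 2) Γ B T).1.mp hT)
  have hfg : (⊤ : Subalgebra (ZMod 2) B).FG := by
    have := hP.fg
    rwa [hadj] at this
  haveI : Algebra.FiniteType (ZMod 2) B := ⟨hfg⟩
  haveI : IsNoetherianRing B := Algebra.FiniteType.isNoetherianRing (ZMod 2) B
  set m : Ideal B := Ideal.span (Set.range T) with hm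
  haveI : Finite (B ⧸ m) := fin_one hadj
  haveI hfin : Finite (B ⧸ m ^ a) := Ideal.finite_quotient_pow (IsNoetherian.noetherian m) a
  refine ⟨hfin, ?_⟩
  set T' : Γ → B ⧸ m ^ a := fun γ => Ideal.Quotient.mk (m ^ a) (T γ) with hT'
  have hPC' : PC T' := by
    refine ⟨?_, fun g h => ?_, fun g h => ?_⟩
    · show Ideal.Quotient.mk (m ^ a) (T 1) = 2
      rw [hT.one, map_ofNat]
    · show Ideal.Quotient.mk (m ^ a) _ = Ideal.Quotient.mk (m ^ a) _
      rw [hT.comm]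
    · show Ideal.Quotient.mk (m ^ a) _ + Ideal.Quotient.mk (m ^ a) _ =
        Ideal.Quotient.mk (m ^ a) _ * Ideal.Quotient.mk (m ^ a) _
      rw [← map_add, hT.rel, map_mul]
  have hP' : CC.PChar (F := ZMod 2) (1 : Γ →* (ZMod 2)ˣ) T' :=
    ((F2.p_br (ZMod 2) Γ (B ⧸ m ^ a) T').1.mp hPC')
  obtain ⟨Q0, _, _, π0, τ0, h0⟩ := hP'.factor
  set N : Subgroup Γ := hP'.ker with hN
  have hNmem : ∀ g, g ∈ N ↔ ∀ k, T' (g * k) = T' k := fun g => Iff.rfl
  haveI hnorm : N.Normal := by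
    constructor
    intro n hn g k
    show T' (g * n * g⁻¹ * k) = T' k
    have e1 : T' (g * n * g⁻¹ * k) = T' (n * (g⁻¹ * k * g)) := by
      have : g * n * g⁻¹ * k = g * (n * g⁻¹ * k) := by group
      rw [this, hPC'.comm]
      congr 1; group
    rw [e1, hn, hPC'.comm, ← mul_assoc, mul_inv_cancel, one_mul]
  have hle : π0.ker ≤ N := by
    intro g hg k
    rw [MonoidHom.mem_ker] at hg
    show T' (g * k) = T' k
    rw [h0, h0, map_mul, hg, one_mul]
  haveI : Finite (Γ ⧸ π0.ker) :=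
    Finite.of_injective _ (QuotientGroup.kerLift_injective π0)
  haveI : π0.ker.FiniteIndex := Subgroup.finiteIndex_of_finite_quotient
  haveI : N.FiniteIndex := Subgroup.finiteIndex_of_le hle
  haveI : Finite (Γ ⧸ N) := Subgroup.finite_quotient_of_finiteIndex
  refine ⟨Γ ⧸ N, inferInstance, inferInstance, QuotientGroup.mk' N, fun q => T' q.out, ?_,
    QuotientGroup.mk'_surjective N, ?_⟩
  · intro q
    obtain ⟨γ, rfl⟩ := QuotientGroup.mk'_surjective N q
    refine ⟨a + 1, ?_⟩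
    rw [← map_pow]
    rw [QuotientGroup.mk'_apply, QuotientGroup.eq_one_iff]
    intro k
    show Ideal.Quotient.mk (m ^ a) (T (γ ^ 2 ^ (a + 1) * k)) = Ideal.Quotient.mk (m ^ a) (T k)
    rw [Ideal.Quotient.eq, diff hT]
    apply Ideal.mul_mem_right
    have h1 : T γ ∈ m := Ideal.subset_span ⟨γ, rfl⟩
    exact Ideal.pow_le_pow_right (Nat.lt_two_pow_self).le (Ideal.pow_mem_pow h1 _)
  · intro g
    obtain ⟨n, hn⟩ := QuotientGroup.mk_out_eq_mul N g
    show T' g = T' (Quotient.out _)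
    have e : (QuotientGroup.mk' N g) = (g : Γ ⧸ N) := rfl
    rw [e, hn, hPC'.comm, (hNmem _).mp n.2]

end Pool.Agent.FrNE
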