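import Pool.Agent.Lib.MP_305fdd_al.Fr.N.E.Stm4
import Pool.Agent.Lib.MP_305fdd_al.Fr.N.J_pbex

/-!
# MP_305fdd_al (`F_r`), nilpotence block, section E: piece hch
-/

set_option autoImplicit false

namespace Pool.Agent.FrNE

open Pool.Agent.FrN Pool.Agent.F2Ch Pool.Agent.F2RF
open Pool.Agent.F2 (PC)

theorem p_hch (h1 : S_bas) (h2 : S_nn) (h3 : S_cot) : S_hch := by
  intro b Γ K F _ _ _ _ _ _ T ρ hB g hg
  obtain ⟨-, -, -, hfg⟩ := h1 2 b Γ K F T ρ hB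
  obtain ⟨hmax, -, -, -⟩ := h2 b Γ K F T ρ hB
  obtain ⟨hu, h, hh, hr⟩ := h3 b Γ K F T ρ hB g hg
  have hch : CharP F 2 := charP_of_injective_algebraMap (algebraMap (ZMod 2) F).injective 2
  obtain ⟨m, t, ht⟩ := pbex_frac 2 F (OO 2 ρ) hfg hB.fracF
  obtain ⟨d, bb, ρb, hd, hb⟩ := t_B4 2 (ZMod 2) F m t ht
  have hdn : d = b * 3 := by
    have h4 : (d : Cardinal) = ((b * 3 : ℕ) : Cardinal) := by
      rw [← hd, hB.trF]
      push_cast
      rw [mul_comm]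
    exact_mod_cast h4
  subst hdn
  have hrange : Set.range (fun i : Fin (b * 3) => uu 2 ρ g (finProdFinEquiv.symm i)) =
      Set.range (uu 2 ρ g) := by
    ext x
    constructor
    · rintro ⟨i, rfl⟩
      exact ⟨_, rfl⟩
    · rintro ⟨s, rfl⟩
      exact ⟨finProdFinEquiv s, by simp⟩
  obtain ⟨r, hrm, π, hc⟩ := Pool.Agent.FrB.exists_chart (p := 2) (L := F) (Z := OO 2 ρ) hfg
    hB.fracF hb (nn 2 ρ) (hm := hmax) (fun i : Fin (b * 3) => uu 2 ρ g (finProdFinEquiv.symm i))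
    (fun i => hu _) h hh (by
      intro z hz
      rw [hrange]
      exact hr z hz)
  exact ⟨r, hrm, π, hc⟩

end Pool.Agent.FrNE
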