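import Pool.Agent.Lib.MP_305fdd_al.Fr.N.E.Stm4

set_option autoImplicit false

namespace Pool.Agent.FrNE

open Pool.Agent.FrN Pool.Agent.F2Ch

theorem p_k2 : S_k2 := by
  intro p hpp K _ _ A B hfg hB hAB m hm hd x
  have : CharP K p := charP_of_injective_algebraMap (algebraMap (ZMod p) K).injective p
  have : ExpChar K p := ExpChar.prime hpp.out
  have hp1 : 1 ≤ p := hpp.out.one_le
  have hp0 : p ≠ 0 := by omega
  let Kp : Subring K := (frobenius K p).range
  let S : Subalgebra Kp K := Algebra.adjoin Kp (A : Set K)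
  have hSA : ∀ a ∈ A, a ∈ S := fun a ha => Algebra.subset_adjoin ha
  have hSp : ∀ c : K, c ^ p ∈ S := fun c => S.algebraMap_mem (⟨c ^ p, ⟨c, rfl⟩⟩ : Kp)
  have hform : ∀ x ∈ S, ∃ (n : ℕ) (c a : Fin n → K), (∀ i, a i ∈ A) ∧ x = ∑ i, c i ^ p * a i := by
    intro x hx
    have hx' : x ∈ Submodule.span Kp (Submonoid.closure (A : Set K) : Set K) := by
      rw [← Algebra.adjoin_eq_span]
      exact hx
    have hcl : Submonoid.closure (A : Set K) = A.toSubmonoid :=
      Submonoid.closure_eq A.toSubmonoid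
    rw [hcl] at hx'
    clear hx
    induction hx' using Submodule.span_induction with
    | mem x hx =>
      exact ⟨1, fun _ => 1, fun _ => x, fun _ => hx, by simp⟩
    | zero => exact ⟨0, fun _ => 1, fun _ => 0, fun i => i.elim0, by simp⟩
    | add x y _ _ hx hy =>
      obtain ⟨n, c, a, ha, h⟩ := hx
      obtain ⟨n', c', a', ha', h'⟩ := hy
      refine ⟨n + n', Fin.append c c', Fin.append a a', ?_, ?_⟩
      · intro i
        refine Fin.addCases (fun j => ?_) (fun j => ?_) i
        · rw [Fin.append_left]; exact ha j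
        · rw [Fin.append_right]; exact ha' j
      · rw [Fin.sum_univ_add]
        simp only [Fin.append_left, Fin.append_right]
        rw [h, h']
    | smul k x _ hx =>
      obtain ⟨n, c, a, ha, h⟩ := hx
      obtain ⟨k, ⟨d, rfl⟩⟩ := k
      refine ⟨n, fun i => d * c i, a, ha, ?_⟩
      rw [h, Finset.smul_sum]
      refine Finset.sum_congr rfl fun i _ => ?_
      show frobenius K p d * (c i ^ p * a i) = (d * c i) ^ p * a i
      rw [frobenius_def]
      ring
  apply hform
  -- the subalgebra `B ∩ S`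
  let R' : Subalgebra (ZMod p) B :=
    { carrier := {y | (y : K) ∈ S}
      mul_mem' := fun ha hb => S.mul_mem ha hb
      add_mem' := fun ha hb => S.add_mem ha hb
      algebraMap_mem' := fun c => hSA _ (A.algebraMap_mem c) }
  have hft : Algebra.FiniteType (ZMod p) B := (Subalgebra.fg_iff_finiteType B).1 hfg
  have : IsNoetherianRing B := Algebra.FiniteType.isNoetherianRing (ZMod p) B
  have hft' : Algebra.FiniteType R' B := Algebra.FiniteType.of_restrictScalars_finiteType (ZMod p) R' B
  have hint : Algebra.IsIntegral R' B := ⟨fun y => by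
    have h1 : y ^ p ∈ R' := by
      show ((y ^ p : B) : K) ∈ S
      rw [SubmonoidClass.coe_pow]
      exact hSp _
    refine IsIntegral.of_pow (n := p) (by omega) ?_
    exact isIntegral_algebraMap (R := R') (x := ⟨y ^ p, h1⟩)⟩
  have hfin : Module.Finite R' B := Algebra.IsIntegral.finite
  let J : Ideal B := Ideal.span {y | ∃ c ∈ m, y = c ^ p}
  have hJ : ∃ l : ℕ, m ^ l ≤ J := by
    refine Ideal.exists_pow_le_of_le_radical_of_fg ?_ (IsNoetherian.noetherian m)
    intro c hc
    exact ⟨p, Ideal.subset_span ⟨c, hc, rfl⟩⟩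
  obtain ⟨l, hl⟩ := hJ
  have hpm : ∀ c : B, c ^ p ∈ R' := by
    intro c
    show ((c ^ p : B) : K) ∈ S
    rw [SubmonoidClass.coe_pow]
    exact hSp _
  let I : Ideal R' := Ideal.span {y | ∃ c ∈ m, y = ⟨c ^ p, hpm c⟩}
  let N : Submodule R' B := LinearMap.range (Algebra.linearMap R' B)
  have hJI : ∀ z ∈ J, z ∈ (I • (⊤ : Submodule R' B)) := by
    intro z hz
    induction hz using Submodule.span_induction with
    | mem z hz =>
      obtain ⟨c, hc, rfl⟩ := hz
      have h1 : (⟨c ^ p, hpm c⟩ : R') ∈ I := Ideal.subset_span ⟨c, hc, rfl⟩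
      have h2 := Submodule.smul_mem_smul h1 (Submodule.mem_top : (1 : B) ∈ (⊤ : Submodule R' B))
      have h3 : (⟨c ^ p, hpm c⟩ : R') • (1 : B) = c ^ p := by
        rw [Subalgebra.smul_def, smul_eq_mul, mul_one]
      rwa [h3] at h2
    | zero => exact Submodule.zero_mem _
    | add x y _ _ hx hy => exact Submodule.add_mem _ hx hy
    | smul b z _ hz =>
      rw [smul_eq_mul]
      refine Submodule.smul_induction_on hz ?_ ?_
      · intro r hr n _
        have h1 : b * (r • n) = r • (b * n) := by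
          rw [Subalgebra.smul_def, Subalgebra.smul_def, smul_eq_mul, smul_eq_mul]; ring
        rw [h1]
        exact Submodule.smul_mem_smul hr Submodule.mem_top
      · intro x y hx hy
        rw [mul_add]
        exact Submodule.add_mem _ hx hy
  have hNak := Submodule.exists_sub_one_mem_and_smul_le_of_fg_of_le_sup (I := I) (N := N)
    (N' := (⊤ : Submodule R' B)) (P := ⊤) hfin.fg_top le_rfl (by
      intro y _
      obtain ⟨y', hy', hyy⟩ := hd l y
      have h1 : y = y' + (y - y') := by ring
      rw [h1]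
      refine Submodule.add_mem_sup ⟨⟨y', hSA _ hy'⟩, rfl⟩ (hJI _ (hl hyy)))
  obtain ⟨s, hs1, hs⟩ := hNak
  have hIm : ∀ z ∈ I, (z : B) ∈ m := by
    intro z hz
    induction hz using Submodule.span_induction with
    | mem z hz =>
      obtain ⟨c, hc, rfl⟩ := hz
      exact Ideal.pow_mem_of_mem m hc p (by omega)
    | zero => exact m.zero_mem
    | add x y _ _ hx hy => exact m.add_mem hx hy
    | smul b z _ hz => exact m.mul_mem_left _ hz
  have hs0 : ((s : B) : K) ≠ 0 := by
    intro h
    have h1 : (s : B) = 0 := Subtype.ext h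
    have h2 := hIm _ hs1
    have h3 : (((s - 1 : R') : B)) = -1 := by
      show (s : B) - 1 = -1
      rw [h1]; ring
    rw [h3] at h2
    exact hm (m.eq_top_iff_one.2 (by simpa using m.neg_mem h2))
  have hinv : ∀ v : K, v ∈ S → v ≠ 0 → v⁻¹ ∈ S := by
    intro v hv hv0
    have h1 : v⁻¹ = v ^ (p - 1) * (v⁻¹) ^ p := by
      have h2 : v ^ (p - 1) * v = v ^ p := by rw [← pow_succ, Nat.sub_add_cancel hp1]
      rw [inv_pow]
      field_simp
      rw [mul_comm] at h2
      exact h2.symm
    rw [h1]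
    exact S.mul_mem (S.pow_mem hv _) (hSp _)
  have hBS : ∀ u : B, (u : K) ∈ S := by
    intro u
    have h1 : s • u ∈ N := hs (Submodule.smul_mem_pointwise_smul u s ⊤ Submodule.mem_top)
    obtain ⟨r, hr⟩ := h1
    have h2 : ((r : B) : K) = ((s : B) : K) * (u : K) := congrArg Subtype.val hr
    have h3 : (u : K) = ((s : B) : K)⁻¹ * ((r : B) : K) := by
      rw [h2]; field_simp
    rw [h3]
    exact S.mul_mem (hinv _ s.2 hs0) r.2
  obtain ⟨u, hu, v, hv, hv0, huv⟩ := hB x
  have : x = u * v⁻¹ := by rw [← huv]; field_simp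
  rw [this]
  exact S.mul_mem (hBS ⟨u, hu⟩) (hinv _ (hBS ⟨v, hv⟩) hv0)

end Pool.Agent.FrNE
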