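import Pool.Agent.Lib.MP_305fdd_al.Fr.N.E.Stm3

/-!
# MP_305fdd_al (`F_r`), nilpotence block, section E, piece kp: the alternating products `LP` are
multiplicative; two vanishing properties.
-/

set_option autoImplicit false

namespace Pool.Agent.FrNE

open Pool.Agent.FrN Pool.Agent.F2Ch

section

variable {p : ℕ} [Fact p.Prime] {R : Type} [CommRing R] [Algebra (ZMod p) R]

private theorem kp_fin_tw (X : CMod p R) [h : Module.Finite R X.M] (g : R) :
    Module.Finite R (X.tw g).M := h

private theorem kp_P_ex [Algebra.FiniteType (ZMod p) R] (h1 : I_nuc) (h2 : I_ex)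
    (X' X X'' : CMod p R) [Module.Finite R X.M] (i : X'.M →ₗ[R] X.M) (q : X.M →ₗ[R] X''.M)
    (hi : Function.Injective i) (hq : Function.Surjective q)
    (hiq : LinearMap.range i = LinearMap.ker q) (hiC : ∀ v, i (X'.C v) = X.C (i v))
    (hqC : ∀ v, q (X.C v) = X''.C (q v)) : X.P = X'.P * X''.P := by
  have hN := h1 p R X
  have h := h2 (ZMod p) X'.M X.M X''.M X'.C X.C X''.C (i.restrictScalars (ZMod p))
    (q.restrictScalars (ZMod p)) hi hq (by
      ext v
      have := SetLike.ext_iff.1 hiq v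
      rw [LinearMap.mem_range, LinearMap.mem_ker] at this ⊢
      exact this) hiC hqC hN
  exact h.2.2

private theorem kp_KP_ex (h1 : I_nuc) (h2 : I_ex) [Algebra.FiniteType (ZMod p) R]
    (zs : List R) : ∀ (X' X X'' : CMod p R) [Module.Finite R X'.M] [Module.Finite R X.M]
    [Module.Finite R X''.M] (i : X'.M →ₗ[R] X.M) (q : X.M →ₗ[R] X''.M),
    Function.Injective i → Function.Surjective q → LinearMap.range i = LinearMap.ker q →
    (∀ v, i (X'.C v) = X.C (i v)) → (∀ v, q (X.C v) = X''.C (q v)) →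
    CMod.KP zs X = CMod.KP zs X' * CMod.KP zs X'' := by
  induction zs with
  | nil =>
    intro X' X X'' _ _ _ i q hi hq hiq hiC hqC
    exact kp_P_ex h1 h2 X' X X'' i q hi hq hiq hiC hqC
  | cons z zs ih =>
    intro X' X X'' hf' hf hf'' i q hi hq hiq hiC hqC
    have e1 := ih X' X X'' i q hi hq hiq hiC hqC
    have f' : Module.Finite R (X'.tw (z ^ (p - 1))).M := hf'
    have f : Module.Finite R (X.tw (z ^ (p - 1))).M := hf
    have f'' : Module.Finite R (X''.tw (z ^ (p - 1))).M := hf''
    have c1 : ∀ v : X'.M, i (X'.C (z ^ (p - 1) • v)) = X.C (z ^ (p - 1) • i v) := fun v => by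
      rw [hiC, map_smul]
    have c2 : ∀ v : X.M, q (X.C (z ^ (p - 1) • v)) = X''.C (z ^ (p - 1) • q v) := fun v => by
      rw [hqC, map_smul]
    have e2 := ih (X'.tw (z ^ (p - 1))) (X.tw (z ^ (p - 1))) (X''.tw (z ^ (p - 1))) i q hi hq hiq
      c1 c2
    change CMod.KP zs X / CMod.KP zs (X.tw (z ^ (p - 1))) =
      CMod.KP zs X' / CMod.KP zs (X'.tw (z ^ (p - 1))) *
      (CMod.KP zs X'' / CMod.KP zs (X''.tw (z ^ (p - 1))))
    rw [e1, e2, mul_div_mul_comm]

private theorem kp_P_one (h1 : I_nuc) (h3 : I_nil) [Algebra.FiniteType (ZMod p) R]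
    (X : CMod p R) [Module.Finite R X.M] (h : ∀ v, ∃ e : ℕ, (X.C ^ e) v = 0) : X.P = 1 :=
  (h3 (ZMod p) X.M X.C ⊤ (h1 p R X)).1 (fun v _ => h v)

/-- (2) -/
private theorem kp_two (h1 : I_nuc) (h3 : I_nil) [Algebra.FiniteType (ZMod p) R]
    (zs : List R) : ∀ (X : CMod p R) [Module.Finite R X.M],
    Module.annihilator R X.M ⊔ Ideal.span {z | z ∈ zs} = ⊤ → CMod.LP zs X = 1 := by
  have hR : IsNoetherianRing R := Algebra.FiniteType.isNoetherianRing (ZMod p) R
  induction zs with
  | nil =>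
    intro X _ hX
    refine kp_P_one h1 h3 X (fun v => ⟨0, ?_⟩)
    have h0 : {z : R | z ∈ ([] : List R)} = ∅ := by
      ext z; simp
    rw [h0, Ideal.span_empty, sup_bot_eq] at hX
    have h1' : (1 : R) ∈ Module.annihilator R X.M := by rw [hX]; exact Submodule.mem_top
    have := Module.mem_annihilator.1 h1' v
    rw [one_smul] at this
    rw [this, map_zero]
  | cons z zs ih =>
    intro X hf hX
    have hNo : IsNoetherian R X.M := inferInstance
    have f1 : Module.Finite R (X.kr z).M := by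
      change Module.Finite R ↥(LinearMap.ker (LinearMap.lsmul R X.M z))
      infer_instance
    have f2 : Module.Finite R (X.qt z).M := by
      change Module.Finite R (X.M ⧸ LinearMap.range (LinearMap.lsmul R X.M z))
      infer_instance
    have hcons : Ideal.span {y | y ∈ z :: zs} = Ideal.span {z} ⊔ Ideal.span {y | y ∈ zs} := by
      rw [← Ideal.span_union]
      congr 1
      ext y
      simp [List.mem_cons]
    have key : ∀ Y : CMod p R, Module.annihilator R X.M ≤ Module.annihilator R Y.M →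
        z ∈ Module.annihilator R Y.M →
        Module.annihilator R Y.M ⊔ Ideal.span {y | y ∈ zs} = ⊤ := by
      intro Y hY hz
      rw [eq_top_iff, ← hX, hcons]
      refine sup_le (hY.trans le_sup_left) (sup_le ?_ le_sup_right)
      rw [Ideal.span_singleton_le_iff_mem]
      exact Ideal.mem_sup_left hz
    have e1 : CMod.LP zs (X.kr z) = 1 := by
      refine ih (X.kr z) (key _ ?_ ?_)
      · intro a ha
        rw [Module.mem_annihilator] at ha ⊢
        intro m
        exact (Subtype.ext (ha m.1) : a • (m : ↥(LinearMap.ker (LinearMap.lsmul R X.M z))) = 0)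
      · rw [Module.mem_annihilator]
        intro m
        exact (Subtype.ext m.2 : z • (m : ↥(LinearMap.ker (LinearMap.lsmul R X.M z))) = 0)
    have e2 : CMod.LP zs (X.qt z) = 1 := by
      refine ih (X.qt z) (key _ ?_ ?_)
      · intro a ha
        rw [Module.mem_annihilator] at ha ⊢
        intro m
        obtain ⟨m, rfl⟩ := Submodule.Quotient.mk_surjective _ m
        have h5 : a • (Submodule.Quotient.mk m : X.M ⧸ LinearMap.range (LinearMap.lsmul R X.M z))
            = 0 := by
          rw [← Submodule.Quotient.mk_smul, ha m, Submodule.Quotient.mk_zero]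
        exact h5
      · rw [Module.mem_annihilator]
        intro m
        obtain ⟨m, rfl⟩ := Submodule.Quotient.mk_surjective _ m
        have h5 : z • (Submodule.Quotient.mk m : X.M ⧸ LinearMap.range (LinearMap.lsmul R X.M z))
            = 0 := by
          rw [← Submodule.Quotient.mk_smul, Submodule.Quotient.mk_eq_zero]
          exact ⟨m, rfl⟩
        exact h5
    change CMod.LP zs (X.kr z) / CMod.LP zs (X.qt z) = 1
    rw [e1, e2, div_one]

/-- `1 + p + ... + p ^ (e - 1)` -/
private def kp_s (p : ℕ) : ℕ → ℕ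
  | 0 => 0
  | e + 1 => kp_s p e * p + 1

private theorem kp_s_le (p : ℕ) (hp : 1 ≤ p) (e : ℕ) : e ≤ kp_s p e := by
  induction e with
  | zero => exact Nat.zero_le _
  | succ e ih =>
    change e + 1 ≤ kp_s p e * p + 1
    have : kp_s p e ≤ kp_s p e * p := Nat.le_mul_of_pos_right _ hp
    omega

private theorem kp_tw_pow (X : CMod p R) (g : R) (e : ℕ) : ∀ v : X.M,
    (((X.tw g).C ^ e : Module.End (ZMod p) (X.tw g).M) v : X.M) =
      (X.C ^ e) (g ^ kp_s p e • v) := by
  induction e with
  | zero =>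
    intro v
    change v = g ^ 0 • v
    rw [pow_zero, one_smul]
  | succ e ih =>
    intro v
    rw [pow_succ, Module.End.mul_apply]
    have h := ih ((X.tw g).C v)
    rw [h]
    rw [CMod.tw_apply, pow_succ, Module.End.mul_apply]
    congr 1
    rw [← X.hC, ← pow_mul, ← mul_smul, ← pow_succ]
    rfl

/-- nilpotent operator -/
private def kp_Nl (X : CMod p R) : Prop := ∃ e : ℕ, ∀ v, (X.C ^ e) v = 0

private theorem kp_Nl_tw (X : CMod p R) (g : R) (h : kp_Nl X) : kp_Nl (X.tw g) := by
  obtain ⟨e, he⟩ := h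
  refine ⟨e, fun v => ?_⟩
  exact (kp_tw_pow X g e v).trans (he _)

private theorem kp_Nl_z (X : CMod p R) (z : R) (n : ℕ) (h : ∀ x : X.M, z ^ n • x = 0) :
    kp_Nl (X.tw (z ^ (p - 1))) := by
  refine ⟨n, fun v => ?_⟩
  refine (kp_tw_pow X _ n v).trans ?_
  have hp2 := (Fact.out : p.Prime).two_le
  have hs := kp_s_le p (by omega) n
  have h1 : 1 ≤ p - 1 := by omega
  have h2 : n ≤ (p - 1) * kp_s p n := hs.trans (Nat.le_mul_of_pos_left _ h1)
  obtain ⟨m, hm⟩ := Nat.exists_eq_add_of_le h2
  rw [← pow_mul, hm, pow_add, mul_smul, h, map_zero]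
  rfl

private theorem kp_Nl_one (h1 : I_nuc) (h3 : I_nil) [Algebra.FiniteType (ZMod p) R]
    (zs : List R) : ∀ (X : CMod p R) [Module.Finite R X.M], kp_Nl X → CMod.KP zs X = 1 := by
  induction zs with
  | nil =>
    intro X _ hX
    obtain ⟨e, he⟩ := hX
    exact kp_P_one h1 h3 X (fun v => ⟨e, he v⟩)
  | cons z zs ih =>
    intro X hf hX
    have f : Module.Finite R (X.tw (z ^ (p - 1))).M := hf
    have e1 := ih X hX
    have e2 := ih (X.tw (z ^ (p - 1))) (kp_Nl_tw X _ hX)
    change CMod.KP zs X / CMod.KP zs (X.tw (z ^ (p - 1))) = 1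
    rw [e1, e2, div_one]

/-- (3) -/
private theorem kp_three (h1 : I_nuc) (h3 : I_nil) [Algebra.FiniteType (ZMod p) R]
    (X : CMod p R) [hf : Module.Finite R X.M] (zs : List R) :
    (∀ z ∈ zs, ∃ n : ℕ, ∀ x : X.M, z ^ n • x = 0) → CMod.KP zs X = X.P := by
  induction zs with
  | nil => intro _; rfl
  | cons z zs ih =>
    intro h
    obtain ⟨n, hn⟩ := h z (List.mem_cons_self)
    have f : Module.Finite R (X.tw (z ^ (p - 1))).M := hf
    have e1 := ih (fun z' hz' => h z' (List.mem_cons_of_mem _ hz'))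
    have e2 := kp_Nl_one h1 h3 zs (X.tw (z ^ (p - 1))) (kp_Nl_z X z n hn)
    change CMod.KP zs X / CMod.KP zs (X.tw (z ^ (p - 1))) = X.P
    rw [e1, e2, div_one]

end

theorem p_kp (h1 : I_nuc) (h2 : I_ex) (h3 : I_nil) (h4 : I_kos) : S_kp := by
  refine ⟨?_, ?_, ?_⟩
  · intro p _ R _ _ _ X' X X'' _ _ _ i q hi hq hiq hiC hqC zs
    rw [← h4 p R X zs, ← h4 p R X' zs, ← h4 p R X'' zs]
    exact kp_KP_ex h1 h2 zs X' X X'' i q hi hq hiq hiC hqC
  · intro p _ R _ _ _ X _ zs h
    exact kp_two h1 h3 zs X h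
  · intro p _ R _ _ _ X _ zs h
    rw [← h4 p R X zs]
    exact kp_three h1 h3 X zs h

end Pool.Agent.FrNE
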