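import Pool.Agent.Lib.MP_305fdd_al.Fr.N.E.Stm4

/-!
# MP_305fdd_al (`F_r`), nilpotence block, section E: [FrN E nn]
-/

set_option autoImplicit false

namespace Pool.Agent.FrNE

open Pool.Agent.FrN Pool.Agent.F2Ch Pool.Agent.F2RF
open Pool.Agent.F2 (PC)

namespace nnp

lemma max_of {R : Type} [CommRing R] (I : Ideal R) (h1 : (1 : R) ∉ I)
    (h2 : ∀ x : R, x ∈ I ∨ x - 1 ∈ I) : I.IsMaximal := by
  rw [Ideal.isMaximal_iff]
  refine ⟨h1, fun J x hIJ hxI hxJ => ?_⟩
  rcases h2 x with h | h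
  · exact absurd h hxI
  · have h3 := J.sub_mem hxJ (hIJ h)
    simpa using h3

lemma two_eq {R : Type} [Ring R] [Algebra (ZMod 2) R] : (2 : R) = 0 := by
  have h1 : algebraMap (ZMod 2) R 2 = 2 := map_ofNat _ 2
  have h2 : (2 : ZMod 2) = 0 := by decide
  rw [← h1, h2, map_zero]

/-- the property `x ∈ I ∨ x - 1 ∈ I` for the elements of a subalgebra generated by a set -/
lemma dich {L : Type} [Field L] [Algebra (ZMod 2) L] (s : Set L) (I : Ideal (Algebra.adjoin (ZMod 2) s))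
    (hs : ∀ (x : L) (hx : x ∈ s), (⟨x, Algebra.subset_adjoin hx⟩ : Algebra.adjoin (ZMod 2) s) ∈ I ∨
      (⟨x, Algebra.subset_adjoin hx⟩ : Algebra.adjoin (ZMod 2) s) - 1 ∈ I) :
    ∀ x : Algebra.adjoin (ZMod 2) s, x ∈ I ∨ x - 1 ∈ I := by
  rintro ⟨x, hx⟩
  induction hx using Algebra.adjoin_induction with
  | mem x hx => exact hs x hx
  | algebraMap r =>
    have h0 : ∀ r : ZMod 2, r = 0 ∨ r = 1 := by decide
    rcases h0 r with rfl | rfl
    · left
      have : (⟨algebraMap (ZMod 2) L 0, Subalgebra.algebraMap_mem _ _⟩ :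
          Algebra.adjoin (ZMod 2) s) = 0 := Subtype.ext (map_zero _)
      rw [this]
      exact I.zero_mem
    · right
      have : (⟨algebraMap (ZMod 2) L 1, Subalgebra.algebraMap_mem _ _⟩ :
          Algebra.adjoin (ZMod 2) s) = 1 := Subtype.ext (map_one _)
      rw [this, sub_self]
      exact I.zero_mem
  | add x y hx1 hy1 hx hy =>
    have he : (⟨x + y, Subalgebra.add_mem _ hx1 hy1⟩ : Algebra.adjoin (ZMod 2) s) =
      ⟨x, hx1⟩ + ⟨y, hy1⟩ := rfl
    rw [he]
    set u : Algebra.adjoin (ZMod 2) s := ⟨x, hx1⟩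
    set v : Algebra.adjoin (ZMod 2) s := ⟨y, hy1⟩
    rcases hx with hx | hx <;> rcases hy with hy | hy
    · exact Or.inl (I.add_mem hx hy)
    · right
      have : u + v - 1 = u + (v - 1) := by ring
      rw [this]
      exact I.add_mem hx hy
    · right
      have : u + v - 1 = (u - 1) + v := by ring
      rw [this]
      exact I.add_mem hx hy
    · left
      have h2 : (2 : Algebra.adjoin (ZMod 2) s) = 0 := two_eq
      have : u + v = (u - 1) + (v - 1) + 2 := by ring
      rw [this, h2, add_zero]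
      exact I.add_mem hx hy
  | mul x y hx1 hy1 hx hy =>
    have he : (⟨x * y, Subalgebra.mul_mem _ hx1 hy1⟩ : Algebra.adjoin (ZMod 2) s) =
      ⟨x, hx1⟩ * ⟨y, hy1⟩ := rfl
    rw [he]
    set u : Algebra.adjoin (ZMod 2) s := ⟨x, hx1⟩
    set v : Algebra.adjoin (ZMod 2) s := ⟨y, hy1⟩
    rcases hx with hx | hx
    · exact Or.inl (I.mul_mem_right _ hx)
    · rcases hy with hy | hy
      · exact Or.inl (I.mul_mem_left _ hy)
      · right
        have : u * v - 1 = u * (v - 1) + (u - 1) := by ring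
        rw [this]
        exact I.add_mem (I.mul_mem_left _ hy) hx

end nnp

open nnp in
theorem p_nn : S_nn := by
  intro b Γ K F _ _ _ _ _ _ T ρ hB
  -- the trivial point
  obtain ⟨φ, hφ⟩ := hB.pts (ZMod 2) 1
  have hφ' : ∀ g i j, φ (ent 2 ρ g i j) = (1 : Matrix (Fin 2) (Fin 2) (ZMod 2)) i j := by
    intro g i j
    exact hφ g i j
  have hker : ∀ x ∈ nn 2 ρ, φ x = 0 := by
    intro x hx
    have h1 : nn 2 ρ ≤ RingHom.ker φ := by
      unfold nn
      rw [Ideal.span_le]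
      rintro _ ⟨g, i, j, rfl⟩
      rw [SetLike.mem_coe, RingHom.mem_ker, map_sub, hφ']
      by_cases hij : i = j
      · subst hij
        rw [Matrix.one_apply_eq, Matrix.one_apply_eq, map_one, sub_self]
      · rw [Matrix.one_apply_ne hij, Matrix.one_apply_ne hij, map_zero, sub_self]
    exact h1 hx
  have hn1 : (1 : OO 2 ρ) ∉ nn 2 ρ := by
    intro h
    have h1 := hker 1 h
    rw [map_one] at h1
    exact one_ne_zero h1
  have hgen : ∀ (g : Γ) (i j : Fin 2),
      ent 2 ρ g i j - (1 : Matrix (Fin 2) (Fin 2) (OO 2 ρ)) i j ∈ nn 2 ρ :=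
    fun g i j => Ideal.subset_span ⟨g, i, j, rfl⟩
  have hdO : ∀ x : OO 2 ρ, x ∈ nn 2 ρ ∨ x - 1 ∈ nn 2 ρ := by
    refine dich {x | ∃ g i j, x = (ρ g).1 i j} (nn 2 ρ) ?_
    rintro _ ⟨g, i, j, rfl⟩
    have h := hgen g i j
    by_cases hij : i = j
    · subst hij
      rw [Matrix.one_apply_eq] at h
      exact Or.inr h
    · rw [Matrix.one_apply_ne hij, sub_zero] at h
      exact Or.inl h
  -- the homomorphism from `B` to `O`
  have hmem : ∀ x ∈ BB 2 T, algebraMap K F x ∈ OO 2 ρ := by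
    intro x hx
    unfold BB at hx
    induction hx using Algebra.adjoin_induction with
    | mem x hx =>
      obtain ⟨g, rfl⟩ := hx
      rw [← hB.tr, Matrix.trace_fin_two]
      exact Subalgebra.add_mem _ (mem_OO ρ g 0 0) (mem_OO ρ g 1 1)
    | algebraMap r =>
      have h1 : algebraMap K F (algebraMap (ZMod 2) K r) = algebraMap (ZMod 2) F r :=
        congrFun (congrArg DFunLike.coe
          (Subsingleton.elim ((algebraMap K F).comp (algebraMap (ZMod 2) K))
            (algebraMap (ZMod 2) F))) r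
      rw [h1]
      exact Subalgebra.algebraMap_mem _ r
    | add x y hx1 hy1 hx hy =>
      rw [map_add]
      exact Subalgebra.add_mem _ hx hy
    | mul x y hx1 hy1 hx hy =>
      rw [map_mul]
      exact Subalgebra.mul_mem _ hx hy
  let ψ : BB 2 T →+* OO 2 ρ :=
    { toFun := fun x => ⟨algebraMap K F x, hmem x x.2⟩
      map_one' := Subtype.ext (map_one _)
      map_mul' := fun x y => Subtype.ext (map_mul _ x.1 y.1)
      map_zero' := Subtype.ext (map_zero _)
      map_add' := fun x y => Subtype.ext (map_add _ x.1 y.1) }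
  have hψ : ∀ x : BB 2 T, ((ψ x : OO 2 ρ) : F) = algebraMap K F x := fun x => rfl
  have hmap : (Ideal.span (Set.range (bT 2 T))).map ψ ≤ nn 2 ρ := by
    rw [Ideal.map_span, Ideal.span_le]
    rintro _ ⟨_, ⟨g, rfl⟩, rfl⟩
    have h0 := hgen g 0 0
    have h1 := hgen g 1 1
    rw [Matrix.one_apply_eq] at h0 h1
    have h2 : (2 : OO 2 ρ) = 0 := two_eq
    have h3 : ψ (bT 2 T g) = (ent 2 ρ g 0 0 - 1) + (ent 2 ρ g 1 1 - 1) := by
      have h4 : ψ (bT 2 T g) = ent 2 ρ g 0 0 + ent 2 ρ g 1 1 := by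
        apply Subtype.ext
        rw [hψ]
        change algebraMap K F (T g) = (ρ g).1 0 0 + (ρ g).1 1 1
        rw [← hB.tr, Matrix.trace_fin_two]
      have h5 : ent 2 ρ g 0 0 + ent 2 ρ g 1 1 =
          (ent 2 ρ g 0 0 - 1) + (ent 2 ρ g 1 1 - 1) + 2 := by ring
      rw [h4, h5, h2, add_zero]
    rw [SetLike.mem_coe, h3]
    exact Ideal.add_mem _ h0 h1
  have hm1 : (1 : BB 2 T) ∉ Ideal.span (Set.range (bT 2 T)) := by
    intro h
    have h1 := hmap (Ideal.mem_map_of_mem ψ h)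
    rw [map_one] at h1
    exact hn1 h1
  have hdB : ∀ x : BB 2 T, x ∈ Ideal.span (Set.range (bT 2 T)) ∨
      x - 1 ∈ Ideal.span (Set.range (bT 2 T)) := by
    refine dich (Set.range T) (Ideal.span (Set.range (bT 2 T))) ?_
    rintro _ ⟨g, rfl⟩
    exact Or.inl (Ideal.subset_span ⟨g, rfl⟩)
  refine ⟨max_of _ hn1 hdO, hdO, max_of _ hm1 hdB, ?_⟩
  intro n x hx
  refine ⟨ψ x, hψ x, ?_⟩
  have h1 := Ideal.mem_map_of_mem ψ hx
  rw [Ideal.map_pow] at h1
  exact Ideal.pow_right_mono hmap n h1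

end Pool.Agent.FrNE
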