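import Pool.Agent.Lib.MP_305fdd_al.Fr.N.E.Stm4

/-!
# MP_305fdd_al (`F_r`), nilpotence block, section E: [FrN E par]
-/

set_option autoImplicit false

namespace Pool.Agent.FrNE

open Pool.Agent.FrN Pool.Agent.F2Ch Pool.Agent.F2RF
open Pool.Agent.F2 (PC)

theorem p_par (h1 : S_bas) (h2 : S_nn) (h3 : S_cot) (h4 : S_b0) (h5 : S_hch) : S_par := by
  intro b Γ K F _ _ _ _ _ _ T ρ hB g hg k
  obtain ⟨hmax, -, -, -⟩ := h2 b Γ K F T ρ hB
  obtain ⟨-, -, -, hOfg⟩ := h1 2 b Γ K F T ρ hB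
  obtain ⟨huu, -⟩ := h3 b Γ K F T ρ hB g hg
  obtain ⟨r, hr, π, hC⟩ := h5 b Γ K F T ρ hB g hg
  obtain ⟨N', hN⟩ := h4 2 F (OO 2 ρ) hOfg (b * 3) (fun i => uu 2 ρ g (finProdFinEquiv.symm i)) r π
    hC (nn 2 ρ) hmax hr (fun i => huu _) k
  refine ⟨N', fun P hP => ?_⟩
  have e1 : MvPolynomial.aeval (fun i => uu 2 ρ g (finProdFinEquiv.symm i))
      (MvPolynomial.rename finProdFinEquiv P) = MvPolynomial.aeval (uu 2 ρ g) P := by
    rw [MvPolynomial.aeval_rename]
    congr 2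
    funext s
    simp only [Function.comp_apply, Equiv.symm_apply_apply]
  have h6 := hN (MvPolynomial.rename finProdFinEquiv P) (by rw [e1]; exact hP)
  have h7 := Ideal.mem_map_of_mem (MvPolynomial.rename (R := ZMod 2)
    (finProdFinEquiv (m := b) (n := 3)).symm) h6
  rw [Ideal.map_pow, Ideal.map_span] at h7
  have h8 : MvPolynomial.rename (finProdFinEquiv (m := b) (n := 3)).symm
      (MvPolynomial.rename finProdFinEquiv P) = P := by
    rw [MvPolynomial.rename_rename]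
    have : ((finProdFinEquiv (m := b) (n := 3)).symm : Fin (b * 3) → Fin b × Fin 3) ∘
        (finProdFinEquiv : Fin b × Fin 3 → Fin (b * 3)) = id := by
      funext s
      simp
    rw [this, MvPolynomial.rename_id_apply]
  rw [h8] at h7
  refine Ideal.pow_right_mono ?_ k h7
  rw [Ideal.span_le]
  rintro _ ⟨_, ⟨i, rfl⟩, rfl⟩
  rw [MvPolynomial.rename_X]
  exact Ideal.subset_span ⟨_, rfl⟩

end Pool.Agent.FrNE
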