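import Pool.Agent.Lib.MP_305fdd_al.Fr.N.E.Stm3

set_option autoImplicit false

namespace Pool.Agent.FrNE

open Pool.Agent.FrN Pool.Agent.F2Ch

section aux

variable {p : ℕ} [Fact p.Prime] {R : Type} [CommRing R] [Algebra (ZMod p) R]

theorem pro_fin_kr [IsNoetherianRing R] (X : CMod p R) [Module.Finite R X.M] (y : R) :
    Module.Finite R (X.kr y).M := by
  haveI : IsNoetherian R X.M := isNoetherian_of_isNoetherianRing_of_finite R X.M
  change Module.Finite R ↥(LinearMap.ker (LinearMap.lsmul R X.M y))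
  infer_instance

theorem pro_fin_qt [IsNoetherianRing R] (X : CMod p R) [Module.Finite R X.M] (y : R) :
    Module.Finite R (X.qt y).M := by
  change Module.Finite R (X.M ⧸ LinearMap.range (LinearMap.lsmul R X.M y))
  infer_instance

theorem pro_ann_kr (X : CMod p R) (y : R) :
    Module.annihilator R X.M ⊔ Ideal.span {y} ≤ Module.annihilator R (X.kr y).M := by
  refine sup_le ?_ ?_
  · intro a ha
    rw [Module.mem_annihilator] at ha ⊢
    intro m
    exact Subtype.ext (ha m.1)
  · rw [Ideal.span_singleton_le_iff_mem, Module.mem_annihilator]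
    intro m
    exact Subtype.ext m.2

theorem pro_ann_qt (X : CMod p R) (y : R) :
    Module.annihilator R X.M ⊔ Ideal.span {y} ≤ Module.annihilator R (X.qt y).M := by
  refine sup_le ?_ ?_
  · intro a ha
    rw [Module.mem_annihilator] at ha ⊢
    intro m
    obtain ⟨m, rfl⟩ := Submodule.Quotient.mk_surjective
      (LinearMap.range (LinearMap.lsmul R X.M y)) m
    change Submodule.Quotient.mk (a • m) = _
    rw [ha m]
    rfl
  · rw [Ideal.span_singleton_le_iff_mem, Module.mem_annihilator]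
    intro m
    obtain ⟨m, rfl⟩ := Submodule.Quotient.mk_surjective
      (LinearMap.range (LinearMap.lsmul R X.M y)) m
    change Submodule.Quotient.mk (y • m) = _
    refine (Submodule.Quotient.mk_eq_zero _).2 ?_
    exact ⟨m, rfl⟩

theorem pro_span (y : R) (ys : List R) :
    Ideal.span {z | z ∈ y :: ys} = Ideal.span {y} ⊔ Ideal.span {z | z ∈ ys} := by
  rw [← Ideal.span_union]
  congr 1
  ext z
  simp

end aux

theorem p_pro (h1 : S_prok) (h2 : S_prob) : S_pro := by
  intro p _ A B _ _ _ _ _ _ φ 𝔞 𝔪 hφ X X' _ _ ι hι hC ys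
  haveI : IsNoetherianRing A := Algebra.FiniteType.isNoetherianRing (ZMod p) A
  haveI : IsNoetherianRing B := Algebra.FiniteType.isNoetherianRing (ZMod p) B
  induction ys generalizing X X' ι with
  | nil =>
    intro zs k hz ha hm
    have e : Ideal.span {y | y ∈ ([] : List A)} = ⊥ := by simp
    rw [e, sup_bot_eq] at ha
    exact h2 p A B φ 𝔞 𝔪 hφ X X' ι hι hC zs k hz ha hm
  | cons y ys ih =>
    intro zs k hz ha hm
    obtain ⟨⟨κ₁, hκ₁, hc₁⟩, κ₂, hκ₂, hc₂⟩ := h1 p A B φ 𝔞 𝔪 hφ X X' ι hι hC y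
    haveI := pro_fin_kr X y
    haveI := pro_fin_qt X y
    haveI := pro_fin_kr X' (φ y)
    haveI := pro_fin_qt X' (φ y)
    rw [pro_span, ← sup_assoc] at ha
    rw [List.map_cons, List.cons_append, pro_span, ← sup_assoc] at hm
    have e1 := ih (X.kr y) (X'.kr (φ y)) κ₁ hκ₁ hc₁ zs k hz
      (ha.trans (sup_le_sup_right (pro_ann_kr X y) _))
      (hm.trans (sup_le_sup_right (pro_ann_kr X' (φ y)) _))
    have e2 := ih (X.qt y) (X'.qt (φ y)) κ₂ hκ₂ hc₂ zs k hz
      (ha.trans (sup_le_sup_right (pro_ann_qt X y) _))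
      (hm.trans (sup_le_sup_right (pro_ann_qt X' (φ y)) _))
    change CMod.LP (ys.map φ ++ zs) (X'.kr (φ y)) / CMod.LP (ys.map φ ++ zs) (X'.qt (φ y)) =
      CMod.LP ys (X.kr y) / CMod.LP ys (X.qt y)
    rw [e1, e2]

end Pool.Agent.FrNE
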