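import Pool.Agent.Lib.MP_305fdd_al.Fr.N.E.p_prok

/-!
# MP_305fdd_al (`F_r`), nilpotence block, section E: [FrN E proM]

The stable hulls of an element over `A` and over `B` form a pro-bijective pair.
-/

set_option autoImplicit false

namespace Pool.Agent.FrNE

open Pool.Agent.FrN Pool.Agent.F2Ch

namespace proM

/-- `Φ` is continuous for the `𝔪`-adic topology of a stable submodule -/
lemma cont {p : ℕ} [Fact p.Prime] {K : Type} [Field K] [Algebra (ZMod p) K]
    {B : Subalgebra (ZMod p) K} [IsNoetherianRing B] (𝔪 : Ideal B) {Φ : K → K} (h : IsPinv p Φ)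
    (M : Submodule B K) (hM : Stb Φ M) (n : ℕ) :
    ∃ l, n ≤ l ∧ ∀ x ∈ (𝔪 ^ l • M : Submodule B K), Φ x ∈ (𝔪 ^ n • M : Submodule B K) := by
  have hΦ0 : Φ 0 = 0 := by
    have := h.add 0 0
    rw [add_zero] at this
    exact left_eq_add.mp this
  set J : Ideal B := Ideal.span {c | ∃ b ∈ 𝔪 ^ n, c = b ^ p} with hJ
  have hrad : 𝔪 ^ n ≤ J.radical := by
    intro b hb
    exact ⟨p, Ideal.subset_span ⟨b, hb, rfl⟩⟩
  obtain ⟨t, ht⟩ := J.exists_radical_pow_le_of_fg (IsNoetherian.noetherian _)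
  have h5 : 𝔪 ^ (n * (t + 1)) ≤ J := by
    rw [pow_mul]
    refine le_trans (Ideal.pow_le_pow_right (Nat.le_succ t)) ?_
    exact le_trans (Ideal.pow_right_mono hrad t) ht
  refine ⟨n * (t + 1), Nat.le_mul_of_pos_right n (Nat.succ_pos t), fun x hx => ?_⟩
  have h6 : x ∈ (J • M : Submodule B K) := Submodule.smul_mono_left h5 hx
  refine Submodule.smul_induction_on h6 ?_ ?_
  · intro r hr m hm
    have h7 : ∀ r ∈ J, ∀ m ∈ M, Φ (r • m) ∈ (𝔪 ^ n • M : Submodule B K) := by
      intro r hr
      refine Submodule.span_induction (p := fun r _ => ∀ m ∈ M,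
        Φ (r • m) ∈ (𝔪 ^ n • M : Submodule B K)) ?_ ?_ ?_ ?_ hr
      · rintro _ ⟨b, hb, rfl⟩ m hm
        have e : Φ ((b ^ p : B) • m) = b • Φ m := by
          change Φ (((b ^ p : B) : K) * m) = (b : K) * Φ m
          rw [SubmonoidClass.coe_pow]
          exact h.pow_mul _ _
        rw [e]
        exact Submodule.smul_mem_smul hb (hM m hm)
      · intro m _
        rw [zero_smul, hΦ0]
        exact Submodule.zero_mem _
      · intro a b _ _ ha hb m hm
        rw [add_smul, h.add]
        exact Submodule.add_mem _ (ha m hm) (hb m hm)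
      · intro c a _ ha m hm
        rw [smul_eq_mul, mul_comm, mul_smul]
        exact ha _ (M.smul_mem c hm)
    exact h7 r hr m hm
  · intro a b ha hb
    rw [h.add]
    exact Submodule.add_mem _ ha hb

end proM

open prok proM in
theorem p_proM : S_proM := by
  intro p _ K₀ K _ _ _ _ j A B φ hA hB hφ 𝔞 𝔪 hle h1 h2 Φ₀ Φ hΦ₀ hΦ hj c M₀ M _ hst₀ hc₀ hmin₀ _
    hst hc hmin e he heM₀ heM
  have hnA : IsNoetherianRing A := by
    have : Algebra.FiniteType (ZMod p) A := A.fg_iff_finiteType.1 hA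
    exact Algebra.FiniteType.isNoetherianRing (ZMod p) A
  have hnB : IsNoetherianRing B := by
    have : Algebra.FiniteType (ZMod p) B := B.fg_iff_finiteType.1 hB
    exact Algebra.FiniteType.isNoetherianRing (ZMod p) B
  -- the map
  have hjM : ∀ x ∈ M₀, j x ∈ M := by
    let Q₀ : Submodule A K₀ :=
      { carrier := {x | j x ∈ M}
        zero_mem' := by
          change j 0 ∈ M
          rw [map_zero]
          exact M.zero_mem
        add_mem' := by
          intro x y hx hy
          change j (x + y) ∈ M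
          rw [map_add]
          exact M.add_mem hx hy
        smul_mem' := by
          intro a x hx
          change j ((a : K₀) * x) ∈ M
          rw [map_mul, ← hφ]
          exact M.smul_mem (φ a) hx }
    have hQ : M₀ ≤ Q₀ := by
      refine hmin₀ Q₀ ?_ hc
      intro x hx
      change j (Φ₀ x) ∈ M
      rw [← hj]
      exact hst _ hx
    exact fun x hx => hQ hx
  let ι : M₀ →+ M :=
    { toFun := fun x => ⟨j x.1, hjM x.1 x.2⟩
      map_zero' := Subtype.ext (map_zero j)
      map_add' := fun x y => Subtype.ext (map_add j x.1 y.1) }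
  have hι : ∀ x : M₀, (ι x : K) = j x := fun x => rfl
  have hanti : ∀ {m n : ℕ}, m ≤ n → (𝔪 ^ n • M : Submodule B K) ≤ 𝔪 ^ m • M :=
    fun {m n} hmn => Submodule.smul_mono_left (Ideal.pow_le_pow_right hmn)
  refine ⟨ι, hι, ⟨?_, ?_, ?_⟩⟩
  · -- semilinear
    intro a x
    apply Subtype.ext
    change j ((a : K₀) * (x : K₀)) = (φ a : K) * j x
    rw [map_mul, hφ]
  · -- dense
    let Q : Submodule B K :=
      { carrier := {x | x ∈ M ∧ ∀ n : ℕ, ∃ x₀ ∈ M₀, x - j x₀ ∈ (𝔪 ^ n • M : Submodule B K)}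
        zero_mem' := by
          refine ⟨M.zero_mem, fun n => ⟨0, M₀.zero_mem, ?_⟩⟩
          rw [map_zero, sub_zero]
          exact Submodule.zero_mem _
        add_mem' := by
          rintro x y ⟨hx, hx'⟩ ⟨hy, hy'⟩
          refine ⟨M.add_mem hx hy, fun n => ?_⟩
          obtain ⟨x₀, hx₀, hx₀'⟩ := hx' n
          obtain ⟨y₀, hy₀, hy₀'⟩ := hy' n
          refine ⟨x₀ + y₀, M₀.add_mem hx₀ hy₀, ?_⟩
          have : x + y - j (x₀ + y₀) = (x - j x₀) + (y - j y₀) := by
            rw [map_add]; ring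
          rw [this]
          exact Submodule.add_mem _ hx₀' hy₀'
        smul_mem' := by
          rintro b x ⟨hx, hx'⟩
          refine ⟨M.smul_mem b hx, fun n => ?_⟩
          obtain ⟨x₀, hx₀, hx₀'⟩ := hx' n
          obtain ⟨a, ha⟩ := h1 n b
          refine ⟨a • x₀, M₀.smul_mem a hx₀, ?_⟩
          have e1 : b • x - j (a • x₀) = b • (x - j x₀) + (b - φ a) • j x₀ := by
            change (b : K) * x - j ((a : K₀) * x₀) =
              (b : K) * (x - j x₀) + ((b - φ a : B) : K) * j x₀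
            rw [AddSubgroupClass.coe_sub, map_mul, hφ]
            ring
          rw [e1]
          exact Submodule.add_mem _ (Submodule.smul_mem _ _ hx₀')
            (Submodule.smul_mem_smul ha (hjM x₀ hx₀)) }
    have hQ : M ≤ Q := by
      refine hmin Q ?_ ⟨hc, fun n => ⟨c, hc₀, ?_⟩⟩
      · rintro x ⟨hx, hx'⟩
        refine ⟨hst x hx, fun n => ?_⟩
        obtain ⟨l, hnl, hl⟩ := cont 𝔪 hΦ M hst n
        obtain ⟨x₀, hx₀, hx₀'⟩ := hx' l
        refine ⟨Φ₀ x₀, hst₀ x₀ hx₀, ?_⟩
        have e1 : Φ x - j (Φ₀ x₀) = Φ (x - j x₀) := by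
          have := hΦ.add (x - j x₀) (j x₀)
          rw [sub_add_cancel, hj] at this
          rw [this]; ring
        rw [e1]
        exact hl _ hx₀'
      · rw [sub_self]
        exact Submodule.zero_mem _
    intro n x'
    obtain ⟨x₀, hx₀, hx₀'⟩ := (hQ x'.2).2 n
    refine ⟨⟨x₀, hx₀⟩, ?_⟩
    rw [mem_sub]
    exact hx₀'
  · -- top
    intro n
    let μ : M₀ →ₗ[A] A :=
      { toFun := fun x => ⟨(e : K₀) * x.1, heM₀ x.1 x.2⟩
        map_add' := fun x y => Subtype.ext (mul_add _ _ _)
        map_smul' := fun a x => Subtype.ext (by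
          change (e : K₀) * ((a : K₀) * x.1) = (a : K₀) * ((e : K₀) * x.1)
          ring) }
    have hμ : Function.Injective μ := by
      intro x y hxy
      have h3 : (e : K₀) * x.1 = (e : K₀) * y.1 := congrArg Subtype.val hxy
      have h4 : (e : K₀) ≠ 0 := fun h => he (Subtype.ext h)
      exact Subtype.ext (mul_left_cancel₀ h4 h3)
    obtain ⟨n', hn'⟩ := ar 𝔞 (LinearMap.range μ) n
    obtain ⟨N, hN⟩ := h2 n'
    refine ⟨N, fun x hx => ?_⟩
    rw [mem_sub] at hx
    have h3 : φ (μ x) ∈ 𝔪 ^ N := by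
      have h4 : ∀ y ∈ (𝔪 ^ N • M : Submodule B K), ∃ b ∈ 𝔪 ^ N, (b : K) = j e * y := by
        intro y hy
        refine Submodule.smul_induction_on hy ?_ ?_
        · intro r hr m hm
          refine ⟨r * ⟨j e * m, heM m hm⟩, Ideal.mul_mem_right _ _ hr, ?_⟩
          change (r : K) * (j e * m) = j e * ((r : K) * m)
          ring
        · rintro y z ⟨b, hb, hb'⟩ ⟨d, hd, hd'⟩
          refine ⟨b + d, Ideal.add_mem _ hb hd, ?_⟩
          rw [AddMemClass.coe_add, hb', hd']
          ring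
      obtain ⟨b, hb, hb'⟩ := h4 _ hx
      have h5 : φ (μ x) = b := by
        apply Subtype.ext
        rw [hφ, hb', hι]
        change j ((e : K₀) * x.1) = j e * j x.1
        rw [map_mul]
      rw [h5]
      exact hb
    have h6 : μ x ∈ 𝔞 ^ n • LinearMap.range μ := by
      apply hn'
      · have h7 := hN _ h3
        rw [smul_eq_mul, Ideal.mul_top]
        exact h7
      · exact ⟨x, rfl⟩
    rw [← Submodule.map_top, ← Submodule.map_smul''] at h6
    obtain ⟨x₁, hx₁, hx₁'⟩ := h6
    rw [← hμ hx₁']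
    exact hx₁

end Pool.Agent.FrNE
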