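import Pool.Agent.Lib.MP_305fdd_al.Fr.N.E.Stm3

/-! [FrN E prob] the base case of the comparison. -/

set_option autoImplicit false

namespace Pool.Agent.FrNE

open Pool.Agent.FrN Pool.Agent.F2Ch

/-- a stable submodule of a Cartier module -/
private def subC {p : ℕ} {B : Type} [CommRing B] [Algebra (ZMod p) B] (X : CMod p B)
    (S : Submodule B X.M) (hS : ∀ x ∈ S, X.C x ∈ S) : CMod p B where
  M := S
  C :=
    { toFun := fun x => ⟨X.C x.1, hS x.1 x.2⟩
      map_add' := fun x y => Subtype.ext (map_add X.C x.1 y.1)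
      map_smul' := fun c x => Subtype.ext (map_smul X.C c x.1) }
  hC b m := Subtype.ext (X.hC b m.1)

/-- the quotient by a stable submodule -/
private def quoC {p : ℕ} {B : Type} [CommRing B] [Algebra (ZMod p) B] (X : CMod p B)
    (S : Submodule B X.M) (hS : ∀ x ∈ S, X.C x ∈ S) : CMod p B where
  M := X.M ⧸ S
  C :=
    { toFun := Quotient.map' (fun m => X.C m) (by
        intro a b h
        rw [Submodule.quotientRel_def] at h ⊢
        rw [← map_sub]
        exact hS _ h)
      map_add' := by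
        rintro ⟨a⟩ ⟨b⟩
        exact congrArg (Submodule.Quotient.mk) (map_add X.C a b)
      map_smul' := by
        rintro c ⟨a⟩
        exact congrArg (Submodule.Quotient.mk) (map_smul X.C c a) }
  hC b m := by
    obtain ⟨m, rfl⟩ := Submodule.Quotient.mk_surjective _ m
    exact congrArg (Submodule.Quotient.mk) (X.hC b m)

theorem p_prob (h1 : I_nuc) (h2 : I_ex) (h3 : I_nil) (h4 : S_kp) : S_prob := by
  intro p _ A B _ _ _ _ _ _ φ 𝔞 𝔪 hle X X' _ _ ι hpro hcomm zs k hzs hA hB
  obtain ⟨h41, h42, h43⟩ := h4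
  have hnB : IsNoetherianRing B := Algebra.FiniteType.isNoetherianRing (ZMod p) B
  have hnM : IsNoetherian B X'.M := isNoetherian_of_isNoetherianRing_of_finite B X'.M
  obtain ⟨N, hN⟩ := hpro.top k
  have hzero : ∀ x, ι x ∈ (𝔪 ^ N • ⊤ : Submodule B X'.M) → x = 0 := by
    intro x hx
    have h := hN x hx
    have h' : (𝔞 ^ k • ⊤ : Submodule A X.M) = ⊥ := by
      rw [eq_bot_iff]
      refine Submodule.smul_le.2 ?_
      intro r hr n _
      exact (Submodule.mem_bot A).2 (Module.mem_annihilator.1 (hA hr) n)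
    rw [h'] at h
    exact (Submodule.mem_bot A).1 h
  have hanti : ∀ {m n : ℕ}, m ≤ n →
      (𝔪 ^ n • ⊤ : Submodule B X'.M) ≤ 𝔪 ^ m • ⊤ := by
    intro m n hmn
    exact Submodule.smul_mono_left (Ideal.pow_le_pow_right hmn)
  have hstab0 : ∀ n, N ≤ n → (𝔪 ^ N • ⊤ : Submodule B X'.M) ≤ 𝔪 ^ n • ⊤ := by
    intro n hn x' hx'
    obtain ⟨x, hx⟩ := hpro.dense n x'
    have h5 : ι x ∈ (𝔪 ^ N • ⊤ : Submodule B X'.M) := by
      have : ι x = x' - (x' - ι x) := by abel
      rw [this]
      exact Submodule.sub_mem _ hx' (hanti hn hx)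
    have h6 := hzero x h5
    rw [h6, map_zero, sub_zero] at hx
    exact hx
  -- stability
  have hst : ∀ x ∈ (𝔪 ^ N • ⊤ : Submodule B X'.M), X'.C x ∈ (𝔪 ^ N • ⊤ : Submodule B X'.M) := by
    set J : Ideal B := Ideal.span {c | ∃ b ∈ 𝔪 ^ N, c = b ^ p} with hJ
    have hrad : 𝔪 ^ N ≤ J.radical := by
      intro b hb
      exact ⟨p, Ideal.subset_span ⟨b, hb, rfl⟩⟩
    obtain ⟨t, ht⟩ := J.exists_radical_pow_le_of_fg (IsNoetherian.noetherian _)
    have h5 : 𝔪 ^ (N * (t + 1)) ≤ J := by
      rw [pow_mul]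
      refine le_trans (Ideal.pow_le_pow_right (Nat.le_succ t)) ?_
      exact le_trans (Ideal.pow_right_mono hrad t) ht
    intro x hx
    have h6 : x ∈ (J • ⊤ : Submodule B X'.M) :=
      Submodule.smul_mono_left h5 (hstab0 (N * (t + 1)) (Nat.le_mul_of_pos_right N (Nat.succ_pos t)) hx)
    refine Submodule.smul_induction_on h6 ?_ ?_
    · intro r hr n _
      have h7 : ∀ r ∈ J, ∀ n : X'.M, X'.C (r • n) ∈ (𝔪 ^ N • ⊤ : Submodule B X'.M) := by
        intro r hr
        refine Submodule.span_induction (p := fun r _ => ∀ n : X'.M,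
          X'.C (r • n) ∈ (𝔪 ^ N • ⊤ : Submodule B X'.M)) ?_ ?_ ?_ ?_ hr
        · rintro _ ⟨b, hb, rfl⟩ n
          rw [X'.hC]
          exact Submodule.smul_mem_smul hb trivial
        · intro n
          rw [zero_smul, map_zero]
          exact Submodule.zero_mem _
        · intro a b _ _ ha hb n
          rw [add_smul, map_add]
          exact Submodule.add_mem _ (ha n) (hb n)
        · intro c a _ ha n
          rw [smul_eq_mul, mul_comm, mul_smul]
          exact ha _
      exact h7 r hr n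
    · intro a b ha hb
      rw [map_add]
      exact Submodule.add_mem _ ha hb
  set M0 : Submodule B X'.M := 𝔪 ^ N • ⊤ with hM0
  have hf0 : Module.Finite B (subC X' M0 hst).M := inferInstanceAs (Module.Finite B M0)
  have hf1 : Module.Finite B (quoC X' M0 hst).M := inferInstanceAs (Module.Finite B (X'.M ⧸ M0))
  have e1 : CMod.LP zs X' = CMod.LP zs (subC X' M0 hst) * CMod.LP zs (quoC X' M0 hst) := by
    refine h41 p B (subC X' M0 hst) X' (quoC X' M0 hst) M0.subtype M0.mkQ
      M0.injective_subtype M0.mkQ_surjective ?_ ?_ ?_ zs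
    · exact (Submodule.range_subtype M0).trans (Submodule.ker_mkQ M0).symm
    · intro v
      rfl
    · intro v
      rfl
  have e2 : CMod.LP zs (subC X' M0 hst) = 1 := by
    apply h42
    obtain ⟨e, he1, he2⟩ := Submodule.exists_sub_one_mem_and_smul_eq_zero_of_fg_of_le_smul 𝔪 M0
      (IsNoetherian.noetherian M0) (by
        have h5 := hstab0 (N + 1) (Nat.le_succ N)
        rw [pow_succ', mul_smul] at h5
        exact h5)
    have h6 : e ∈ Module.annihilator B (subC X' M0 hst).M := by
      rw [Module.mem_annihilator]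
      intro m
      exact Subtype.ext (he2 m.1 m.2)
    have h7 : Module.annihilator B X'.M ≤ Module.annihilator B (subC X' M0 hst).M := by
      intro r hr
      rw [Module.mem_annihilator] at hr ⊢
      intro m
      exact Subtype.ext (hr m.1)
    have h8 : 𝔪 ^ k ≤ Module.annihilator B (subC X' M0 hst).M ⊔ Ideal.span {z | z ∈ zs} :=
      le_trans hB (sup_le_sup_right h7 _)
    rw [eq_top_iff]
    have h9 : Ideal.span {e} ⊔ 𝔪 ^ k = ⊤ := by
      have h10 : Ideal.span {e} ⊔ 𝔪 = ⊤ := by
        rw [Ideal.eq_top_iff_one]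
        have : (1 : B) = e - (e - 1) := by ring
        rw [this]
        exact Ideal.sub_mem _ (Ideal.mem_sup_left (Ideal.mem_span_singleton_self e))
          (Ideal.mem_sup_right he1)
      exact Ideal.sup_pow_eq_top h10
    rw [← h9]
    refine sup_le ?_ h8
    rw [Ideal.span_le, Set.singleton_subset_iff]
    exact Ideal.mem_sup_left h6
  have e3 : CMod.LP zs (quoC X' M0 hst) = (quoC X' M0 hst).P := by
    apply h43
    intro z hz
    refine ⟨N, ?_⟩
    intro x
    obtain ⟨x, rfl⟩ := Submodule.Quotient.mk_surjective M0 x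
    show Submodule.Quotient.mk (z ^ N • x) = 0
    rw [Submodule.Quotient.mk_eq_zero]
    exact Submodule.smul_mem_smul (Ideal.pow_mem_pow (hzs z hz) N) trivial
  have e4 : (quoC X' M0 hst).P = X.P := by
    let q0 : X.M →+ (quoC X' M0 hst).M := (M0.mkQ.toAddMonoidHom).comp ι
    let q : X.M →ₗ[ZMod p] (quoC X' M0 hst).M := AddMonoidHom.toZModLinearMap p q0
    have hq : ∀ x, q x = M0.mkQ (ι x) := fun x => rfl
    have hex := h2 (ZMod p) PUnit X.M (quoC X' M0 hst).M 0 X.C (quoC X' M0 hst).C 0 q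
      (fun a b _ => Subsingleton.elim a b) ?_ ?_ (fun v => by simp) ?_ (h1 p A X)
    · obtain ⟨hn, -, h5⟩ := hex
      have h6 : PV (0 : Module.End (ZMod p) PUnit) ⊤ = 1 := by
        rw [← h3 (ZMod p) PUnit 0 ⊤ hn]
        intro v _
        exact ⟨0, Subsingleton.elim _ _⟩
      rw [h6, one_mul] at h5
      exact h5.symm
    · intro y
      obtain ⟨x', rfl⟩ := M0.mkQ_surjective y
      obtain ⟨x, hx⟩ := hpro.dense N x'
      refine ⟨x, ?_⟩
      rw [hq]
      have : M0.mkQ (x' - ι x) = 0 := by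
        rw [← LinearMap.mem_ker, Submodule.ker_mkQ]
        exact hx
      rw [map_sub, sub_eq_zero] at this
      exact this.symm
    · rw [LinearMap.range_zero]
      symm
      rw [LinearMap.ker_eq_bot']
      intro x hx
      have hx' : (M0.mkQ (ι x) : X'.M ⧸ M0) = 0 := hx
      exact hzero x ((Submodule.Quotient.mk_eq_zero M0).1 hx')
    · intro x
      rw [hq, hq, hcomm]
      rfl
  rw [e1, e2, e3, e4, one_mul]

end Pool.Agent.FrNE
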