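import Pool.Agent.Lib.MP_305fdd_al.Fr.N.E.Stm3

/-!
# MP_305fdd_al (`F_r`), nilpotence block, section E: [FrN E prok]
-/

set_option autoImplicit false

namespace Pool.Agent.FrNE

open Pool.Agent.FrN Pool.Agent.F2Ch

namespace prok

/-- Artin-Rees -/
lemma ar {R M : Type} [CommRing R] [AddCommGroup M] [Module R M] [IsNoetherianRing R]
    [Module.Finite R M] (I : Ideal R) (U : Submodule R M) (j : ℕ) :
    ∃ n : ℕ, ∀ x, x ∈ (I ^ n • ⊤ : Submodule R M) → x ∈ U → x ∈ I ^ j • U := by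
  obtain ⟨k, hk⟩ := I.exists_pow_inf_eq_pow_smul U
  refine ⟨j + k, fun x hx hU => ?_⟩
  have h1 : x ∈ (I ^ (j + k) • ⊤ ⊓ U : Submodule R M) := ⟨hx, hU⟩
  rw [hk (j + k) (by omega), Nat.add_sub_cancel] at h1
  exact Submodule.smul_mono le_rfl inf_le_right h1

lemma mem_sub {R M : Type} [CommRing R] [AddCommGroup M] [Module R M] (I : Ideal R)
    (U : Submodule R M) (x : U) : x ∈ (I • ⊤ : Submodule R U) ↔ (x : M) ∈ I • U := by
  have h : (I • ⊤ : Submodule R U).map U.subtype = I • U := by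
    rw [Submodule.map_smul'', Submodule.map_subtype_top]
  rw [← h]
  constructor
  · intro hx
    exact Submodule.mem_map_of_mem (f := U.subtype) hx
  · rintro ⟨z, hz, hzx⟩
    have : z = x := Subtype.ext hzx
    rw [← this]; exact hz

lemma mem_quo {R M : Type} [CommRing R] [AddCommGroup M] [Module R M] (I : Ideal R)
    (U : Submodule R M) (x : M) : U.mkQ x ∈ (I • ⊤ : Submodule R (M ⧸ U)) ↔
      ∃ z ∈ (I • ⊤ : Submodule R M), x - z ∈ U := by
  have h : (I • ⊤ : Submodule R M).map U.mkQ = (I • ⊤ : Submodule R (M ⧸ U)) := by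
    rw [Submodule.map_smul'', Submodule.map_top, Submodule.range_mkQ]
  rw [← h]
  constructor
  · rintro ⟨z, hz, hzx⟩
    refine ⟨z, hz, ?_⟩
    rw [← Submodule.Quotient.eq]
    exact hzx.symm
  · rintro ⟨z, hz, hzx⟩
    refine ⟨z, hz, ?_⟩
    rw [← Submodule.Quotient.eq] at hzx
    exact hzx.symm

variable {A B : Type} [CommRing A] [CommRing B] {φ : A →+* B} {𝔞 : Ideal A} {𝔪 : Ideal B}
  {M M' : Type} [AddCommGroup M] [Module A M] [AddCommGroup M'] [Module B M'] {ι : M →+ M'}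

lemma img (hm : 𝔞.map φ ≤ 𝔪) (hι : Pro φ 𝔞 𝔪 ι) (j : ℕ) (x : M)
    (hx : x ∈ (𝔞 ^ j • ⊤ : Submodule A M)) : ι x ∈ (𝔪 ^ j • ⊤ : Submodule B M') := by
  have hpow : ∀ r ∈ 𝔞 ^ j, φ r ∈ 𝔪 ^ j := by
    intro r hr
    have h1 : φ r ∈ (𝔞 ^ j).map φ := Ideal.mem_map_of_mem φ hr
    rw [Ideal.map_pow] at h1
    exact Ideal.pow_right_mono hm j h1
  refine Submodule.smul_induction_on hx ?_ ?_
  · intro r hr n _
    rw [hι.lin]
    exact Submodule.smul_mem_smul (hpow r hr) Submodule.mem_top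
  · intro x y hx hy
    rw [map_add]
    exact Submodule.add_mem _ hx hy

/-- the kernel part -/
lemma ker_part [IsNoetherianRing A] [IsNoetherianRing B] [Module.Finite A M] [Module.Finite B M']
    (hm : 𝔞.map φ ≤ 𝔪) (hι : Pro φ 𝔞 𝔪 ι) (y : A) (K : Submodule A M) (K' : Submodule B M')
    (memK : ∀ x, x ∈ K ↔ y • x = 0) (memK' : ∀ x, x ∈ K' ↔ φ y • x = 0) (κ : ↥K →+ ↥K')
    (hκ : ∀ x : ↥K, (κ x : M') = ι (x : M)) : Pro φ 𝔞 𝔪 κ := by
  refine ⟨fun a x => ?_, fun j x' => ?_, fun j => ?_⟩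
  · apply Subtype.ext
    rw [hκ]
    change ι (a • (x : M)) = φ a • (κ x : M')
    rw [hκ, hι.lin]
  · obtain ⟨k, hk⟩ := ar 𝔪 K' j
    obtain ⟨l, hl⟩ := ar 𝔞 (LinearMap.range (LinearMap.lsmul A M y)) k
    obtain ⟨N, hN⟩ := hι.top l
    obtain ⟨x, hx⟩ := hι.dense (max N k) x'
    have h1 : ι (y • x) ∈ (𝔪 ^ N • ⊤ : Submodule B M') := by
      have h2 : φ y • (x' : M') = 0 := (memK' _).mp x'.2
      have h3 : ι (y • x) = -(φ y • ((x' : M') - ι x)) := by
        rw [hι.lin, smul_sub, h2, zero_sub, neg_neg]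
      rw [h3]
      refine Submodule.neg_mem _ (Submodule.smul_mem _ _ ?_)
      exact Submodule.smul_mono_left (Ideal.pow_le_pow_right (le_max_left N k)) hx
    have h4 : y • x ∈ 𝔞 ^ k • LinearMap.range (LinearMap.lsmul A M y) :=
      hl _ (hN _ h1) ⟨x, rfl⟩
    rw [← Submodule.map_top, ← Submodule.map_smul''] at h4
    obtain ⟨x₁, hx₁, hx₁y⟩ := h4
    rw [LinearMap.lsmul_apply] at hx₁y
    have h5 : x - x₁ ∈ K := by
      rw [memK, smul_sub, hx₁y, sub_self]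
    refine ⟨⟨x - x₁, h5⟩, ?_⟩
    rw [mem_sub]
    apply hk
    · change (x' : M') - (κ ⟨x - x₁, h5⟩ : M') ∈ _
      rw [hκ]
      change (x' : M') - ι (x - x₁) ∈ _
      have e : (x' : M') - ι (x - x₁) = ((x' : M') - ι x) + ι x₁ := by
        rw [map_sub]; abel
      rw [e]
      refine Submodule.add_mem _ ?_ (img hm hι k x₁ hx₁)
      exact Submodule.smul_mono_left (Ideal.pow_le_pow_right (le_max_right N k)) hx
    · exact (x' - κ ⟨x - x₁, h5⟩).2
  · obtain ⟨k, hk⟩ := ar 𝔞 K j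
    obtain ⟨N, hN⟩ := hι.top k
    refine ⟨N, fun x hx => ?_⟩
    rw [mem_sub] at hx ⊢
    apply hk _ _ x.2
    apply hN
    rw [hκ] at hx
    exact Submodule.smul_mono le_rfl le_top hx

lemma ex_ker (hι : Pro φ 𝔞 𝔪 ι) (y : A) :
    ∃ κ : ↥(LinearMap.ker (LinearMap.lsmul A M y)) →+
      ↥(LinearMap.ker (LinearMap.lsmul B M' (φ y))), ∀ x, (κ x : M') = ι (x : M) := by
  have hmem : ∀ x : ↥(LinearMap.ker (LinearMap.lsmul A M y)), ι (x : M) ∈
      LinearMap.ker (LinearMap.lsmul B M' (φ y)) := by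
    intro x
    have hx : y • (x : M) = 0 := x.2
    rw [LinearMap.mem_ker, LinearMap.lsmul_apply, ← hι.lin, hx, map_zero]
  exact ⟨{ toFun := fun x => ⟨ι (x : M), hmem x⟩
           map_zero' := Subtype.ext (map_zero ι)
           map_add' := fun a b => Subtype.ext (map_add ι (a : M) (b : M)) }, fun x => rfl⟩

/-- the quotient part -/
lemma quo_part (hι : Pro φ 𝔞 𝔪 ι) (y : A)
    (κ : (M ⧸ LinearMap.range (LinearMap.lsmul A M y)) →+
      (M' ⧸ LinearMap.range (LinearMap.lsmul B M' (φ y))))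
    (hκ : ∀ x, κ ((LinearMap.range (LinearMap.lsmul A M y)).mkQ x) =
      (LinearMap.range (LinearMap.lsmul B M' (φ y))).mkQ (ι x)) : Pro φ 𝔞 𝔪 κ := by
  refine ⟨fun a q => ?_, fun j q' => ?_, fun j => ?_⟩
  · obtain ⟨x, rfl⟩ := Submodule.mkQ_surjective _ q
    rw [← map_smul, hκ, hκ, hι.lin, map_smul]
  · obtain ⟨x', rfl⟩ := Submodule.mkQ_surjective _ q'
    obtain ⟨x, hx⟩ := hι.dense j x'
    refine ⟨(LinearMap.range (LinearMap.lsmul A M y)).mkQ x, ?_⟩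
    rw [hκ, ← map_sub, mem_quo]
    exact ⟨_, hx, by rw [sub_self]; exact Submodule.zero_mem _⟩
  · obtain ⟨N, hN⟩ := hι.top j
    refine ⟨N, fun q hq => ?_⟩
    obtain ⟨x, rfl⟩ := Submodule.mkQ_surjective _ q
    rw [hκ, mem_quo] at hq
    obtain ⟨ν, hν, x', hx'⟩ := hq
    rw [LinearMap.lsmul_apply] at hx'
    obtain ⟨x₀, hx₀⟩ := hι.dense N x'
    rw [mem_quo]
    refine ⟨x - y • x₀, ?_, ⟨x₀, by rw [LinearMap.lsmul_apply]; abel⟩⟩
    apply hN
    have e : ι (x - y • x₀) = φ y • (x' - ι x₀) + ν := by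
      rw [map_sub, hι.lin, smul_sub, hx']
      abel
    rw [e]
    exact Submodule.add_mem _ (Submodule.smul_mem _ _ hx₀) hν

end prok

open prok in
theorem p_prok : S_prok := by
  intro p _ A B _ _ _ _ _ _ φ 𝔞 𝔪 hm X X' _ _ ι hι hC y
  refine ⟨?_, ?_⟩
  · obtain ⟨κ, hκ⟩ := ex_ker hι y
    exact ⟨κ, ker_part hm hι y _ _ (fun x => by rw [LinearMap.mem_ker, LinearMap.lsmul_apply])
      (fun x => by rw [LinearMap.mem_ker, LinearMap.lsmul_apply]) κ hκ, fun x => Subtype.ext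
      ((hκ ((X.kr y).C x)).trans ((hC x.1).trans (congrArg X'.C (hκ x).symm)))⟩
  · let ιl : X.M →ₛₗ[φ] X'.M :=
      { toFun := ι
        map_add' := ι.map_add
        map_smul' := hι.lin }
    have hle : LinearMap.range (LinearMap.lsmul A X.M y) ≤
        (LinearMap.range (LinearMap.lsmul B X'.M (φ y))).comap ιl := by
      rintro _ ⟨x, rfl⟩
      exact ⟨ι x, by rw [LinearMap.lsmul_apply, LinearMap.lsmul_apply]; exact (hι.lin y x).symm⟩
    let κ : (X.qt y).M →+ (X'.qt (φ y)).M :=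
      (Submodule.mapQ _ _ ιl hle).toAddMonoidHom
    have hκ : ∀ x, κ ((LinearMap.range (LinearMap.lsmul A X.M y)).mkQ x) =
      (LinearMap.range (LinearMap.lsmul B X'.M (φ y))).mkQ (ι x) := fun x => rfl
    refine ⟨κ, quo_part hι y κ hκ, fun q => ?_⟩
    obtain ⟨x, rfl⟩ := Submodule.mkQ_surjective _ q
    have e1 : (X.qt y).C ((LinearMap.range (LinearMap.lsmul A X.M y)).mkQ x) =
      (LinearMap.range (LinearMap.lsmul A X.M y)).mkQ (X.C (y ^ (p - 1) • x)) := rfl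
    have e2 : (X'.qt (φ y)).C ((LinearMap.range (LinearMap.lsmul B X'.M (φ y))).mkQ (ι x)) =
      (LinearMap.range (LinearMap.lsmul B X'.M (φ y))).mkQ (X'.C (φ y ^ (p - 1) • ι x)) := rfl
    refine (congrArg κ e1).trans ?_
    refine (hκ _).trans ?_
    rw [hκ]
    refine Eq.trans ?_ e2.symm
    rw [hC, hι.lin, map_pow]

end Pool.Agent.FrNE
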