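import Pool.Agent.Lib.MP_305fdd_al.Fr.N.E.Stm2

/-!
# MP_305fdd_al (`F_r`), nilpotence block, section E, part 2: trace functions at `h ^ [2] / det h`
(`S_sq`, helper11)
-/

set_option autoImplicit false

namespace Pool.Agent.FrNE.Sq

open MvPolynomial Matrix

theorem two_zero {C : Type} [CommRing C] [Algebra (ZMod 2) C] : (2 : C) = 0 := by
  have h : (2 : ZMod 2) = 0 := rfl
  have h2 : (2 : C) = algebraMap (ZMod 2) C 2 := (map_ofNat (algebraMap (ZMod 2) C) 2).symm
  rw [h2, h, map_zero]

/-- squaring as a ring homomorphism -/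
def sqh (C : Type) [CommRing C] [Algebra (ZMod 2) C] : C →+* C where
  toFun x := x ^ 2
  map_one' := one_pow 2
  map_mul' x y := mul_pow x y 2
  map_zero' := by simp
  map_add' x y := by
    rw [add_sq, two_zero]
    ring

theorem sqh_apply {C : Type} [CommRing C] [Algebra (ZMod 2) C] (x : C) : sqh C x = x ^ 2 := rfl

theorem val_mul {C : Type} [CommRing C] (A B : SpecialLinearGroup (Fin 2) C) :
    (A * B).1 = A.1 * B.1 := Matrix.SpecialLinearGroup.coe_mul A B

theorem val_inv {C : Type} [CommRing C] (A : SpecialLinearGroup (Fin 2) C) :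
    (A⁻¹).1 = A.1.adjugate := Matrix.SpecialLinearGroup.coe_inv A

theorem val_det {C : Type} [CommRing C] (A : SpecialLinearGroup (Fin 2) C) :
    A.1.det = 1 := A.2

variable {b : ℕ}

/-- the value of a letter at `h`: `h` or its adjugate -/
def lt {C : Type} [CommRing C] (h : Fin b → Matrix (Fin 2) (Fin 2) C) (x : Fin b × Bool) :
    Matrix (Fin 2) (Fin 2) C :=
  cond x.2 (h x.1) (h x.1).adjugate

/-- the value of a letter at `g` -/
def lg {C : Type} [CommRing C] (g : Fin b → SpecialLinearGroup (Fin 2) C) (x : Fin b × Bool) :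
    SpecialLinearGroup (Fin 2) C :=
  cond x.2 (g x.1) (g x.1)⁻¹

theorem lift_mk' {C : Type} [CommRing C] (g : Fin b → SpecialLinearGroup (Fin 2) C)
    (L : List (Fin b × Bool)) :
    FreeGroup.lift g (FreeGroup.mk L) = (L.map (lg g)).prod := FreeGroup.lift_mk

theorem letter {C : Type} [CommRing C] [Algebra (ZMod 2) C]
    (h : Fin b → Matrix (Fin 2) (Fin 2) C) (g : Fin b → SpecialLinearGroup (Fin 2) C)
    (H : ∀ i, (h i).det • (g i).1 = (h i).map fun x => x ^ 2) (x : Fin b × Bool) :
    (h x.1).det • (lg g x).1 = (sqh C).mapMatrix (lt h x) := by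
  obtain ⟨i, e⟩ := x
  have h1 : (h i).det • (g i).1 = (sqh C).mapMatrix (h i) := H i
  cases e with
  | true => exact h1
  | false =>
    have h2 : (sqh C).mapMatrix (h i).adjugate = ((sqh C).mapMatrix (h i)).adjugate :=
      RingHom.map_adjugate _ _
    simp only [lg, lt, cond_false]
    rw [h2, ← h1, Matrix.adjugate_smul, val_inv]
    simp

theorem word {C : Type} [CommRing C] [Algebra (ZMod 2) C]
    (h : Fin b → Matrix (Fin 2) (Fin 2) C) (g : Fin b → SpecialLinearGroup (Fin 2) C)
    (H : ∀ i, (h i).det • (g i).1 = (h i).map fun x => x ^ 2) (L : List (Fin b × Bool)) :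
    (L.map fun x => (h x.1).det).prod • ((L.map (lg g)).prod).1 =
      (sqh C).mapMatrix (L.map (lt h)).prod := by
  induction L with
  | nil => simp
  | cons x L ih =>
    rw [List.map_cons, List.prod_cons, List.map_cons, List.prod_cons, List.map_cons,
      List.prod_cons, map_mul, ← letter h g H x, ← ih, val_mul,
      Matrix.smul_mul, Matrix.mul_smul, smul_smul]

theorem word_trace {C : Type} [CommRing C] [Algebra (ZMod 2) C]
    (h : Fin b → Matrix (Fin 2) (Fin 2) C) (g : Fin b → SpecialLinearGroup (Fin 2) C)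
    (H : ∀ i, (h i).det • (g i).1 = (h i).map fun x => x ^ 2) (L : List (Fin b × Bool)) :
    (L.map fun x => (h x.1).det).prod * (FreeGroup.lift g (FreeGroup.mk L)).1.trace =
      ((L.map (lt h)).prod.trace) ^ 2 := by
  have := congrArg Matrix.trace (word h g H L)
  rw [Matrix.trace_smul, smul_eq_mul] at this
  rw [lift_mk', this, ← sqh_apply]
  simp [Matrix.trace, Matrix.diag]

/-- `adj h = 1 + tr v + v` for `h = 1 + v` -/
theorem adj_eq {C : Type} [CommRing C] [Algebra (ZMod 2) C] (h : Matrix (Fin 2) (Fin 2) C) :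
    h.adjugate = (1 + (h - 1).trace) • (1 : Matrix (Fin 2) (Fin 2) C) + (h - 1) := by
  have h2 : (2 : C) = 0 := two_zero
  ext i j
  fin_cases i <;> fin_cases j <;>
    simp [Matrix.adjugate_fin_two, Matrix.trace_fin_two, Matrix.smul_apply]
  · linear_combination (1 - h 0 0) * h2
  · linear_combination (- h 0 1) * h2
  · linear_combination (- h 1 0) * h2
  · linear_combination (1 - h 1 1) * h2

theorem det_eq {C : Type} [CommRing C] [Algebra (ZMod 2) C] (h : Matrix (Fin 2) (Fin 2) C) :
    h.det = 1 + (h - 1).trace + (h - 1).det := by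
  rw [Matrix.det_fin_two, Matrix.det_fin_two, Matrix.trace_fin_two]
  simp
  ring

/-- the polynomial for `det h_i` -/
noncomputable def Dp (i : Fin b) : MvPolynomial (Gn b) (ZMod 2) :=
  1 + X (Sum.inr [i]) + X (Sum.inl i)

theorem evm_Dp {C : Type} [CommRing C] [Algebra (ZMod 2) C]
    (h : Fin b → Matrix (Fin 2) (Fin 2) C) (i : Fin b) :
    evm (fun i => h i - 1) (Dp i) = (h i).det := by
  rw [Dp, evm, map_add, map_add, map_one, aeval_X, aeval_X, det_eq (h i)]
  simp

/-- the polynomial for the scalar part of a letter -/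
noncomputable def Cp (x : Fin b × Bool) : MvPolynomial (Gn b) (ZMod 2) :=
  cond x.2 1 (1 + X (Sum.inr [x.1]))

theorem lt_eq {C : Type} [CommRing C] [Algebra (ZMod 2) C]
    (h : Fin b → Matrix (Fin 2) (Fin 2) C) (x : Fin b × Bool) :
    lt h x = evm (fun i => h i - 1) (Cp x) • (1 : Matrix (Fin 2) (Fin 2) C) + (h x.1 - 1) := by
  obtain ⟨i, e⟩ := x
  cases e with
  | true => simp [lt, Cp]
  | false =>
    simp only [lt, Cp, cond_false]
    rw [adj_eq (h i), evm, map_add, map_one, aeval_X]
    simp

theorem exists_P (L : List (Fin b × Bool)) : ∀ M : List (Fin b),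
    ∃ P : MvPolynomial (Gn b) (ZMod 2), ∀ (C : Type) [CommRing C] [Algebra (ZMod 2) C]
      (h : Fin b → Matrix (Fin 2) (Fin 2) C),
      evm (fun i => h i - 1) P =
        ((M.map fun i => h i - 1).prod * (L.map (lt h)).prod).trace := by
  induction L with
  | nil =>
    intro M
    refine ⟨X (Sum.inr M), fun C _ _ h => ?_⟩
    rw [evm, aeval_X]
    simp
  | cons x L ih =>
    intro M
    obtain ⟨P1, h1⟩ := ih M
    obtain ⟨P2, h2⟩ := ih (M ++ [x.1])
    refine ⟨Cp x * P1 + P2, fun C _ _ h => ?_⟩
    rw [map_add, map_mul, h1 C h, h2 C h, List.map_cons, List.prod_cons, lt_eq h x,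
      List.map_append, List.prod_append]
    rw [Matrix.add_mul, Matrix.smul_mul, Matrix.one_mul, Matrix.mul_add, Matrix.mul_smul,
      Matrix.trace_add, Matrix.trace_smul, smul_eq_mul]
    simp [Matrix.mul_assoc]

/-- the statement proved by induction -/
def Good (f : MvPolynomial (FreeGroup (Fin b)) (ZMod 2)) (J : ℕ)
    (α : Finset (Fin b) → MvPolynomial (Gn b) (ZMod 2)) : Prop :=
  (∀ (C : Type) [CommRing C] [Algebra (ZMod 2) C] (h : Fin b → Matrix (Fin 2) (Fin 2) C)
    (g : Fin b → SpecialLinearGroup (Fin 2) C),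
    (∀ i, (h i).det • (g i).1 = (h i).map fun x => x ^ 2) →
    (∏ i, (h i).det) ^ (2 * J) * evf g f =
      ∑ S : Finset (Fin b), (∏ i ∈ S, (h i).det) * evm (fun i => h i - 1) (α S) ^ 2) ∧
  ∀ (C : Type) [CommRing C] [Algebra (ZMod 2) C] (g : Fin b → SpecialLinearGroup (Fin 2) C),
    evf g f = ∑ S : Finset (Fin b), evm (fun i => (g i).1 - 1) (α S)

/-- raising `J` -/
theorem Good.raise {f : MvPolynomial (FreeGroup (Fin b)) (ZMod 2)} {J : ℕ}
    {α : Finset (Fin b) → MvPolynomial (Gn b) (ZMod 2)} (H : Good f J α) (k : ℕ) :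
    Good f (J + k) fun S => (∏ i, Dp i) ^ k * α S := by
  constructor
  · intro C _ _ h g hg
    have e : (∏ i, (h i).det) ^ (2 * (J + k)) * evf g f =
        ((∏ i, (h i).det) ^ k) ^ 2 * ((∏ i, (h i).det) ^ (2 * J) * evf g f) := by ring
    rw [e, H.1 C h g hg, Finset.mul_sum]
    refine Finset.sum_congr rfl fun S _ => ?_
    rw [map_mul, map_pow, map_prod]
    simp only [evm_Dp]
    ring
  · intro C _ _ g
    rw [H.2 C g]
    refine Finset.sum_congr rfl fun S _ => ?_
    rw [map_mul, map_pow, map_prod]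
    simp only [evm_Dp (fun i => (g i).1), val_det, Finset.prod_const_one,
      one_pow, one_mul]

theorem Good.add {f f' : MvPolynomial (FreeGroup (Fin b)) (ZMod 2)} {J : ℕ}
    {α α' : Finset (Fin b) → MvPolynomial (Gn b) (ZMod 2)} (H : Good f J α)
    (H' : Good f' J α') : Good (f + f') J fun S => α S + α' S := by
  constructor
  · intro C _ _ h g hg
    rw [map_add, mul_add, H.1 C h g hg, H'.1 C h g hg, ← Finset.sum_add_distrib]
    refine Finset.sum_congr rfl fun S _ => ?_
    rw [map_add, add_sq, two_zero]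
    ring
  · intro C _ _ g
    rw [map_add, H.2 C g, H'.2 C g, ← Finset.sum_add_distrib]
    refine Finset.sum_congr rfl fun S _ => ?_
    rw [map_add]

theorem good_C (a : ZMod 2) : Good (C a : MvPolynomial (FreeGroup (Fin b)) (ZMod 2)) 0
    fun S => if S = ∅ then C a else 0 := by
  have ha : a ^ 2 = a := by
    revert a
    decide
  constructor
  · intro R _ _ h g hg
    rw [Finset.sum_eq_single ∅ (fun S _ hS => by simp [hS]) (fun h => absurd (Finset.mem_univ _) h)]
    rw [evf, evm]
    simp only [if_true, aeval_C, ← map_pow, ha]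
    simp
  · intro R _ _ g
    rw [Finset.sum_eq_single ∅ (fun S _ hS => by simp [hS]) (fun h => absurd (Finset.mem_univ _) h)]
    rw [evf, evm]
    simp only [if_true, aeval_C]

theorem list_prod {C : Type} [CommRing C] (d : Fin b → C) (L : List (Fin b × Bool)) :
    (L.map fun x => d x.1).prod = ∏ i, d i ^ (L.map Prod.fst).count i := by
  classical
  induction L with
  | nil => simp
  | cons x L ih =>
    rw [List.map_cons, List.prod_cons, ih, List.map_cons]
    have : ∀ i, d i ^ (List.count i (x.1 :: L.map Prod.fst)) =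
        (if x.1 = i then d i else 1) * d i ^ (L.map Prod.fst).count i := by
      intro i
      rw [List.count_cons]
      by_cases hi : x.1 = i
      · simp [hi, pow_succ, mul_comm]
      · simp [hi]
    simp_rw [this]
    rw [Finset.prod_mul_distrib, Finset.prod_ite_eq Finset.univ x.1 d]
    simp

/-- a single word -/
theorem exists_word (L : List (Fin b × Bool)) : ∃ (S₀ : Finset (Fin b))
    (Q : MvPolynomial (Gn b) (ZMod 2)),
    (∀ (C : Type) [CommRing C] [Algebra (ZMod 2) C] (h : Fin b → Matrix (Fin 2) (Fin 2) C)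
      (g : Fin b → SpecialLinearGroup (Fin 2) C),
      (∀ i, (h i).det • (g i).1 = (h i).map fun x => x ^ 2) →
      (∏ i, (h i).det) ^ (2 * L.length) * (FreeGroup.lift g (FreeGroup.mk L)).1.trace =
        (∏ i ∈ S₀, (h i).det) * evm (fun i => h i - 1) Q ^ 2) ∧
    ∀ (C : Type) [CommRing C] [Algebra (ZMod 2) C] (g : Fin b → SpecialLinearGroup (Fin 2) C),
      (FreeGroup.lift g (FreeGroup.mk L)).1.trace = evm (fun i => (g i).1 - 1) Q := by
  classical
  obtain ⟨P, hP⟩ := exists_P L []
  set m : Fin b → ℕ := fun i => 2 * L.length - (L.map Prod.fst).count i with hm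
  have hle : ∀ i, (L.map Prod.fst).count i ≤ 2 * L.length := fun i =>
    (List.count_le_length).trans (by rw [List.length_map]; omega)
  refine ⟨Finset.univ.filter fun i => m i % 2 = 1, (∏ i, Dp i ^ (m i / 2)) * P, ?_, ?_⟩
  · intro C _ _ h g hg
    have e1 : (∏ i, (h i).det) ^ (2 * L.length) =
        (∏ i, (h i).det ^ m i) * (L.map fun x => (h x.1).det).prod := by
      rw [list_prod (fun i => (h i).det), ← Finset.prod_mul_distrib, ← Finset.prod_pow]
      refine Finset.prod_congr rfl fun i _ => ?_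
      rw [← pow_add, hm]
      congr 1
      have := hle i
      simp only
      omega
    have e2 : ∏ i, (h i).det ^ m i = (∏ i ∈ Finset.univ.filter fun i => m i % 2 = 1, (h i).det) *
        (∏ i, (h i).det ^ (m i / 2)) ^ 2 := by
      rw [Finset.prod_filter, ← Finset.prod_pow, ← Finset.prod_mul_distrib]
      refine Finset.prod_congr rfl fun i _ => ?_
      rw [← pow_mul]
      rcases Nat.mod_two_eq_zero_or_one (m i) with h0 | h0
      · rw [if_neg (by omega), one_mul]
        congr 1
        omega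
      · rw [if_pos h0, ← pow_succ']
        congr 1
        omega
    rw [e1, mul_assoc, word_trace h g hg L, e2, map_mul, map_prod, hP C h]
    simp only [map_pow, evm_Dp, List.map_nil, List.prod_nil, Matrix.one_mul]
    ring
  · intro C _ _ g
    have hl : ∀ x : Fin b × Bool, lt (fun i => (g i).1) x = (lg g x).1 := by
      rintro ⟨i, e⟩
      cases e with
      | true => rfl
      | false => exact (val_inv (g i)).symm
    have hp : ∀ L : List (Fin b × Bool), (L.map (lt fun i => (g i).1)).prod =
        ((L.map (lg g)).prod).1 := by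
      intro L
      induction L with
      | nil => simp
      | cons x L ih =>
        rw [List.map_cons, List.prod_cons, List.map_cons, List.prod_cons, val_mul, ih, hl x]
    rw [map_mul, map_prod, hP C (fun i => (g i).1), lift_mk']
    simp only [map_pow, evm_Dp (fun i => (g i).1), val_det, one_pow,
      Finset.prod_const_one, List.map_nil, List.prod_nil, one_mul]
    rw [hp L]

theorem Good.mul_X {f : MvPolynomial (FreeGroup (Fin b)) (ZMod 2)} {J : ℕ}
    {α : Finset (Fin b) → MvPolynomial (Gn b) (ZMod 2)} (H : Good f J α)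
    (L : List (Fin b × Bool)) : ∃ α', Good (f * X (FreeGroup.mk L)) (J + L.length) α' := by
  classical
  obtain ⟨S₀, Q, h1, h2⟩ := exists_word L
  -- sum over `S` with `symmDiff S S₀ = S'`, i.e. `S = symmDiff S' S₀`
  have hinv : Function.Involutive fun S : Finset (Fin b) => symmDiff S S₀ := fun S => by
    simp only [symmDiff_symmDiff_cancel_right]
  have hprod : ∀ (C : Type) [CommRing C] (d : Fin b → C) (S : Finset (Fin b)),
      (∏ i ∈ S, d i) * ∏ i ∈ S₀, d i =
        (∏ i ∈ symmDiff S S₀, d i) * (∏ i ∈ S ∩ S₀, d i) ^ 2 := by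
    intro C _ d S
    have a1 : ∏ i ∈ S, d i = (∏ i ∈ S \ S₀, d i) * ∏ i ∈ S ∩ S₀, d i := by
      rw [mul_comm]
      exact (Finset.prod_inter_mul_prod_sdiff S S₀ d).symm
    have a2 : ∏ i ∈ S₀, d i = (∏ i ∈ S₀ \ S, d i) * ∏ i ∈ S ∩ S₀, d i := by
      rw [mul_comm, Finset.inter_comm]
      exact (Finset.prod_inter_mul_prod_sdiff S₀ S d).symm
    have a3 : ∏ i ∈ symmDiff S S₀, d i = (∏ i ∈ S \ S₀, d i) * ∏ i ∈ S₀ \ S, d i := by
      rw [symmDiff_def, Finset.sup_eq_union, Finset.prod_union]
      exact Finset.disjoint_left.2 fun x hx hx' =>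
        (Finset.mem_sdiff.1 hx').2 (Finset.mem_sdiff.1 hx).1
    rw [a1, a2, a3]
    ring
  refine ⟨fun S' => (∏ i ∈ symmDiff S' S₀ ∩ S₀, Dp i) * (α (symmDiff S' S₀) * Q), ?_, ?_⟩
  · intro C _ _ h g hg
    have e : (∏ i, (h i).det) ^ (2 * (J + L.length)) * evf g (f * X (FreeGroup.mk L)) =
        ((∏ i, (h i).det) ^ (2 * J) * evf g f) *
          ((∏ i, (h i).det) ^ (2 * L.length) * (FreeGroup.lift g (FreeGroup.mk L)).1.trace) := by
      rw [map_mul]
      have : evf g (X (FreeGroup.mk L)) = (FreeGroup.lift g (FreeGroup.mk L)).1.trace := by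
        rw [evf, aeval_X]
      rw [this]
      ring
    rw [e, H.1 C h g hg, h1 C h g hg, Finset.sum_mul]
    refine Finset.sum_bij' (fun S _ => symmDiff S S₀) (fun S _ => symmDiff S S₀)
      (fun _ _ => Finset.mem_univ _) (fun _ _ => Finset.mem_univ _) (fun S _ => hinv S)
      (fun S _ => hinv S) fun S _ => ?_
    have hS : symmDiff (symmDiff S S₀) S₀ = S := hinv S
    simp only [hS, map_mul, map_prod, evm_Dp]
    have := hprod C (fun i => (h i).det) S
    linear_combination (evm (fun i => h i - 1) (α S)) ^ 2 * (evm (fun i => h i - 1) Q) ^ 2 * this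
  · intro C _ _ g
    have e : evf g (f * X (FreeGroup.mk L)) = evf g f * evm (fun i => (g i).1 - 1) Q := by
      rw [map_mul, ← h2 C g, evf, aeval_X]
    rw [e, H.2 C g, Finset.sum_mul]
    refine Finset.sum_bij' (fun S _ => symmDiff S S₀) (fun S _ => symmDiff S S₀)
      (fun _ _ => Finset.mem_univ _) (fun _ _ => Finset.mem_univ _) (fun S _ => hinv S)
      (fun S _ => hinv S) fun S _ => ?_
    have hS : symmDiff (symmDiff S S₀) S₀ = S := hinv S
    simp only [hS, map_mul, map_prod, evm_Dp (fun i => (g i).1), val_det, Finset.prod_const_one,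
      one_mul]

theorem exists_good (f : MvPolynomial (FreeGroup (Fin b)) (ZMod 2)) :
    ∃ J α, Good f J α := by
  induction f using MvPolynomial.induction_on with
  | C a => exact ⟨0, _, good_C a⟩
  | add p q hp hq =>
    obtain ⟨J, α, hp⟩ := hp
    obtain ⟨J', α', hq⟩ := hq
    have h1 := hp.raise J'
    have h2 := hq.raise J
    rw [Nat.add_comm J' J] at h2
    exact ⟨_, _, h1.add h2⟩
  | mul_X p w hp =>
    obtain ⟨J, α, hp⟩ := hp
    obtain ⟨α', h⟩ := hp.mul_X w.toWord
    rw [FreeGroup.mk_toWord] at h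
    exact ⟨_, _, h⟩

end Pool.Agent.FrNE.Sq

namespace Pool.Agent.FrNE

theorem p_sq : S_sq := by
  intro b f
  obtain ⟨J, α, h1, h2⟩ := Sq.exists_good f
  exact ⟨J, α, h1, h2⟩

end Pool.Agent.FrNE
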