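import Pool.Agent.Lib.MP_305fdd_al.Fr.N.E.Stm2

/-!
# MP_305fdd_al (`F_r`), nilpotence block, section E, part 2: the triangular system `S_tri`
(helper11)

Instead of the component map we use the derivations `∂_z ∂_y` of one index: they kill squares and
the determinants of the other indices.
-/

set_option autoImplicit false

namespace Pool.Agent.FrNE.Tri

open MvPolynomial Matrix

/-- all monomials have degree at least `N` -/
def Ord {σ : Type*} (N : ℕ) (P : MvPolynomial σ (ZMod 2)) : Prop :=
  ∀ d : σ →₀ ℕ, d.degree < N → coeff d P = 0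

theorem ord_iff {σ : Type*} (N : ℕ) (P : MvPolynomial σ (ZMod 2)) :
    Ord N P ↔ ∀ n < N, homogeneousComponent n P = 0 := by
  constructor
  · intro h n hn
    ext d
    rw [coeff_homogeneousComponent, coeff_zero]
    split_ifs with hd
    · exact h d (by omega)
    · rfl
  · intro h d hd
    have := congrArg (coeff d) (h d.degree hd)
    rwa [coeff_homogeneousComponent, if_pos rfl, coeff_zero] at this

theorem Ord.mono {σ : Type*} {N N' : ℕ} {P : MvPolynomial σ (ZMod 2)} (h : Ord N P)
    (hN : N' ≤ N) : Ord N' P := fun d hd => h d (by omega)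

theorem Ord.sub {σ : Type*} {N : ℕ} {P Q : MvPolynomial σ (ZMod 2)} (h : Ord N P)
    (h' : Ord N Q) : Ord N (P - Q) := fun d hd => by
  rw [coeff_sub, h d hd, h' d hd, sub_zero]

theorem Ord.mul_left {σ : Type*} {N : ℕ} (P : MvPolynomial σ (ZMod 2))
    {Q : MvPolynomial σ (ZMod 2)} (h' : Ord N Q) : Ord N (P * Q) := fun d hd => by
  classical
  rw [coeff_mul]
  refine Finset.sum_eq_zero fun x hx => ?_
  have hx' : x.1 + x.2 = d := Finset.HasAntidiagonal.mem_antidiagonal.1 hx
  have : x.2.degree ≤ d.degree := by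
    rw [← hx', map_add]
    omega
  rw [h' x.2 (by omega), mul_zero]

theorem Ord.pderiv {σ : Type*} {N : ℕ} (i : σ) {P : MvPolynomial σ (ZMod 2)}
    (h : Ord (N + 1) P) : Ord N (MvPolynomial.pderiv i P) := fun d hd => by
  rw [coeff_pderiv, h _ (by rw [map_add, Finsupp.degree_single]; omega)]
  simp

theorem Ord.of_sq {σ : Type*} {N n : ℕ} {P : MvPolynomial σ (ZMod 2)}
    (h : Ord N (P ^ 2)) (hn : 2 * n < N) : homogeneousComponent n P = 0 := by
  ext d
  rw [coeff_homogeneousComponent, coeff_zero]
  split_ifs with hd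
  · have h1 := h (2 • d) (by rw [map_nsmul, hd, smul_eq_mul]; exact hn)
    have : Fact (Nat.Prime 2) := ⟨Nat.prime_two⟩
    rwa [← MvPolynomial.expand_zmod, coeff_expand_smul _ two_ne_zero] at h1
  · rfl

theorem two_zero {σ : Type*} : (2 : MvPolynomial σ (ZMod 2)) = 0 := by
  have h : (2 : ZMod 2) = 0 := rfl
  have h2 : (2 : MvPolynomial σ (ZMod 2)) = C (2 : ZMod 2) := (map_ofNat C 2).symm
  rw [h2, h, map_zero]

theorem pderiv_sq {σ : Type*} (i : σ) (P : MvPolynomial σ (ZMod 2)) :
    MvPolynomial.pderiv i (P ^ 2) = 0 := by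
  rw [sq, Derivation.leibniz, smul_eq_mul, ← two_mul, two_zero, zero_mul]

theorem det_gh (b : ℕ) (i : Fin b) :
    (gh b i).det = (1 + X (i, 0, 0)) * (1 + X (i, 1, 1)) - X (i, 0, 1) * X (i, 1, 0) := by
  rw [gh, gv, Matrix.det_fin_two]
  simp [Matrix.add_apply]

theorem pderiv_det (b : ℕ) (i j : Fin b) (h : j ≠ i) (k l : Fin 2) :
    MvPolynomial.pderiv (i, k, l) (gh b j).det = 0 := by
  rw [det_gh]
  simp [Derivation.leibniz, pderiv_X, h]

theorem pderiv_prod (b : ℕ) (i : Fin b) (S : Finset (Fin b)) (h : i ∉ S) (k l : Fin 2) :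
    MvPolynomial.pderiv (i, k, l) (∏ j ∈ S, (gh b j).det) = 0 := by
  classical
  induction S using Finset.induction_on with
  | empty => simp
  | insert j S hj ih =>
    rw [Finset.prod_insert hj, Derivation.leibniz, ih (fun h' => h (Finset.mem_insert_of_mem h')),
      pderiv_det b i j (fun h' => h (h' ▸ Finset.mem_insert_self _ _)), smul_zero, smul_zero,
      add_zero]

/-- the partial sums -/
noncomputable def Th (b : ℕ) (U : Finset (Fin b)) (α : Finset (Fin b) → Vb b) : Vb b :=
  ∑ S ∈ U.powerset, (∏ i ∈ S, (gh b i).det) * α S ^ 2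

theorem pderiv_Th (b : ℕ) (U : Finset (Fin b)) (α : Finset (Fin b) → Vb b) (i : Fin b)
    (h : i ∉ U) (k l : Fin 2) : MvPolynomial.pderiv (i, k, l) (Th b U α) = 0 := by
  rw [Th, map_sum]
  refine Finset.sum_eq_zero fun S hS => ?_
  rw [Derivation.leibniz, pderiv_sq, pderiv_prod b i S
    (fun h' => h (Finset.mem_powerset.1 hS h')), smul_zero, smul_zero, add_zero]

theorem Th_insert (b : ℕ) (U : Finset (Fin b)) (α : Finset (Fin b) → Vb b) (i : Fin b)
    (h : i ∉ U) : Th b (insert i U) α =
      Th b U α + (gh b i).det * Th b U fun S => α (insert i S) := by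
  classical
  have e := Finset.sum_powerset_insert h fun S => (∏ j ∈ S, (gh b j).det) * α S ^ 2
  have e2 : ∑ S ∈ U.powerset, (∏ j ∈ insert i S, (gh b j).det) * α (insert i S) ^ 2 =
      (gh b i).det * ∑ S ∈ U.powerset, (∏ j ∈ S, (gh b j).det) * α (insert i S) ^ 2 := by
    rw [Finset.mul_sum]
    refine Finset.sum_congr rfl fun S hS => ?_
    have hiS : i ∉ S := fun h' => h (Finset.mem_powerset.1 hS h')
    rw [Finset.prod_insert hiS, mul_assoc]
  simp only [Th]
  rw [e, e2]

theorem main (b : ℕ) (U : Finset (Fin b)) : ∀ (α : Finset (Fin b) → Vb b) (N : ℕ),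
    Ord N (Th b U α) → ∀ S ⊆ U, ∀ n : ℕ, 2 * n + 2 * U.card < N →
      homogeneousComponent n (α S) = 0 := by
  classical
  induction U using Finset.induction_on with
  | empty =>
    intro α N h S hS n hn
    rw [Finset.subset_empty] at hS
    subst hS
    have : Th b ∅ α = α ∅ ^ 2 := by simp [Th]
    rw [this] at h
    exact h.of_sq (by simpa using hn)
  | insert i U hi ih =>
    intro α N h S hS n hn
    rw [Finset.card_insert_of_notMem hi] at hn
    obtain ⟨N', rfl⟩ : ∃ N', N = N' + 1 + 1 := ⟨N - 2, by omega⟩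
    rw [Th_insert b U α i hi] at h
    set T1 := Th b U α with hT1
    set T2 := Th b U fun S => α (insert i S) with hT2
    have hd : MvPolynomial.pderiv (i, 0, 1) (MvPolynomial.pderiv (i, 1, 0)
        (T1 + (gh b i).det * T2)) = - T2 := by
      have e1 : MvPolynomial.pderiv (i, (1 : Fin 2), (0 : Fin 2)) (gh b i).det =
          - X (i, 0, 1) := by
        rw [det_gh]
        simp [Derivation.leibniz, pderiv_X]
      rw [map_add, hT1, pderiv_Th b U α i hi, zero_add, Derivation.leibniz, e1, hT2,
        pderiv_Th b U _ i hi, smul_zero, zero_add, smul_eq_mul, Derivation.leibniz,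
        pderiv_Th b U _ i hi, smul_zero, add_zero, smul_eq_mul, map_neg, pderiv_X_self,
        mul_neg, mul_one]
    have h2 : Ord N' T2 := by
      have := (h.pderiv (i, 1, 0)).pderiv (i, 0, 1)
      rw [hd] at this
      intro d hd'
      have h3 := this d hd'
      rwa [coeff_neg, neg_eq_zero] at h3
    have h1 : Ord N' T1 := by
      have : T1 = (T1 + (gh b i).det * T2) - (gh b i).det * T2 := by ring
      rw [this]
      exact (h.mono (by omega)).sub (h2.mul_left _)
    by_cases hiS : i ∈ S
    · have := ih (fun S => α (insert i S)) N' h2 (S.erase i)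
        (by
          intro x hx
          rw [Finset.mem_erase] at hx
          exact (Finset.mem_insert.1 (hS hx.2)).resolve_left hx.1) n (by omega)
      simpa [Finset.insert_erase hiS] using this
    · exact ih α N' h1 S (fun x hx => (Finset.mem_insert.1 (hS hx)).resolve_left
        (fun h' => hiS (h' ▸ hx))) n (by omega)

end Pool.Agent.FrNE.Tri

namespace Pool.Agent.FrNE

open MvPolynomial Matrix

theorem p_tri : S_tri := by
  intro b N α h S n hn
  have h0 : Tri.Ord N (Tri.Th b Finset.univ α) := by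
    rw [Tri.ord_iff, Tri.Th, Finset.powerset_univ]
    exact h
  exact Tri.main b Finset.univ α N h0 S (Finset.subset_univ _) n (by simpa using hn)

end Pool.Agent.FrNE
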