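import Pool.Agent.Lib.MP_305fdd_al.Fr.N.A.Main
import Pool.Agent.Lib.MP_305fdd_al.Fr.N.E.E45
import Pool.Agent.Lib.MP_305fdd_al.Fr.N.E.p_bur
import Pool.Agent.Lib.MP_305fdd_al.Fr.N.E.p_fq
import Pool.Agent.Lib.MP_305fdd_al.Fr.N.E.p_e1
import Pool.Agent.Lib.MP_305fdd_al.Fr.N.E.p_chart
import Pool.Agent.Lib.MP_305fdd_al.Fr.N.E.p_cc
import Pool.Agent.Lib.MP_305fdd_al.Fr.N.E.p_sq
import Pool.Agent.Lib.MP_305fdd_al.Fr.N.E.p_tri
import Pool.Agent.Lib.MP_305fdd_al.Fr.N.E.p_e2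
import Pool.Agent.Lib.MP_305fdd_al.Fr.N.E.p_prok
import Pool.Agent.Lib.MP_305fdd_al.Fr.N.E.p_kp
import Pool.Agent.Lib.MP_305fdd_al.Fr.N.E.p_prob
import Pool.Agent.Lib.MP_305fdd_al.Fr.N.E.p_pro
import Pool.Agent.Lib.MP_305fdd_al.Fr.N.E.p_proM
import Pool.Agent.Lib.MP_305fdd_al.Fr.N.E.p_den
import Pool.Agent.Lib.MP_305fdd_al.Fr.N.E.p_bas
import Pool.Agent.Lib.MP_305fdd_al.Fr.N.E.p_nn
import Pool.Agent.Lib.MP_305fdd_al.Fr.N.E.p_cot
import Pool.Agent.Lib.MP_305fdd_al.Fr.N.E.p_b0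
import Pool.Agent.Lib.MP_305fdd_al.Fr.N.E.p_hch
import Pool.Agent.Lib.MP_305fdd_al.Fr.N.E.p_par
import Pool.Agent.Lib.MP_305fdd_al.Fr.N.E.p_e2f
import Pool.Agent.Lib.MP_305fdd_al.Fr.N.E.p_e1f
import Pool.Agent.Lib.MP_305fdd_al.Fr.N.E.p_k2
import Pool.Agent.Lib.MP_305fdd_al.Fr.N.E.p_e3

/-!
# MP_305fdd_al (`F_r`), nilpotence block, section E: all statements, without hypotheses
-/

set_option autoImplicit false

namespace Pool.Agent.FrNE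

open Pool.Agent.FrN Pool.Agent.FrNA

theorem t_bur : S_bur := p_bur

theorem t_fq : S_fq := p_fq

theorem t_e1 : S_e1 := p_e1 t_bur t_fq

theorem t_chart : S_chart := p_chart

theorem t_e2 : S_e2 := p_e2 p_cc p_sq p_tri

theorem t_kp : S_kp := p_kp t_nuc t_ex t_nil t_kos

theorem t_prob : S_prob := p_prob t_nuc t_ex t_nil t_kp

theorem t_pro : S_pro := p_pro p_prok t_prob

theorem t_proM : S_proM := p_proM

theorem t_den : S_den := p_den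

theorem t_bas : S_bas := p_bas

theorem t_nn : S_nn := p_nn

theorem t_cot : S_cot := p_cot t_bas t_nn

theorem t_b0 : S_b0 := p_b0

theorem t_hch : S_hch := p_hch t_bas t_nn t_cot

theorem t_par : S_par := p_par t_bas t_nn t_cot t_b0 t_hch

theorem t_e2f : S_e2f := p_e2f t_chart t_e2 t_nn t_par

theorem t_e1f : S_e1f := p_e1f t_e1 t_bas

theorem t_k2 : S_k2 := p_k2

theorem t_e3 : S_e3 := p_e3 t_bas t_nn t_e1f t_k2 t_hch

end Pool.Agent.FrNE
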