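import Pool.Agent.Lib.MP_305fdd_al.F2.GDefs

/-!
# MP_305fdd_al (`F_r`), nilpotence block, section E (the trivial point, `p = 2`), part 1:
pseudo-characters at the trivial point factor through finite `2`-groups. Statements and proofs.
-/

set_option autoImplicit false

namespace Pool.Agent.FrNE

open Pool.Agent.F2 (PC)

/-- [FrN E bur] Burnside's basis theorem.

Proof. If the subgroup `H` generated by the `x i` is not `⊤`, it is contained in a maximal subgroup `M` of the
finite 2-group `Q` (`IsCoatomic`); `M` is normal of index `2` (`IsPGroup.isNilpotent`,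
`Subgroup.NormalizerCondition.normal_of_coatom`, and a simple 2-group `Q ⧸ M` without proper subgroups has
order 2), so there is a surjective homomorphism `Q → Multiplicative (ZMod 2)` with kernel `M`, which kills
all `x i` and is not trivial. -/
def S_bur : Prop :=
  ∀ (Q : Type) [Group Q] [Finite Q], IsPGroup 2 Q → ∀ (I : Type) (x : I → Q),
    (∀ χ : Q →* Multiplicative (ZMod 2), (∀ i, χ (x i) = 1) → χ = 1) →
    Subgroup.closure (Set.range x) = ⊤

/-- [FrN E fq] A pseudo-character `T` of characteristic `2` modulo a power of the ideal of the trivial point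
(generated by all `T γ`) factors through a finite `2`-group.

Proof. `𝔪 = Ideal.span (Set.range T)`. `B` is generated by finitely many of the `T γ` (`CC.PChar.fg` with
`δ = 1`), so it is Noetherian; `B ⧸ 𝔪` has at most 2 elements, and `B ⧸ 𝔪 ^ a` is finite (induction: `𝔪 ^ j ⧸ 𝔪 ^ (j+1)`
is a finitely generated module over the finite ring `B ⧸ 𝔪`; or: every element of `B` is, modulo `𝔪 ^ a`, a
polynomial of degree `< a` in finitely many generators `T γ_i ∈ 𝔪` with coefficients in `F_2`). Let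
`N = {γ | ∀ δ, T (γ δ) - T δ ∈ 𝔪 ^ a}`: a normal subgroup (`T (u v) = T (v u)`), of finite index by
`CC.PChar.factor` for the pseudo-character `T mod 𝔪 ^ a` with values in a finite ring (if `π γ = 1` for the
finite quotient `π` through which it factors, then `γ ∈ N`). `Q = Γ ⧸ N`, `τ` induced by `T` (for `γ γ'⁻¹ ∈ N`
take `δ = γ'`). It is a 2-group: by `rel` and `comm`, `T (γ ^ (2 n) δ) = T (γ ^ n) T (γ ^ n δ) - T δ`, and
`T (γ ^ 2) = (T γ) ^ 2 - 2 = (T γ) ^ 2`, so `T (γ ^ (2 ^ k)) = (T γ) ^ (2 ^ k)` and (characteristic 2)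
`T (γ ^ (2 ^ (k+1)) δ) - T δ = (T γ) ^ (2 ^ k) T (γ ^ (2 ^ k) δ) ∈ 𝔪 ^ (2 ^ k) ⊆ 𝔪 ^ a` for `2 ^ k ≥ a`. -/
def S_fq : Prop :=
  ∀ (Γ : Type) [Group Γ] [Group.FG Γ] (B : Type) [CommRing B] [Algebra (ZMod 2) B] (T : Γ → B),
    PC T → Algebra.adjoin (ZMod 2) (Set.range T) = ⊤ → ∀ a : ℕ,
    Finite (B ⧸ (Ideal.span (Set.range T)) ^ a) ∧
    ∃ (Q : Type) (_ : Group Q) (_ : Finite Q) (π : Γ →* Q) (τ : Q → B ⧸ (Ideal.span (Set.range T)) ^ a),
      IsPGroup 2 Q ∧ Function.Surjective π ∧
      ∀ γ, Ideal.Quotient.mk ((Ideal.span (Set.range T)) ^ a) (T γ) = τ (π γ)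

/-- [FrN E e1] approximation of all elements by words in the `g i`. (Uses `S_bur`, `S_fq`.)

Proof. `Q, π, τ` from `S_fq`. A homomorphism `Q → Multiplicative (ZMod 2)` which kills all `π (g i)` gives one of
`Γ` which kills the `g i`, so it is trivial (`π` is onto). By `S_bur` the `π (g i)` generate `Q`, so `π γ = π (lift g w)` for
some `w` (`FreeGroup.lift` has range `closure (range g)`: `FreeGroup.range_lift_eq_closure`). Second statement: the set of
all `x ∈ B` which are congruent mod `𝔪 ^ a` to an element of the subalgebra generated by the `T (lift g w)` is a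
subalgebra which contains all `T γ`. -/
def S_e1 : Prop :=
  ∀ (Γ : Type) [Group Γ] [Group.FG Γ] (B : Type) [CommRing B] [Algebra (ZMod 2) B] (T : Γ → B),
    PC T → Algebra.adjoin (ZMod 2) (Set.range T) = ⊤ → ∀ (b : ℕ) (g : Fin b → Γ),
    (∀ χ : Γ →* Multiplicative (ZMod 2), (∀ i, χ (g i) = 1) → χ = 1) → ∀ a : ℕ,
    (∀ γ, ∃ w : FreeGroup (Fin b), T γ - T (FreeGroup.lift g w) ∈ (Ideal.span (Set.range T)) ^ a) ∧
    ∀ x : B, ∃ y ∈ Algebra.adjoin (ZMod 2) (Set.range fun w => T (FreeGroup.lift g w)),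
      x - y ∈ (Ideal.span (Set.range T)) ^ a

end Pool.Agent.FrNE
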