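import Pool.Agent.Lib.MP_305fdd_al.Fr.N.Int

/-!
# MP_305fdd_al (`F_r`), nilpotence block, section E (the trivial point), part 3: comparison of
Cartier modules over two rings with the same completion. Statements and proofs.

`φ : A → B` is a homomorphism of finitely generated `F_p`-algebras, `𝔞`, `𝔪` ideals (maximal ideals in
the application) such that `A` and `B` have the same completions. Result (`S_pro`): if `M → M'` is
bijective on the completions (`Pro`) then the alternating products `LP` agree.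
-/

set_option autoImplicit false

namespace Pool.Agent.FrNE

open Pool.Agent.FrN Pool.Agent.F2Ch

/-- `ι : M → M'` is semilinear along `φ : A → B` and bijective on the completions with respect to `𝔞`
and `𝔪`. -/
structure Pro {A B : Type} [CommRing A] [CommRing B] (φ : A →+* B) (𝔞 : Ideal A) (𝔪 : Ideal B)
    {M M' : Type} [AddCommGroup M] [Module A M] [AddCommGroup M'] [Module B M'] (ι : M →+ M') :
    Prop where
  lin : ∀ (a : A) (x : M), ι (a • x) = φ a • ι x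
  dense : ∀ (j : ℕ) (x' : M'), ∃ x, x' - ι x ∈ (𝔪 ^ j • ⊤ : Submodule B M')
  top : ∀ j : ℕ, ∃ N : ℕ, ∀ x, ι x ∈ (𝔪 ^ N • ⊤ : Submodule B M') → x ∈ (𝔞 ^ j • ⊤ : Submodule A M)

/-- [FrN E prok] kernels and cokernels of multiplications.

Proof. Only Artin-Rees (`Ideal.exists_pow_inf_eq_pow_smul`: for a submodule `U` of a finite module `M` over a
Noetherian ring, for all `j` there is `k` with `𝔞 ^ k M ∩ U ⊆ 𝔞 ^ j U`), `A`, `B` are Noetherian. Write `y` also for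
`φ y`; note `ι (𝔞 ^ j M) ⊆ 𝔪 ^ j M'`. QUOTIENT (`κ` induced by `ι`): `dense` is clear. `top`: let
`ι x = y x' + μ`, `μ ∈ 𝔪 ^ N M'` (`N` the number of `Pro.top` for `j`); `x' = ι x₀ + ν`, `ν ∈ 𝔪 ^ N M'`; so
`ι (x - y x₀) ∈ 𝔪 ^ N M'` and `x - y x₀ ∈ 𝔞 ^ j M`. KERNEL (`κ` the restriction): `top`: `x ∈ ker y`,
`ι x ∈ 𝔪 ^ N (ker y) ⊆ 𝔪 ^ N M'`, so `x ∈ 𝔞 ^ k M ∩ ker y ⊆ 𝔞 ^ j ker y`. `dense`: let `y x' = 0`, `k` large;
`x' = ι x + μ`, `μ ∈ 𝔪 ^ N M'`; `ι (y x) = - y μ ∈ 𝔪 ^ N M'`, so for large `N`, `y x ∈ 𝔞 ^ l M ∩ y M ⊆ y 𝔞 ^ k M`, `y x = y x₁`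
with `x₁ ∈ 𝔞 ^ k M`; `x - x₁ ∈ ker y` and `x' - ι (x - x₁) = μ + ι x₁ ∈ 𝔪 ^ k M' ∩ ker y ⊆ 𝔪 ^ j ker y` (`N ≥ k`). The
operators: `ι (C (y ^ (p-1) x)) = C (y ^ (p-1) ι x)`. -/
def S_prok : Prop :=
  ∀ (p : ℕ) [Fact p.Prime] (A B : Type) [CommRing A] [CommRing B] [Algebra (ZMod p) A]
    [Algebra (ZMod p) B] [IsNoetherianRing A] [IsNoetherianRing B] (φ : A →+* B) (𝔞 : Ideal A)
    (𝔪 : Ideal B), 𝔞.map φ ≤ 𝔪 → ∀ (X : CMod p A) (X' : CMod p B) [Module.Finite A X.M]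
    [Module.Finite B X'.M] (ι : X.M →+ X'.M), Pro φ 𝔞 𝔪 ι → (∀ x, ι (X.C x) = X'.C (ι x)) →
    ∀ y : A,
      (∃ κ : (X.kr y).M →+ (X'.kr (φ y)).M, Pro φ 𝔞 𝔪 κ ∧
        ∀ x, κ ((X.kr y).C x) = (X'.kr (φ y)).C (κ x)) ∧
      ∃ κ : (X.qt y).M →+ (X'.qt (φ y)).M, Pro φ 𝔞 𝔪 κ ∧
        ∀ x, κ ((X.qt y).C x) = (X'.qt (φ y)).C (κ x)

/-- [FrN E kp] three properties of the alternating products. (Uses `I_nuc`, `I_ex`, `I_nil`, `I_kos`.)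

Proof. (1) `KP zs` is multiplicative on exact sequences: induction on `zs`, `I_ex` for `zs = []` (nuclei exist
by `I_nuc`), and the twisted sequence (`tw`) is again exact and equivariant; `KP = LP` by `I_kos`. In particular a
bijective equivariant map gives equality (the other term is the zero module, `PU = 1` by `I_nil`).
(2) By induction on `zs` (all `X`): `LP (z :: zs) X = LP zs (X.kr z) / LP zs (X.qt z)`, and the annihilators of `X.kr z`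
and `X.qt z` contain `z` and the annihilator of `X.M`; for `zs = []` the module is zero and `P = 1` (`I_nil`).
(3) `LP = KP`; for `z` nilpotent on `X.M` and any `g` the operator of `X.tw (z ^ (p-1) * g)`-type modules is
nilpotent: `(C z ^ (p-1) g) ^ e = C ^ e (z ^ (p-1) g) ^ (1 + p + .. + p ^ (e-1))`, so their `P` is `1` (`I_nil`), and
by induction `KP zs (X.tw (z ^ (p-1))) = 1` (all twists which occur in it are of this form), so
`KP (z :: zs) X = KP zs X`. -/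
def S_kp : Prop :=
  (∀ (p : ℕ) [Fact p.Prime] (R : Type) [CommRing R] [Algebra (ZMod p) R]
    [Algebra.FiniteType (ZMod p) R] (X' X X'' : CMod p R) [Module.Finite R X'.M]
    [Module.Finite R X.M] [Module.Finite R X''.M] (i : X'.M →ₗ[R] X.M) (q : X.M →ₗ[R] X''.M),
    Function.Injective i → Function.Surjective q → LinearMap.range i = LinearMap.ker q →
    (∀ v, i (X'.C v) = X.C (i v)) → (∀ v, q (X.C v) = X''.C (q v)) → ∀ zs : List R,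
    CMod.LP zs X = CMod.LP zs X' * CMod.LP zs X'') ∧
  (∀ (p : ℕ) [Fact p.Prime] (R : Type) [CommRing R] [Algebra (ZMod p) R]
    [Algebra.FiniteType (ZMod p) R] (X : CMod p R) [Module.Finite R X.M] (zs : List R),
    Module.annihilator R X.M ⊔ Ideal.span {z | z ∈ zs} = ⊤ → CMod.LP zs X = 1) ∧
  ∀ (p : ℕ) [Fact p.Prime] (R : Type) [CommRing R] [Algebra (ZMod p) R]
    [Algebra.FiniteType (ZMod p) R] (X : CMod p R) [Module.Finite R X.M] (zs : List R),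
    (∀ z ∈ zs, ∃ n : ℕ, ∀ x : X.M, z ^ n • x = 0) → CMod.LP zs X = X.P

/-- [FrN E prob] the base case. (Uses `I_nuc`, `I_ex`, `I_nil`, `S_kp`.)

Proof. Let `N` be the number of `Pro.top` for `j = k`: `ι x ∈ 𝔪 ^ N M'` implies `x ∈ 𝔞 ^ k M = 0`. For `x' ∈ 𝔪 ^ N M'` and
`n ≥ N` write `x' = ι x + μ`, `μ ∈ 𝔪 ^ n M'`; then `ι x ∈ 𝔪 ^ N M'`, `x = 0`, `x' ∈ 𝔪 ^ n M'`. So
`M'₀ := 𝔪 ^ N M' = 𝔪 ^ n M'` for all `n ≥ N`, and `M → M' / M'₀` is bijective. `M'₀` is `C`-stable: if `𝔪` is generated by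
`s` elements then `𝔪 ^ (p N + s (p-1)) ⊆ (ideal generated by the p-th powers of the generators) ^ N`, and
`C (z_1 ^ p ⋯ z_N ^ p x) = z_1 ⋯ z_N C x ∈ 𝔪 ^ N M'`. So there is an exact sequence of Cartier modules
`0 → M'₀ → X' → X'' → 0` (modules over `B`), and `LP zs X' = LP zs M'₀ * LP zs X''` (`S_kp`). `𝔪 M'₀ = M'₀`, so by
Nakayama there is `e ∈ B`, `e - 1 ∈ 𝔪`, `e M'₀ = 0`; the ideal `(e) + Ann M' + (zs)` contains `(e) + 𝔪 ^ k = ⊤`, so `LP zs M'₀ = 1`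
(`S_kp` (2)). All `z ∈ zs` are in `𝔪`, so nilpotent on `M''` (`𝔪 ^ N M'' = 0`), and `LP zs X'' = X''.P` (`S_kp` (3)).
`X''.P = PU X''.C ⊤ = PU X.C ⊤` because of the equivariant additive bijection `M → M''` (it is `ZMod p`-linear;
`I_ex` with `V'' = 0`, or directly). -/
def S_prob : Prop :=
  ∀ (p : ℕ) [Fact p.Prime] (A B : Type) [CommRing A] [CommRing B] [Algebra (ZMod p) A]
    [Algebra (ZMod p) B] [Algebra.FiniteType (ZMod p) A] [Algebra.FiniteType (ZMod p) B]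
    (φ : A →+* B) (𝔞 : Ideal A) (𝔪 : Ideal B), 𝔞.map φ ≤ 𝔪 → ∀ (X : CMod p A) (X' : CMod p B)
    [Module.Finite A X.M] [Module.Finite B X'.M] (ι : X.M →+ X'.M), Pro φ 𝔞 𝔪 ι →
    (∀ x, ι (X.C x) = X'.C (ι x)) → ∀ (zs : List B) (k : ℕ), (∀ z ∈ zs, z ∈ 𝔪) →
    𝔞 ^ k ≤ Module.annihilator A X.M →
    𝔪 ^ k ≤ Module.annihilator B X'.M ⊔ Ideal.span {z | z ∈ zs} →
    CMod.LP zs X' = X.P

/-- [FrN E pro] comparison of the alternating products. (Uses `S_prok`, `S_prob`.)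

Proof. Induction on `ys`, for all `X, X', ι`. `ys = []`: `S_prob`. Step: `LP (φ y :: ..) X' = LP .. (X'.kr (φ y)) /
LP .. (X'.qt (φ y))`, the same for `X`; `S_prok` gives the maps `κ`; the modules `X.kr y`, `X.qt y` are finite (Noetherian
rings) and killed by `y` and by the annihilator of `X.M`, so the hypothesis on `𝔞 ^ k` is inherited
(`Ann (X.kr y) ⊔ (ys) ⊇ Ann X.M ⊔ (y) ⊔ (ys)`), the same for `𝔪 ^ k`. -/
def S_pro : Prop :=
  ∀ (p : ℕ) [Fact p.Prime] (A B : Type) [CommRing A] [CommRing B] [Algebra (ZMod p) A]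
    [Algebra (ZMod p) B] [Algebra.FiniteType (ZMod p) A] [Algebra.FiniteType (ZMod p) B]
    (φ : A →+* B) (𝔞 : Ideal A) (𝔪 : Ideal B), 𝔞.map φ ≤ 𝔪 → ∀ (X : CMod p A) (X' : CMod p B)
    [Module.Finite A X.M] [Module.Finite B X'.M] (ι : X.M →+ X'.M), Pro φ 𝔞 𝔪 ι →
    (∀ x, ι (X.C x) = X'.C (ι x)) → ∀ (ys : List A) (zs : List B) (k : ℕ), (∀ z ∈ zs, z ∈ 𝔪) →
    𝔞 ^ k ≤ Module.annihilator A X.M ⊔ Ideal.span {y | y ∈ ys} →
    𝔪 ^ k ≤ Module.annihilator B X'.M ⊔ Ideal.span {z | z ∈ ys.map φ ++ zs} →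
    CMod.LP (ys.map φ ++ zs) X' = CMod.LP ys X

/-- [FrN E proM] the stable hulls of an element over `A` and over `B` form a pro-bijective pair.

Proof. `j` maps `M₀` into `M`: the set `{x ∈ K₀ | j x ∈ M}` is an `A`-submodule of `K₀` (`j a = φ a ∈ B`), `Φ₀`-stable
(`Φ (j x) = j (Φ₀ x)`), and contains `c`; use the minimality of `M₀`. So `ι` exists. `dense`: let
`Q = ⋂ n, (j M₀ + 𝔪 ^ n M)` (a subset of `M`). It is a `B`-submodule: for `b ∈ B`, `b = φ a + μ` with `μ ∈ 𝔪 ^ n` (`h1`), so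
`b j(x) = j (a x) + μ j(x)`. It contains `j c`. It is `Φ`-stable: let `x ∈ Q`, `n` given; if `𝔪` is generated by `s` elements
(`B` is Noetherian) and `l = p n + s (p-1)` then `𝔪 ^ l ⊆ (p-th powers of the generators) ^ n`, so
`Φ (𝔪 ^ l M) ⊆ 𝔪 ^ n M` (`Φ (z_1 ^ p ⋯ z_n ^ p x) = z_1 ⋯ z_n Φ x`, `Φ` additive); write `x = j x₀ + μ`, `μ ∈ 𝔪 ^ l M`; then
`Φ x = j (Φ₀ x₀) + Φ μ`. By minimality `M ≤ Q`. `top`: given `n`. `I = e M₀` is an ideal of `A`; Artin-Rees gives `n'` with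
`I ∩ 𝔞 ^ n' ⊆ 𝔞 ^ n I`, and `h2` gives `N` for `n'`. If `x ∈ M₀`, `j x ∈ 𝔪 ^ N M`, then `e x ∈ A` and
`φ (e x) = j (e x) ∈ 𝔪 ^ N (φ(e) M) ⊆ 𝔪 ^ N`, so `e x ∈ 𝔞 ^ n' ∩ I ⊆ 𝔞 ^ n e M₀`, and `x ∈ 𝔞 ^ n M₀` (`K₀` is a field, `e ≠ 0`). -/
def S_proM : Prop :=
  ∀ (p : ℕ) [Fact p.Prime] (K₀ K : Type) [Field K₀] [Field K] [Algebra (ZMod p) K₀]
    [Algebra (ZMod p) K] (j : K₀ →+* K) (A : Subalgebra (ZMod p) K₀) (B : Subalgebra (ZMod p) K)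
    (φ : A →+* B), A.FG → B.FG → (∀ a : A, (φ a : K) = j a) → ∀ (𝔞 : Ideal A) (𝔪 : Ideal B),
    𝔞.map φ ≤ 𝔪 →
    (∀ (n : ℕ) (x : B), ∃ a : A, x - φ a ∈ 𝔪 ^ n) →
    (∀ n : ℕ, ∃ N : ℕ, ∀ a : A, φ a ∈ 𝔪 ^ N → a ∈ 𝔞 ^ n) →
    ∀ (Φ₀ : K₀ → K₀) (Φ : K → K), IsPinv p Φ₀ → IsPinv p Φ → (∀ x, Φ (j x) = j (Φ₀ x)) →
    ∀ (c : K₀) (M₀ : Submodule A K₀) (M : Submodule B K),
    M₀.FG → Stb Φ₀ M₀ → c ∈ M₀ → (∀ Q : Submodule A K₀, Stb Φ₀ Q → c ∈ Q → M₀ ≤ Q) →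
    M.FG → Stb Φ M → j c ∈ M → (∀ Q : Submodule B K, Stb Φ Q → j c ∈ Q → M ≤ Q) →
    ∀ e : A, e ≠ 0 → (∀ x ∈ M₀, (e : K₀) * x ∈ A) → (∀ x ∈ M, j e * x ∈ B) →
    ∃ ι : M₀ →+ M, (∀ x : M₀, (ι x : K) = j x) ∧ Pro φ 𝔞 𝔪 ι

/-- [FrN E den] common denominators in `A`.

Proof. `M` is generated by finitely many elements of `K`, `K` is the field of fractions of `B`, so there is `b ∈ B`, `b ≠ 0`, with
`b M ⊆ B`. `b` is algebraic over `j K₀`: `P(b) = 0` for a polynomial `P ≠ 0` with coefficients in `j A` (clear denominators,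
`Frc A`), with constant coefficient `j e ≠ 0` (divide by a power of the variable), so `j e = b b'` with `b' ∈ B`
(`j A ⊆ B`). Then `j e M ⊆ B`. Multiply `e` by a denominator of the finitely generated `A`-module `M₀ ⊆ K₀ = Frac A`. -/
def S_den : Prop :=
  ∀ (p : ℕ) [Fact p.Prime] (K₀ K : Type) [Field K₀] [Field K] [Algebra (ZMod p) K₀]
    [Algebra (ZMod p) K] (j : K₀ →+* K) (A : Subalgebra (ZMod p) K₀) (B : Subalgebra (ZMod p) K),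
    Frc A → Frc B → (∀ a ∈ A, j a ∈ B) →
    (∀ x : K, ∃ P : Polynomial K₀, P ≠ 0 ∧ Polynomial.eval₂ j x P = 0) →
    ∀ (M₀ : Submodule A K₀) (M : Submodule B K), M₀.FG → M.FG →
    ∃ e : A, e ≠ 0 ∧ (∀ x ∈ M₀, (e : K₀) * x ∈ A) ∧ ∀ x ∈ M, j e * x ∈ B

end Pool.Agent.FrNE
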