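import Pool.Agent.Lib.MP_305fdd_al.Fr.N.Int
import Pool.Agent.Lib.MP_305fdd_al.Fr.N.B.Chart
import Pool.Agent.Lib.MP_305fdd_al.Fr.N.E.Stm1
import Pool.Agent.Lib.MP_305fdd_al.Fr.N.E.Stm2

/-!
# MP_305fdd_al (`F_r`), nilpotence block, section E (the trivial point, `p = 2`), part 4: the rings `O`
and `B` of the class `H(b)` at the trivial representation. Statements and proofs.

`nn 2 ρ` is the ideal of `O = OO 2 ρ` generated by the entries of all `ρ γ - 1`,
`𝔪 = Ideal.span (Set.range (bT 2 T))`. `g : Fin b → Γ` are elements such that a homomorphism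
`Γ → F_2` which kills all `g i` is trivial; `uu 2 ρ g (i, l)`, `l : Fin 3`, are the entries `a - 1, b, c`
of `ρ (g i) = ((a, b), (c, d))`.
-/

set_option autoImplicit false

namespace Pool.Agent.FrNE

open Pool.Agent.FrN Pool.Agent.F2Ch Pool.Agent.F2RF
open Pool.Agent.F2 (PC)

section defs

variable {Γ F : Type} [Group Γ] [Field F]

/-- the entries as elements of `OO` -/
def ent (p : ℕ) [Algebra (ZMod p) F] (ρ : Γ →* Matrix.SpecialLinearGroup (Fin 2) F) (g : Γ)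
    (i j : Fin 2) : OO p ρ := ⟨(ρ g).1 i j, mem_OO ρ g i j⟩

/-- the ideal of the trivial representation -/
def nn (p : ℕ) [Algebra (ZMod p) F] (ρ : Γ →* Matrix.SpecialLinearGroup (Fin 2) F) :
    Ideal (OO p ρ) :=
  Ideal.span {x | ∃ (g : Γ) (i j : Fin 2),
    x = ent p ρ g i j - (1 : Matrix (Fin 2) (Fin 2) (OO p ρ)) i j}

/-- the entries `a - 1, b, c` of `ρ (g i)` -/
def uu (p : ℕ) [Algebra (ZMod p) F] (ρ : Γ →* Matrix.SpecialLinearGroup (Fin 2) F) {b : ℕ}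
    (g : Fin b → Γ) (s : Fin b × Fin 3) : OO p ρ :=
  ![ent p ρ (g s.1) 0 0 - 1, ent p ρ (g s.1) 0 1, ent p ρ (g s.1) 1 0] s.2

/-- homomorphisms to `F_2` are determined by the values on the `g i` -/
def Chi {b : ℕ} (g : Fin b → Γ) : Prop :=
  ∀ χ : Γ →* Multiplicative (ZMod 2), (∀ i, χ (g i) = 1) → χ = 1

end defs

/-- [FrN E bas] basic properties of the class `H(b)`.

Proof. Pseudo-character: `algebraMap K F` is injective and `algebraMap K F (T g) = tr ρ(g)`; `tr 1 = 2`,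
`tr (x y) = tr (y x)`, `tr (x y) + tr (x y⁻¹) = tr x tr y` in `SL_2(F)`. `adjoin (range (bT p T)) = ⊤`: every element of
`BB p T = adjoin (range T)` (`Algebra.adjoin_induction` on the subtype, or `Algebra.adjoin_range...`/`Subalgebra.map`
injectivity of the inclusion). `B` finitely generated: `CC.PChar.fg` with `δ = 1` (see `p_fq`, where the same is done), or
from the finitely many products of distinct generators; and `(BB p T).FG ↔ Algebra.FiniteType` (`Subalgebra.fg_top`). `O`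
finitely generated: let `S` be a finite set of generators of `Γ` (`HB.fg`), then the entries of `ρ s`, `s ∈ S`, generate: the set of all
`g` such that all entries of `ρ g` are in the subalgebra generated by them is a subgroup (inverse: adjugate). -/
def S_bas : Prop :=
  ∀ (p : ℕ) [Fact p.Prime] (b : ℕ) (Γ K F : Type) [Group Γ] [Field K] [Field F]
    [Algebra (ZMod p) K] [Algebra (ZMod p) F] [Algebra K F] (T : Γ → K)
    (ρ : Γ →* Matrix.SpecialLinearGroup (Fin 2) F), HB p b Γ K F T ρ →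
    PC (bT p T) ∧ Algebra.adjoin (ZMod p) (Set.range (bT p T)) = ⊤ ∧ (BB p T).FG ∧ (OO p ρ).FG

/-- [FrN E nn] the trivial representation.

Proof. `HB.pts` for `κ = ZMod 2` and the trivial homomorphism gives `φ : O → ZMod 2` with `φ (ρ γ)_ij = δ_ij`. So `φ` kills the
generators of `nn` and `nn ≠ ⊤` (`1 ∉ nn`). Every `x ∈ O` satisfies `x ∈ nn` or `x - 1 ∈ nn` (adjoin induction: the
entries, the constants `0, 1`, sums and products; `2 = 0`), so `nn` is maximal. For `γ ∈ Γ` the element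
`T γ` of `F` is `tr ρ(γ) = (ρ(γ)_00 - 1) + (ρ(γ)_11 - 1)` (`2 = 0`), in `nn`. So if `x ∈ 𝔪 ^ n`, then the image of `x` in `F` is an
element `y` of `O` and `y ∈ nn ^ n`: there is a ring homomorphism `ψ : B → O` (the restriction of `algebraMap K F`) and
`𝔪.map ψ ≤ nn`. If `1 ∈ 𝔪` then `1 ∈ nn`; every `x ∈ B` is congruent to `0` or `1` modulo `𝔪` (adjoin induction), so
`𝔪` is maximal. -/
def S_nn : Prop :=
  ∀ (b : ℕ) (Γ K F : Type) [Group Γ] [Field K] [Field F]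
    [Algebra (ZMod 2) K] [Algebra (ZMod 2) F] [Algebra K F] (T : Γ → K)
    (ρ : Γ →* Matrix.SpecialLinearGroup (Fin 2) F), HB 2 b Γ K F T ρ →
    (nn 2 ρ).IsMaximal ∧ (∀ x : OO 2 ρ, x ∈ nn 2 ρ ∨ x - 1 ∈ nn 2 ρ) ∧
    (Ideal.span (Set.range (bT 2 T))).IsMaximal ∧
    ∀ (n : ℕ) (x : BB 2 T), x ∈ (Ideal.span (Set.range (bT 2 T))) ^ n →
      ∃ y : OO 2 ρ, (y : F) = algebraMap K F x ∧ y ∈ nn 2 ρ ^ n

/-- [FrN E cot] the `3 b` elements `uu` generate the ideal `nn` locally. (Uses `S_bas`, `S_nn`.)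

Proof. `uu s ∈ nn` is clear (the entries of `ρ(g) - 1`). Let `I = Ideal.span (range uu) ⊔ nn ^ 2`. CLAIM `nn ≤ I`. Fix `i, j`.
The map `c : Γ → O ⧸ I`, `c γ = (ρ(γ) - 1)_ij mod I`, satisfies `c (γ δ) = c γ + c δ`, because
`ρ(γ δ) - 1 = (ρ γ - 1) + (ρ δ - 1) + (ρ γ - 1)(ρ δ - 1)`. `O ⧸ I` is a vector space over `ZMod 2`; if `c γ ≠ 0` for some `γ`
then there is a linear form `ℓ` with `ℓ (c γ) ≠ 0`, and `χ = ℓ ∘ c : Γ → F_2` is a homomorphism. It kills the `g i`: the entries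
`(0,0), (0,1), (1,0)` of `ρ (g i) - 1` are `uu`'s, and for `(1,1)`: `a d - b c = 1` gives
`(a - 1) + (d - 1) + (a - 1)(d - 1) = b c`, so `d - 1 ∈ I`. By `Chi g`, `χ = 1`, a contradiction. So all generators of `nn` are in `I`.
NAKAYAMA: `O` is Noetherian (`S_bas`). The finitely generated module `N = (nn ⊔ (uu)) / (uu)` satisfies `N ≤ nn • N`, so there is
`h` with `h - 1 ∈ nn` and `h N = 0` (`Submodule.exists_sub_one_mem_and_smul_eq_zero_of_fg_of_le_smul`), i.e.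
`h z ∈ (uu)` for all `z ∈ nn`; `h ∉ nn` as `1 ∉ nn`. -/
def S_cot : Prop :=
  ∀ (b : ℕ) (Γ K F : Type) [Group Γ] [Field K] [Field F]
    [Algebra (ZMod 2) K] [Algebra (ZMod 2) F] [Algebra K F] (T : Γ → K)
    (ρ : Γ →* Matrix.SpecialLinearGroup (Fin 2) F), HB 2 b Γ K F T ρ → ∀ g : Fin b → Γ, Chi g →
    (∀ s, uu 2 ρ g s ∈ nn 2 ρ) ∧
    ∃ h : OO 2 ρ, h ∉ nn 2 ρ ∧ ∀ z ∈ nn 2 ρ, h * z ∈ Ideal.span (Set.range (uu 2 ρ g))

/-- [FrN E b0] polynomials in the coordinates of a chart which have high order at the maximal ideal.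

Proof. Let `Cht` hold with `h ∉ m`. (1) For all `k` there is `l` such that `z ∈ m ^ l` implies `h π_a(z) ∈ m ^ k` for all `a`: if `m`
is generated by `s` elements (`Z` is Noetherian) and `l = p k + s (p - 1)` then `m ^ l` is generated, as an ideal, by products
`c_1 ^ p ⋯ c_k ^ p` with `c_i ∈ m` (pigeonhole), so `z = ∑ (c ^ p) z'` with `c ∈ m ^ k`, `z' ∈ Z`, `π_a(z) = ∑ c π_a(z')`, `h π_a(z') ∈ Z`
(`Cht.st`). (2) For `P ∈ F_p[X]` write `P = ∑_a P_a ^ p X ^ a`, `a ∈ [0, p)^N` (coefficients in `F_p`;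
`F2TF.comp`: `coeff w P_a = coeff (p w + a) P`), so `P(y) = ∑ P_a(y) ^ p y ^ a` and `π_a (P(y)) = P_a(y)` by `Cht.mb.pb.uniq`.
(3) Claim for `k = 1`: `N' = 1`: `P(y) ≡ P(0)` mod `m` (`y i ∈ m`), so `P(0) ∈ m ∩ F_p = 0` and `P ∈ (X)`. (4) If the
claim holds for `k ≥ 1` with `N'`, it holds for `p k` with the `l` of (1) for `N'`: `P(y) ∈ m ^ l` implies `h P_a(y) ∈ m ^ N'`, hence
`P_a(y) ∈ m ^ N'` (`h ∉ m`, `m` maximal: `1 - h h' ∈ m`, so `(1 - h h') ^ N' ∈ m ^ N'` and `1 - (1 - h h') ^ N'` is divisible by `h`), so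
`P_a ∈ (X) ^ k` and `P = ∑ P_a ^ p X ^ a ∈ (X) ^ (p k)`. As `p ≥ 2`, all `k` are reached (`(X) ^ k' ≤ (X) ^ k` for `k ≤ k'`). -/
def S_b0 : Prop :=
  ∀ (p : ℕ) [Fact p.Prime] (L : Type) [Field L] [Algebra (ZMod p) L] (Z : Subalgebra (ZMod p) L),
    Z.FG → ∀ (n : ℕ) (y : Fin n → Z) (h : Z) (π : (Fin n → Fin p) → L → L),
    Pool.Agent.FrB.Cht p Z (h : L) (fun i => (y i : L)) π → ∀ m : Ideal Z, m.IsMaximal → h ∉ m →
    (∀ i, y i ∈ m) → ∀ k : ℕ, ∃ N' : ℕ, ∀ P : MvPolynomial (Fin n) (ZMod p),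
      MvPolynomial.aeval y P ∈ m ^ N' →
      P ∈ (Ideal.span (Set.range MvPolynomial.X) : Ideal (MvPolynomial (Fin n) (ZMod p))) ^ k

/-- [FrN E hch] the elements `uu` are the coordinates of a chart. (Uses `S_bas`, `S_nn`, `S_cot`.)

Proof. `FrB.exists_chart` (file `Fr/N/B/Chart.lean`) for `Z = OO 2 ρ`, `m = nn 2 ρ`, `N = b * 3`, `y i = uu (finProdFinEquiv.symm i)`, and
`S_cot` (the range of `y` is the range of `uu`). It needs a `p`-basis of size `2 ^ (b * 3)`: `F2Ch.t_B4` (`F2/ChMain.lean`) for `k = ZMod 2`,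
`K = F`: `FracGen (ZMod 2) t` for a finite family `t` of generators of `O` (`S_bas`, `HB.fracF`), which gives `d` with
`Algebra.trdeg (ZMod 2) F = d`, so `d = 3 * b` (`HB.trF`), and `IsPB 2 _ _` with index type `Fin (2 ^ d)`. `CharP F 2` from the
algebra structure (`charP_of_injective_algebraMap`). -/
def S_hch : Prop :=
  ∀ (b : ℕ) (Γ K F : Type) [Group Γ] [Field K] [Field F]
    [Algebra (ZMod 2) K] [Algebra (ZMod 2) F] [Algebra K F] (T : Γ → K)
    (ρ : Γ →* Matrix.SpecialLinearGroup (Fin 2) F), HB 2 b Γ K F T ρ → ∀ g : Fin b → Γ, Chi g →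
    ∃ r : OO 2 ρ, r ∉ nn 2 ρ ∧ ∃ π : (Fin (b * 3) → Fin 2) → F → F,
      Pool.Agent.FrB.Cht 2 (OO 2 ρ) (r : F)
        (fun i => (uu 2 ρ g (finProdFinEquiv.symm i) : F)) π

/-- [FrN E par] orders at the trivial representation. (Uses `S_bas`, `S_nn`, `S_cot`, `S_b0`, `S_hch`.)

Proof. `S_b0` for the chart of `S_hch`, and `MvPolynomial.rename finProdFinEquiv` (`aeval y (rename e P) = aeval (y ∘ e) P`, the
equivalence of the polynomial rings maps `(X) ^ k` onto `(X) ^ k`). -/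
def S_par : Prop :=
  ∀ (b : ℕ) (Γ K F : Type) [Group Γ] [Field K] [Field F]
    [Algebra (ZMod 2) K] [Algebra (ZMod 2) F] [Algebra K F] (T : Γ → K)
    (ρ : Γ →* Matrix.SpecialLinearGroup (Fin 2) F), HB 2 b Γ K F T ρ → ∀ g : Fin b → Γ, Chi g →
    ∀ k : ℕ, ∃ N' : ℕ, ∀ P : MvPolynomial (Fin b × Fin 3) (ZMod 2),
      MvPolynomial.aeval (uu 2 ρ g) P ∈ nn 2 ρ ^ N' →
      P ∈ (Ideal.span (Set.range MvPolynomial.X) :
        Ideal (MvPolynomial (Fin b × Fin 3) (ZMod 2))) ^ k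

/-- [FrN E e2f] elements of `A` of high order at the trivial point of `B`. (Uses `S_chart`, `S_e2`, `S_nn`, `S_par`.)

Proof. `A = BB 2 (T ∘ lift g)`. Let `S_e2` give `N₁` for `b, a` and `S_par` give `N` for `N₁`. Let `x ∈ A`, `y ∈ B` the same element of
`K`, `y ∈ 𝔪 ^ N`. There is `f ∈ MvPolynomial (FreeGroup (Fin b)) (ZMod 2)` with `x = f(T (lift g w))_w`
(`A` is generated by the `T (lift g w)`). Let `ρ' i ∈ SL_2(O)`, `O = OO 2 ρ`, be `ρ (g i)` with its entries in `O`; the image in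
`F` of `evf ρ' f` (`evf` from `Stm2`, `C = O`) is the image of `x` (`HB.tr`). `S_chart` gives `M, P` with
`(∏ a_i) ^ M * evf ρ' f = aeval (uu) P` (`ch3 (ρ' i) l = uu (i, l)`). By `S_nn` the element `evf ρ' f` of `O` (the image of `y`) is in
`nn ^ N`, so `aeval uu P ∈ nn ^ N` and `P ∈ (X) ^ N₁`. By `S_e2` there is `f' ∈ (X) ^ a` with `evf _ f = evf _ f'` everywhere, in particular over
`F`; so `x` and the value of `f'` at the `T (lift g w)` have the same image in `F`, hence are equal, and `x` is the value of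
`f' ∈ (X) ^ a` at elements of `𝔪_A` (`x = aeval (bT 2 _) f'`), so `x ∈ 𝔪_A ^ a`. -/
def S_e2f : Prop :=
  ∀ (b : ℕ) (Γ K F : Type) [Group Γ] [Field K] [Field F]
    [Algebra (ZMod 2) K] [Algebra (ZMod 2) F] [Algebra K F] (T : Γ → K)
    (ρ : Γ →* Matrix.SpecialLinearGroup (Fin 2) F), HB 2 b Γ K F T ρ → ∀ g : Fin b → Γ, Chi g →
    ∀ a : ℕ, ∃ N : ℕ, ∀ (x : BB 2 fun w => T (FreeGroup.lift g w)) (y : BB 2 T), (y : K) = x →
      y ∈ (Ideal.span (Set.range (bT 2 T))) ^ N →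
      x ∈ (Ideal.span (Set.range (bT 2 fun w => T (FreeGroup.lift g w)))) ^ a

/-- [FrN E e1f] approximation of elements of `B` by elements of `A`. (Uses `S_e1`, `S_bas`.)

Proof. `S_e1` for the ring `B = BB 2 T` and `bT 2 T` (`S_bas`; `Group.FG Γ` is `HB.fg`), second statement; the elements of the subalgebra
of `B` generated by the `bT 2 T (lift g w)` are elements of `A` (adjoin induction). -/
def S_e1f : Prop :=
  ∀ (b : ℕ) (Γ K F : Type) [Group Γ] [Field K] [Field F]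
    [Algebra (ZMod 2) K] [Algebra (ZMod 2) F] [Algebra K F] (T : Γ → K)
    (ρ : Γ →* Matrix.SpecialLinearGroup (Fin 2) F), HB 2 b Γ K F T ρ → ∀ g : Fin b → Γ, Chi g →
    ∀ (n : ℕ) (y : BB 2 T), ∃ (x : BB 2 fun w => T (FreeGroup.lift g w)) (y' : BB 2 T),
      (y' : K) = x ∧ y - y' ∈ (Ideal.span (Set.range (bT 2 T))) ^ n

/-- [FrN E k2] a subring with dense image contains a `p`-basis, in the form of a spanning family.

Proof. (`A ≤ B` subalgebras of `K`, `B = A + m ^ l` for all `l`.) Let `S ⊆ B` be the set of all finite sums `∑ c_i ^ p a_i`, `c_i ∈ B`,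
`a_i ∈ A`: a subring of `B` containing `A` and all `p`-th powers. `B` is a finite `S`-module (it is finite over the ring of `p`-th powers of
its elements: if `B` is generated by `x_1, .., x_n` then the monomials with exponents `< p` generate it) and `S` is Noetherian
(it is a finitely generated algebra by Artin-Tate; or: `S` is a finite module over the Noetherian ring `B ^ p`, being a submodule of `B`).
Let `J` be the ideal of `S` generated by the `c ^ p`, `c ∈ m`. As `m` is finitely generated, `m ^ l ⊆ J B` for large `l`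
(pigeonhole), so `B = A + m ^ l ⊆ S + J B`. Nakayama for the finite `S`-module `B / S`: there is `s ∈ S` with
`s - 1 ∈ J` and `s B ⊆ S` (`Submodule.exists_sub_one_mem_and_smul_eq_zero_of_fg_of_le_smul`). `J ⊆ m`, so `s ≠ 0` (`1 ∉ m`). For `x ∈ K` let
`x = u / v`, `u, v ∈ B`, `v ≠ 0`; then `x = (s * (s u v ^ (p-1))) * (s ^ (p - 2)) / (s v) ^ p`, i.e. `x = (s ^ (p-1) * (s u v ^ (p-1))) / (s v) ^ p`, and
`s ^ (p-1) * (s u v ^ (p-1)) ∈ S` is a sum `∑ c_i ^ p a_i`; so `x = ∑ (c_i / (s v)) ^ p a_i`. -/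
def S_k2 : Prop :=
  ∀ (p : ℕ) [Fact p.Prime] (K : Type) [Field K] [Algebra (ZMod p) K]
    (A B : Subalgebra (ZMod p) K), B.FG → Frc B → A ≤ B → ∀ m : Ideal B, m ≠ ⊤ →
    (∀ (l : ℕ) (y : B), ∃ y' : B, (y' : K) ∈ A ∧ y - y' ∈ m ^ l) →
    ∀ x : K, ∃ (n : ℕ) (c a : Fin n → K), (∀ i, a i ∈ A) ∧ x = ∑ i, c i ^ p * a i

/-- [FrN E e3] `K` and `F` are generated over the squares by `A = BB 2 (T ∘ lift g)` and
`O_A = OO 2 (ρ ∘ lift g)`. (Uses `S_bas`, `S_nn`, `S_e1f`, `S_k2`, `S_hch`.)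

Proof. `K`: `S_k2` for `A ≤ B = BB 2 T`, `m = 𝔪` (`S_nn`: maximal, so `≠ ⊤`; `S_e1f`). `F`: by `S_hch` (`Cht.mb.pb.repr`) every
`x ∈ F` is `∑_a (π_a x) ^ 2 * monY y a`, and the monomials in the `uu` are in `O_A` (`uu (i, l)` is an entry of `ρ (g i) - 1`, `g i = lift g (of i)`);
sum over `Fin n` by an equivalence `(Fin (b * 3) → Fin 2) ≃ Fin n`. -/
def S_e3 : Prop :=
  ∀ (b : ℕ) (Γ K F : Type) [Group Γ] [Field K] [Field F]
    [Algebra (ZMod 2) K] [Algebra (ZMod 2) F] [Algebra K F] (T : Γ → K)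
    (ρ : Γ →* Matrix.SpecialLinearGroup (Fin 2) F), HB 2 b Γ K F T ρ → ∀ g : Fin b → Γ, Chi g →
    (∀ x : K, ∃ (n : ℕ) (c a : Fin n → K),
      (∀ i, a i ∈ BB 2 fun w => T (FreeGroup.lift g w)) ∧ x = ∑ i, c i ^ 2 * a i) ∧
    ∀ x : F, ∃ (n : ℕ) (c a : Fin n → F), (∀ i, a i ∈ OO 2 (ρ.comp (FreeGroup.lift g))) ∧
      x = ∑ i, c i ^ 2 * a i

end Pool.Agent.FrNE
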