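import Pool.Agent.Lib.MP_305fdd_al.Fr.N.E.Stm4
import Pool.Agent.Lib.MP_305fdd_al.F2.TF.P.a1

/-!
# MP_305fdd_al (`F_r`), nilpotence block, section E: piece `b0`
-/

set_option autoImplicit false

namespace Pool.Agent.FrNE

open Pool.Agent.FrN Pool.Agent.F2Ch Pool.Agent.F2RF
open Pool.Agent.FrB (Cht pb_pow_mul pb_add pb_zero pIdeal pIdeal_le charp_sub)
open Pool.Agent.F2TF (comp coeff_comp p_compcard_e p_compcard_ex p_compcard_dec p_compcard_pow
  p_compcard_e_apply)

section

variable {p : ℕ} [hp : Fact p.Prime] {L : Type} [Field L] [CharP L p] [Algebra (ZMod p) L]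

private theorem b0_cancel {Z : Type} [CommRing Z] (m : Ideal Z) [hm : m.IsMaximal] {h : Z}
    (hh : h ∉ m) (k : ℕ) (w : Z) (hw : h * w ∈ m ^ k) : w ∈ m ^ k := by
  obtain ⟨g, hg⟩ : ∃ g : Z, 1 - h * g ∈ m := by
    obtain ⟨u, hu⟩ := Ideal.Quotient.exists_inv (I := m) (a := Ideal.Quotient.mk m h) (by
      rwa [Ne, Ideal.Quotient.eq_zero_iff_mem])
    obtain ⟨g, rfl⟩ := Ideal.Quotient.mk_surjective u
    refine ⟨g, ?_⟩
    rw [← Ideal.Quotient.eq_zero_iff_mem, map_sub, map_mul, map_one, hu, sub_self]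
  obtain ⟨v, hv⟩ : h * g ∣ 1 - (1 - h * g) ^ k := by
    have h3 := sub_dvd_pow_sub_pow (1 : Z) (1 - h * g) k
    rwa [one_pow, sub_sub_cancel] at h3
  have h4 : w = g * v * (h * w) + w * (1 - h * g) ^ k := by
    have h5 : (1 - h * g) ^ k = 1 - h * g * v := by rw [← hv]; ring
    rw [h5]
    ring
  rw [h4]
  exact Ideal.add_mem _ (Ideal.mul_mem_left _ _ hw) (Ideal.mul_mem_left _ _
    (Ideal.pow_mem_pow hg k))

/-- coordinates of elements of a large power of `m` -/
private theorem b0_step {Z : Subalgebra (ZMod p) L} (hfg : Z.FG) {n : ℕ} {h : Z} {y : Fin n → L}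
    {π : (Fin n → Fin p) → L → L} (C : Cht p Z (h : L) y π) (m : Ideal Z) (hm : m.IsMaximal)
    (hh : h ∉ m) (k : ℕ) :
    ∃ l : ℕ, ∀ z ∈ m ^ l, ∀ (a : Fin n → Fin p) (w : Z), (w : L) = π a (z : L) → w ∈ m ^ k := by
  have hft : Algebra.FiniteType (ZMod p) Z := ⟨(Subalgebra.fg_top Z).2 hfg⟩
  have hno : IsNoetherianRing Z := Algebra.FiniteType.isNoetherianRing (ZMod p) Z
  have hcp : CharP Z p := charp_sub Z
  obtain ⟨l0, hl0⟩ := pIdeal_le p (m ^ k) ((isNoetherianRing_iff_ideal_fg Z).1 hno _)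
  refine ⟨k * l0, fun z hz a w hw => ?_⟩
  rw [pow_mul] at hz
  have hz' := hl0 hz
  have key : ∀ x : Z, x ∈ pIdeal p (m ^ k) → ∀ v : Z, ∃ u : Z, u ∈ m ^ k ∧
      (u : L) = h * π a ((v : L) * (x : L)) := by
    intro x hx
    unfold pIdeal at hx
    induction hx using Submodule.span_induction with
    | mem x hx =>
      obtain ⟨c, hc, rfl⟩ := hx
      intro v
      refine ⟨c * ⟨_, C.st a v v.2⟩, Ideal.mul_mem_right _ _ hc, ?_⟩
      push_cast
      have h1 : (v : L) * (c : L) ^ p = (c : L) ^ p * v := by ring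
      rw [h1, pb_pow_mul C.mb.pb]
      ring
    | zero =>
      intro v
      refine ⟨0, Ideal.zero_mem _, ?_⟩
      push_cast
      rw [mul_zero, pb_zero C.mb.pb, mul_zero]
    | add x x' _ _ hx hx' =>
      intro v
      obtain ⟨u, hu, h1⟩ := hx v
      obtain ⟨u', hu', h1'⟩ := hx' v
      refine ⟨u + u', Ideal.add_mem _ hu hu', ?_⟩
      push_cast
      rw [mul_add, pb_add C.mb.pb, mul_add, h1, h1']
    | smul r x _ hx =>
      intro v
      obtain ⟨u, hu, h1⟩ := hx (v * r)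
      refine ⟨u, hu, ?_⟩
      rw [h1, smul_eq_mul]
      push_cast
      rw [mul_assoc]
  obtain ⟨u, hu, h1⟩ := key z hz' 1
  have h2 : u = h * w := by
    apply Subtype.ext
    push_cast
    rw [h1, hw]
    push_cast
    rw [one_mul]
  rw [h2] at hu
  exact b0_cancel m hh k w hu

private theorem b0_coord {Z : Subalgebra (ZMod p) L} {n : ℕ} {h : L} (y : Fin n → Z)
    {π : (Fin n → Fin p) → L → L} (C : Cht p Z h (fun i => (y i : L)) π)
    (P : MvPolynomial (Fin n) (ZMod p)) (a : Fin n → Fin p) :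
    ((MvPolynomial.aeval y (comp (p_compcard_e a) P) : Z) : L) =
      π a ((MvPolynomial.aeval y P : Z) : L) := by
  have h1 : ((MvPolynomial.aeval y P : Z) : L) =
      ∑ α, ((MvPolynomial.aeval y (comp (p_compcard_e α) P) : Z) : L) ^ p *
        monY (p := p) (fun i => (y i : L)) α := by
    conv_lhs => rw [p_compcard_dec P]
    rw [map_sum]
    push_cast
    refine Finset.sum_congr rfl fun α _ => ?_
    rw [map_mul]
    push_cast
    rw [← p_compcard_pow, map_pow]
    push_cast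
    congr 1
    rw [MvPolynomial.aeval_monomial, map_one, one_mul, Finsupp.prod_fintype _ _ (by simp)]
    push_cast
    rfl
  rw [h1, C.mb.pb.uniq]

private theorem b0_main {Z : Subalgebra (ZMod p) L} (hfg : Z.FG) {n : ℕ} {h : Z} (y : Fin n → Z)
    {π : (Fin n → Fin p) → L → L} (C : Cht p Z (h : L) (fun i => (y i : L)) π) (m : Ideal Z)
    (hm : m.IsMaximal) (hh : h ∉ m) (hy : ∀ i, y i ∈ m) (k : ℕ) :
    ∃ N' : ℕ, ∀ P : MvPolynomial (Fin n) (ZMod p), MvPolynomial.aeval y P ∈ m ^ N' →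
      ∀ w : Fin n →₀ ℕ, w.degree < k → MvPolynomial.coeff w P = 0 := by
  induction k with
  | zero => exact ⟨0, fun P _ w hw => absurd hw (Nat.not_lt_zero _)⟩
  | succ k ih =>
    rcases Nat.eq_zero_or_pos k with hk | hk
    · subst hk
      refine ⟨1, fun P hP w hw => ?_⟩
      have hw0 : w = 0 := (Finsupp.degree_eq_zero_iff w).1 (by omega)
      rw [hw0]
      rw [pow_one] at hP
      have h1 : Ideal.Quotient.mkₐ (ZMod p) m (MvPolynomial.aeval y P) = 0 :=
        Ideal.Quotient.eq_zero_iff_mem.2 hP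
      have h2 : (fun i => Ideal.Quotient.mkₐ (ZMod p) m (y i)) = 0 := by
        funext i
        exact Ideal.Quotient.eq_zero_iff_mem.2 (hy i)
      rw [MvPolynomial.comp_aeval_apply, h2, MvPolynomial.aeval_zero] at h1
      have hnt : Nontrivial (Z ⧸ m) := Ideal.Quotient.nontrivial_iff.2 hm.ne_top
      exact (map_eq_zero_iff _ (algebraMap (ZMod p) (Z ⧸ m)).injective).1 h1
    · obtain ⟨N1, hN1⟩ := ih
      obtain ⟨l, hl⟩ := b0_step hfg C m hm hh N1
      refine ⟨l, fun P hP w hw => ?_⟩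
      obtain ⟨w', α, rfl⟩ := p_compcard_ex (p := p) w
      rw [← coeff_comp]
      refine hN1 _ (hl _ hP α _ (b0_coord y C P α)) w' ?_
      have h1 : (p • w' + p_compcard_e α).degree = p * w'.degree + (p_compcard_e α).degree := by
        rw [map_add, map_nsmul, smul_eq_mul]
      rw [h1] at hw
      have h2 := hp.out.two_le
      have h3 : 2 * w'.degree ≤ p * w'.degree := Nat.mul_le_mul_right _ h2
      omega

end

theorem p_b0 : S_b0 := by
  intro p hp L _ _ Z hfg n y h π C m hm hh hy k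
  have hcp : CharP L p := charP_of_injective_algebraMap (algebraMap (ZMod p) L).injective p
  obtain ⟨N', hN'⟩ := b0_main hfg y C m hm hh hy k
  refine ⟨N', fun P hP => ?_⟩
  exact (MvPolynomial.mem_pow_idealOfVars_iff' k P).2 (hN' P hP)

end Pool.Agent.FrNE
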