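import Pool.Agent.Lib.MP_305fdd_al.Fr.N.E.Stm2

/-!
# MP_305fdd_al (`F_r`), nilpotence block, section E: the statement `S_e2`.

Instead of a localisation we work in `C = Vb b ⧸ 𝔫 ^ N`, in which `det h_i` is a unit.
-/

set_option autoImplicit false

namespace Pool.Agent.FrNE

open MvPolynomial Matrix

noncomputable section

namespace E2

theorem two_eq_zero {C : Type} [CommRing C] [Algebra (ZMod 2) C] : (2 : C) = 0 := by
  have h : (algebraMap (ZMod 2) C) 2 = 2 := map_ofNat _ 2
  rw [← h, show (2 : ZMod 2) = 0 from rfl, map_zero]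

/-- specialisation -/
theorem evm_map {b : ℕ} {C C' : Type} [CommRing C] [Algebra (ZMod 2) C] [CommRing C']
    [Algebra (ZMod 2) C'] (τ : C →ₐ[ZMod 2] C') (v : Fin b → Matrix (Fin 2) (Fin 2) C)
    (P : MvPolynomial (Gn b) (ZMod 2)) :
    τ (evm v P) = evm (fun i => (v i).map τ) P := by
  have h : τ.comp (evm v) = evm (fun i => (v i).map τ) := by
    apply MvPolynomial.algHom_ext
    rintro (i | l)
    · have hd : τ (v i).det = ((v i).map τ).det := by
        have := (τ : C →+* C').map_det (v i)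
        simpa using this
      simpa [evm] using hd
    · have hp : ∀ l : List (Fin b), ((l.map v).prod).map τ =
          (l.map (fun i => (v i).map τ)).prod := by
        intro l
        induction l with
        | nil =>
          ext j k
          by_cases hjk : j = k
          · subst hjk; simp
          · simp [Matrix.one_apply, hjk]
        | cons x l ih =>
          rw [List.map_cons, List.prod_cons, List.map_cons, List.prod_cons, ← ih]
          ext j k
          simp [Matrix.mul_apply]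
      have ht : τ ((l.map v).prod).trace = (((l.map v).prod).map τ).trace := by
        simp [Matrix.trace_fin_two]
      rw [hp] at ht
      simpa [evm] using ht
  rw [← AlgHom.comp_apply, h]

/-- expansion of `g_w ∏ (g_i - 1)` -/
def L {b : ℕ} : List (Fin b) → FreeGroup (Fin b) → MvPolynomial (FreeGroup (Fin b)) (ZMod 2)
  | [], w => X w
  | i :: l, w => L l (w * FreeGroup.of i) + L l w

theorem L_mem {b : ℕ} : ∀ (l : List (Fin b)) (w : FreeGroup (Fin b)),
    L l w ∈ (Ideal.span (Set.range X) : Ideal (MvPolynomial (FreeGroup (Fin b)) (ZMod 2)))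
  | [], w => Ideal.subset_span ⟨w, rfl⟩
  | i :: l, w => Ideal.add_mem _ (L_mem l _) (L_mem l _)

theorem evf_L {b : ℕ} {C : Type} [CommRing C] [Algebra (ZMod 2) C]
    (g : Fin b → SpecialLinearGroup (Fin 2) C) :
    ∀ (l : List (Fin b)) (w : FreeGroup (Fin b)),
      evf g (L l w) = ((FreeGroup.lift g w).1 * (l.map fun i => (g i).1 - 1).prod).trace
  | [], w => by simp [L, evf]
  | i :: l, w => by
    rw [L, map_add, evf_L g l, evf_L g l, map_mul, FreeGroup.lift_apply_of, List.map_cons,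
      List.prod_cons]
    have h2 := two_eq_zero (C := C)
    set A := (FreeGroup.lift g w).1 with hA
    set P := (l.map fun i => (g i).1 - 1).prod with hP
    have hmul : (FreeGroup.lift g w * g i).1 = A * (g i).1 := rfl
    rw [hmul, sub_mul, one_mul, mul_sub, Matrix.trace_sub, mul_assoc]
    linear_combination (A * P).trace * h2

/-- the substitution `Ψ` -/
def Psi (b : ℕ) : MvPolynomial (Gn b) (ZMod 2) →ₐ[ZMod 2]
    MvPolynomial (FreeGroup (Fin b)) (ZMod 2) :=
  aeval (Sum.elim (fun i => X (FreeGroup.of i)) fun l => L l 1)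

theorem evf_Psi {b : ℕ} {C : Type} [CommRing C] [Algebra (ZMod 2) C]
    (g : Fin b → SpecialLinearGroup (Fin 2) C) (G : MvPolynomial (Gn b) (ZMod 2)) :
    evf g (Psi b G) = evm (fun i => (g i).1 - 1) G := by
  have h : (evf g).comp (Psi b) = evm (fun i => (g i).1 - 1) := by
    apply MvPolynomial.algHom_ext
    rintro (i | l)
    · have hd : ((g i).1 - 1).det = (g i).1.trace := by
        have h1 := (g i).2
        rw [Matrix.det_fin_two] at h1
        rw [Matrix.det_fin_two, Matrix.trace_fin_two]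
        simp only [Matrix.sub_apply, Matrix.one_apply_eq, ne_eq, zero_ne_one, not_false_eq_true,
          Matrix.one_apply_ne, one_ne_zero, sub_zero]
        linear_combination h1 + (1 - (g i).1 0 0 - (g i).1 1 1) * (two_eq_zero (C := C))
      simp [Psi, evf, evm, hd]
    · rw [AlgHom.comp_apply, Psi, aeval_X, Sum.elim_inr, evf_L]
      simp [evm]
  rw [← AlgHom.comp_apply, h]

theorem Psi_mem {b a : ℕ} {G : MvPolynomial (Gn b) (ZMod 2)}
    (hG : G ∈ (Ideal.span (Set.range X) : Ideal (MvPolynomial (Gn b) (ZMod 2))) ^ a) :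
    Psi b G ∈ (Ideal.span (Set.range X) :
      Ideal (MvPolynomial (FreeGroup (Fin b)) (ZMod 2))) ^ a := by
  have h1 := Ideal.mem_map_of_mem (Psi b) hG
  rw [Ideal.map_pow] at h1
  refine Ideal.pow_right_mono ?_ a h1
  rw [Ideal.map_span, Ideal.span_le]
  rintro _ ⟨_, ⟨v, rfl⟩, rfl⟩
  rcases v with i | l
  · have : Psi b (X (Sum.inl i)) = X (FreeGroup.of i) := by simp [Psi]
    rw [SetLike.mem_coe, this]
    exact Ideal.subset_span (Set.mem_range_self _)
  · have : Psi b (X (Sum.inr l)) = L l 1 := by simp [Psi]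
    rw [SetLike.mem_coe, this]
    exact L_mem l 1

/-- the ideal of the variables -/
abbrev nn (b : ℕ) : Ideal (Vb b) := Ideal.span (Set.range X)

/-- the truncated ring -/
abbrev QN (b N : ℕ) : Type := Vb b ⧸ (nn b) ^ N

/-- the quotient map -/
abbrev mk (b N : ℕ) : Vb b →ₐ[ZMod 2] QN b N := Ideal.Quotient.mkₐ (ZMod 2) ((nn b) ^ N)

theorem X_mem (b : ℕ) (s : Fin b × Fin 2 × Fin 2) : (X s : Vb b) ∈ nn b :=
  Ideal.subset_span (Set.mem_range_self s)

/-- elements which are `1` modulo the variables are units in the truncated ring -/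
theorem isUnit_mk {b N : ℕ} {y : Vb b} (hy : y - 1 ∈ nn b) : IsUnit (mk b N y) := by
  have h1 : mk b N y = 1 + mk b N (y - 1) := by
    rw [map_sub, map_one]; ring
  rw [h1]
  refine IsNilpotent.isUnit_one_add ⟨N, ?_⟩
  rw [← map_pow]
  exact Ideal.Quotient.eq_zero_iff_mem.2 (Ideal.pow_mem_pow hy N)

theorem gh_apply (b : ℕ) (i : Fin b) (j k : Fin 2) :
    gh b i j k = (if j = k then 1 else 0) + X (i, j, k) := by
  simp [gh, gv, Matrix.one_apply]

theorem det_gh (b : ℕ) (i : Fin b) : (gh b i).det =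
    (1 + X (i, 0, 0)) * (1 + X (i, 1, 1)) - X (i, 0, 1) * X (i, 1, 0) := by
  rw [Matrix.det_fin_two]
  simp [gh_apply]

theorem det_gh_sub (b : ℕ) (i : Fin b) : (gh b i).det - 1 ∈ nn b := by
  have h : (gh b i).det - 1 = X (i, 0, 0) + (1 + X (i, 0, 0)) * X (i, 1, 1) -
      X (i, 0, 1) * X (i, 1, 0) := by
    rw [det_gh]; ring
  rw [h]
  exact Ideal.sub_mem _ (Ideal.add_mem _ (X_mem _ _) (Ideal.mul_mem_left _ _ (X_mem _ _)))
    (Ideal.mul_mem_left _ _ (X_mem _ _))

/-- the unit `det h_i` -/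
def uu (b N : ℕ) (i : Fin b) : (QN b N)ˣ := (isUnit_mk (N := N) (det_gh_sub b i)).unit

theorem uu_val (b N : ℕ) (i : Fin b) : (uu b N i : QN b N) = mk b N (gh b i).det := rfl

/-- the images `h_i` -/
def hh (b N : ℕ) (i : Fin b) : Matrix (Fin 2) (Fin 2) (QN b N) := (gh b i).map (mk b N)

theorem hh_det (b N : ℕ) (i : Fin b) : (hh b N i).det = uu b N i := by
  rw [uu_val, hh, Matrix.det_fin_two, Matrix.det_fin_two]
  simp

/-- the elements `g_i` -/
def gg (b N : ℕ) (i : Fin b) : SpecialLinearGroup (Fin 2) (QN b N) :=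
  ⟨((uu b N i)⁻¹ : (QN b N)ˣ).1 • (hh b N i).map fun x => x ^ 2, by
    have h1 := hh_det b N i
    rw [Matrix.det_fin_two] at h1
    have h2 : ((uu b N i)⁻¹ : (QN b N)ˣ).1 * (uu b N i).1 = 1 := Units.inv_mul _
    have h3 := two_eq_zero (C := QN b N)
    rw [Matrix.det_fin_two]
    simp only [Matrix.smul_apply, Matrix.map_apply, smul_eq_mul]
    set t := ((uu b N i)⁻¹ : (QN b N)ˣ).1
    set u := (uu b N i).1
    set p := hh b N i 0 0
    set q := hh b N i 0 1
    set r := hh b N i 1 0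
    set s := hh b N i 1 1
    linear_combination (t ^ 2 * (p * s - q * r + u)) * h1 + (t * u + 1) * h2 +
      (t ^ 2 * q * r * (p * s - q * r)) * h3⟩

theorem gg_apply (b N : ℕ) (i : Fin b) (j k : Fin 2) :
    (gg b N i).1 j k = ((uu b N i)⁻¹ : (QN b N)ˣ).1 * (hh b N i j k) ^ 2 := rfl

theorem hh_apply (b N : ℕ) (i : Fin b) (j k : Fin 2) :
    hh b N i j k = mk b N (gh b i j k) := rfl

theorem gg00_unit (b N : ℕ) (i : Fin b) : IsUnit ((gg b N i).1 0 0) := by
  rw [gg_apply, hh_apply]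
  refine (Units.isUnit _).mul (IsUnit.pow 2 (isUnit_mk ?_))
  have : gh b i 0 0 - 1 = X (i, 0, 0) := by simp [gh_apply]
  rw [this]
  exact X_mem _ _

theorem ch3_mem (b N : ℕ) (s : Fin b × Fin 3) :
    ch3 (gg b N s.1) s.2 ∈ (nn b).map (mk b N) := by
  obtain ⟨i, j⟩ := s
  have hmem : ∀ y ∈ nn b, mk b N y ∈ (nn b).map (mk b N) := fun y hy => Ideal.mem_map_of_mem _ hy
  fin_cases j
  · show (gg b N i).1 0 0 - 1 ∈ _
    have h2 : ((uu b N i)⁻¹ : (QN b N)ˣ).1 * (uu b N i).1 = 1 := Units.inv_mul _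
    have h : (gg b N i).1 0 0 - 1 =
        ((uu b N i)⁻¹ : (QN b N)ˣ).1 * mk b N (gh b i 0 0 ^ 2 - (gh b i).det) := by
      rw [gg_apply, map_sub, ← uu_val, hh_apply, map_pow, mul_sub, h2]
    rw [h]
    refine Ideal.mul_mem_left _ _ (hmem _ ?_)
    have h3 : gh b i 0 0 ^ 2 - (gh b i).det = (1 + X (i, 0, 0)) * (X (i, 0, 0) - X (i, 1, 1)) +
        X (i, 0, 1) * X (i, 1, 0) := by
      rw [det_gh, gh_apply]
      simp only [if_true]
      ring
    rw [h3]
    exact Ideal.add_mem _ (Ideal.mul_mem_left _ _ (Ideal.sub_mem _ (X_mem _ _) (X_mem _ _)))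
      (Ideal.mul_mem_left _ _ (X_mem _ _))
  · show (gg b N i).1 0 1 ∈ _
    rw [gg_apply, hh_apply, ← map_pow]
    refine Ideal.mul_mem_left _ _ (hmem _ ?_)
    have : gh b i 0 1 = X (i, 0, 1) := by simp [gh_apply]
    rw [this, pow_two]
    exact Ideal.mul_mem_left _ _ (X_mem _ _)
  · show (gg b N i).1 1 0 ∈ _
    rw [gg_apply, hh_apply, ← map_pow]
    refine Ideal.mul_mem_left _ _ (hmem _ ?_)
    have : gh b i 1 0 = X (i, 1, 0) := by simp [gh_apply]
    rw [this, pow_two]
    exact Ideal.mul_mem_left _ _ (X_mem _ _)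

theorem gv_map (b N : ℕ) :
    (fun i => (gv b i).map (mk b N)) = fun i => hh b N i - 1 := by
  funext i
  ext j k
  rw [Matrix.map_apply, Matrix.sub_apply, hh_apply, gh_apply, map_add]
  by_cases hjk : j = k
  · subst hjk
    rw [if_pos rfl, map_one, Matrix.one_apply_eq, add_sub_cancel_left]
    rfl
  · rw [if_neg hjk, map_zero, zero_add, Matrix.one_apply_ne hjk, sub_zero]
    rfl

theorem mk_term (b N : ℕ) (S : Finset (Fin b)) (P : MvPolynomial (Gn b) (ZMod 2)) :
    mk b N ((∏ i ∈ S, (gh b i).det) * evm (gv b) P ^ 2) =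
      (∏ i ∈ S, (hh b N i).det) * evm (fun i => hh b N i - 1) P ^ 2 := by
  have h1 : mk b N (∏ i ∈ S, (gh b i).det) = ∏ i ∈ S, (hh b N i).det := by
    rw [map_prod]
    exact Finset.prod_congr rfl fun i _ => (hh_det b N i).symm
  have h2 : mk b N (evm (gv b) P) = evm (fun i => hh b N i - 1) P := by
    rw [evm_map, gv_map]
  rw [map_mul, map_pow, h1, h2]

end E2

/-- The statement `S_e2`. -/
theorem p_e2 (h1 : S_cc) (h2 : S_sq) (h3 : S_tri) : S_e2 := by
  intro b a
  obtain ⟨c, hc, hcc⟩ := h1 b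
  refine ⟨2 * b + 2 * (c * a) + 2, fun f M F hch hF => ?_⟩
  set N := 2 * b + 2 * (c * a) + 2 with hN
  obtain ⟨J, α, hα1, hα2⟩ := h2 b f
  -- the value of `evf` at `gg`
  have e1 := hch (E2.QN b N) (E2.gg b N)
  have e2 : aeval (fun s : Fin b × Fin 3 => ch3 (E2.gg b N s.1) s.2) F = 0 := by
    have k1 := Ideal.mem_map_of_mem
      (aeval (fun s : Fin b × Fin 3 => ch3 (E2.gg b N s.1) s.2) : _ →ₐ[ZMod 2] E2.QN b N) hF
    rw [Ideal.map_pow] at k1
    have k2 : Ideal.map (aeval (fun s : Fin b × Fin 3 => ch3 (E2.gg b N s.1) s.2) :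
        MvPolynomial (Fin b × Fin 3) (ZMod 2) →ₐ[ZMod 2] E2.QN b N)
        (Ideal.span (Set.range X)) ≤ (E2.nn b).map (E2.mk b N) := by
      rw [Ideal.map_span, Ideal.span_le]
      rintro _ ⟨_, ⟨s, rfl⟩, rfl⟩
      rw [SetLike.mem_coe, aeval_X]
      exact E2.ch3_mem b N s
    have k3 := Ideal.pow_right_mono k2 N k1
    rw [← Ideal.map_pow] at k3
    have k4 : Ideal.map (E2.mk b N) ((E2.nn b) ^ N) = ⊥ := by
      rw [Ideal.map_eq_bot_iff_le_ker]
      intro y hy
      exact Ideal.Quotient.eq_zero_iff_mem.2 hy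
    rw [k4] at k3
    exact k3
  rw [e2] at e1
  have e3 : evf (E2.gg b N) f = 0 := by
    have hu : IsUnit ((∏ i, (E2.gg b N i).1 0 0) ^ M) := by
      refine IsUnit.pow _ ?_
      rw [IsUnit.prod_iff]
      exact fun i _ => E2.gg00_unit b N i
    exact (hu.mul_right_eq_zero).1 e1
  have e4 := hα1 (E2.QN b N) (E2.hh b N) (E2.gg b N) (by
    intro i
    rw [E2.hh_det]
    ext j k
    rw [Matrix.smul_apply, E2.gg_apply, smul_eq_mul, Matrix.map_apply, ← mul_assoc,
      Units.mul_inv, one_mul])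
  rw [e3, mul_zero] at e4
  -- `Θ ∈ 𝔫 ^ N`
  set Θ : Vb b := ∑ S : Finset (Fin b), (∏ i ∈ S, (gh b i).det) * evm (gv b) (α S) ^ 2 with hΘ
  have e5 : Θ ∈ (E2.nn b) ^ N := by
    rw [← Ideal.Quotient.eq_zero_iff_mem]
    have : E2.mk b N Θ = 0 := by
      rw [e4, hΘ, map_sum]
      exact Finset.sum_congr rfl fun S _ => E2.mk_term b N S (α S)
    exact this
  have e6 : ∀ n < N, homogeneousComponent n Θ = 0 := by
    intro n hn
    ext m
    rw [coeff_homogeneousComponent, coeff_zero]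
    split_ifs with h
    · exact (mem_pow_idealOfVars_iff' N Θ).1 e5 m (by omega)
    · rfl
  have e7 := h3 b N (fun S => evm (gv b) (α S)) e6
  have e8 : ∀ S : Finset (Fin b), ∃ F' ∈ (Ideal.span (Set.range X) :
      Ideal (MvPolynomial (Gn b) (ZMod 2))) ^ a, evm (gv b) F' = evm (gv b) (α S) := by
    intro S
    obtain ⟨F', hF', hF2⟩ := hcc (c * a) (α S) (fun n hn => e7 S n (by omega))
    rw [Nat.mul_div_cancel_left _ (Nat.pos_of_ne_zero hc)] at hF'
    exact ⟨F', hF', hF2⟩
  choose F' hF' hF2 using e8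
  refine ⟨∑ S, E2.Psi b (F' S), Ideal.sum_mem _ fun S _ => E2.Psi_mem (hF' S), ?_⟩
  intro C _ _ g
  rw [hα2 C g, map_sum]
  refine Finset.sum_congr rfl fun S _ => ?_
  rw [E2.evf_Psi]
  -- specialise
  set v : Fin b → Matrix (Fin 2) (Fin 2) C := fun i => (g i).1 - 1 with hv
  have hsp : ∀ P, evm v P =
      (aeval (fun s : Fin b × Fin 2 × Fin 2 => v s.1 s.2.1 s.2.2) : Vb b →ₐ[ZMod 2] C)
        (evm (gv b) P) := by
    intro P
    rw [E2.evm_map]
    congr 2
    funext i
    ext j k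
    simp [gv]
  rw [hsp, hsp, hF2]

end

end Pool.Agent.FrNE
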